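import Pool.Agent.WHP.Stmts

/-!
# The tree lemma (module M7): from branching to positive dimension (MP_c538e3_nt, note 1592)

A binary sequence is cut into blocks, block `k` (of length `e (p k)`) choosing the next child.
The point reached determines the sequence, and the inverse map is Hölder onto `[0,1]`.
-/

set_option autoImplicit false

namespace WHP

open Filter Topology
open scoped ENNReal NNReal

/-- number read from `k` binary digits of `w`, starting at position `n` -/
def tdVal (w : ℕ → Fin 2) (n : ℕ) : ℕ → ℕ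
  | 0 => 0
  | k + 1 => 2 * tdVal w n k + (w (n + k) : ℕ)

lemma tdVal_lt (w : ℕ → Fin 2) (n k : ℕ) : tdVal w n k < 2 ^ k := by
  induction k with
  | zero => simp [tdVal]
  | succ k ih =>
    have h1 := (w (n + k)).isLt
    simp only [tdVal, pow_succ]
    omega

lemma tdVal_congr {w w' : ℕ → Fin 2} {n k : ℕ} (h : ∀ i < k, w (n + i) = w' (n + i)) :
    tdVal w n k = tdVal w' n k := by
  induction k with
  | zero => rfl
  | succ k ih =>
    simp only [tdVal]
    rw [ih fun i hi => h i (by omega), h k (by omega)]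

lemma tdVal_inj {w w' : ℕ → Fin 2} {n : ℕ} (k : ℕ) (h : tdVal w n k = tdVal w' n k) :
    ∀ i < k, w (n + i) = w' (n + i) := by
  induction k with
  | zero => intro i hi; omega
  | succ k ih =>
    simp only [tdVal] at h
    have h1 := (w (n + k)).isLt
    have h2 := (w' (n + k)).isLt
    intro i hi
    rcases Nat.lt_succ_iff_lt_or_eq.1 hi with hi | rfl
    · exact ih (by omega) i hi
    · apply Fin.ext
      omega

/-- the path of states, with the number of digits read -/
def tdSt {S : Type} (s0 : S) (e : S → ℕ) (ch : S → ℕ → S) (w : ℕ → Fin 2) : ℕ → S × ℕ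
  | 0 => (s0, 0)
  | k + 1 => (ch (tdSt s0 e ch w k).1 (tdVal w (tdSt s0 e ch w k).2 (e (tdSt s0 e ch w k).1)),
      (tdSt s0 e ch w k).2 + e (tdSt s0 e ch w k).1)

lemma tdSt_congr {S : Type} (s0 : S) (e : S → ℕ) (ch : S → ℕ → S) {w w' : ℕ → Fin 2} {m : ℕ}
    (h : ∀ i < m, w i = w' i) (k : ℕ) (hk : (tdSt s0 e ch w k).2 ≤ m) :
    tdSt s0 e ch w k = tdSt s0 e ch w' k := by
  induction k with
  | zero => rfl
  | succ k ih =>
    simp only [tdSt] at hk ⊢
    have h1 := ih (by omega)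
    rw [← h1]
    rw [tdVal_congr (w := w) (w' := w') fun i hi => h _ (by omega)]

/-- a sequence with positive increments passes over every `m` -/
lemma td_block (n e : ℕ → ℕ) (h0 : n 0 = 0) (hs : ∀ k, n (k + 1) = n k + e k)
    (he : ∀ k, 1 ≤ e k) (m : ℕ) : ∃ k, n k ≤ m ∧ m < n k + e k := by
  classical
  have hk : ∀ k, k ≤ n k := by
    intro k
    induction k with
    | zero => omega
    | succ k ih =>
      have h1 := hs k
      have h2 := he k
      omega
  have h1 : ∃ k, m < n (k + 1) := ⟨m, by have := hk (m + 1); omega⟩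
  refine ⟨Nat.find h1, ?_, by rw [← hs]; exact Nat.find_spec h1⟩
  rcases Nat.eq_zero_or_pos (Nat.find h1) with h2 | h2
  · rw [h2, h0]; omega
  · have h3 := Nat.find_min h1 (m := Nat.find h1 - 1) (by omega)
    rw [Nat.sub_add_cancel h2] at h3
    omega

lemma td_first {w w' : ℕ → Fin 2} (h : w ≠ w') : ∃ n, (∀ i < n, w i = w' i) ∧ w n ≠ w' n := by
  classical
  have h1 : ∃ n, w n ≠ w' n := by
    by_contra hcon
    push Not at hcon
    exact h (funext hcon)
  refine ⟨Nat.find h1, fun i hi => ?_, Nat.find_spec h1⟩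
  by_contra hcon
  exact Nat.find_min h1 hi hcon

/-- separation of the points of a binary tree gives positive dimension -/
lemma td_dim (f : (ℕ → Fin 2) → ℝ) (C : ℝ) (B : ℕ) (hC : 1 ≤ C) (hB : 1 ≤ B)
    (hf : ∀ (w w' : ℕ → Fin 2) (m : ℕ), (∀ i < m, w i = w' i) → w m ≠ w' m →
      1 ≤ |f w - f w'| * (C * (2 ^ m) ^ B)) :
    0 < dimH (Set.range f) := by
  have hinj : Function.Injective f := by
    intro w w' h
    by_contra hne
    obtain ⟨m, h1, h2⟩ := td_first hne
    have h3 := hf w w' m h1 h2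
    rw [h, sub_self, abs_zero, zero_mul] at h3
    norm_num at h3
  set r : ℝ≥0 := (B : ℝ≥0)⁻¹ with hr
  have hB0 : (0 : ℝ) < B := by exact_mod_cast hB
  have hr0 : 0 < r := by
    rw [hr]
    have : (0 : ℝ≥0) < (B : ℝ≥0) := by exact_mod_cast hB
    positivity
  have hrr : (r : ℝ) = (B : ℝ)⁻¹ := by rw [hr]; push_cast; rfl
  have hC0 : 0 ≤ C := by linarith
  have hholder : ∀ w w' : ℕ → Fin 2,
      |Real.ofDigits w - Real.ofDigits w'| ≤ C ^ (r : ℝ) * dist (f w) (f w') ^ (r : ℝ) := by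
    intro w w'
    by_cases h : w = w'
    · subst h
      simp only [sub_self, abs_zero]
      positivity
    obtain ⟨m, h1, h2⟩ := td_first h
    have h3 := hf w w' m h1 h2
    have h4 := Real.abs_ofDigits_sub_ofDigits_le h1
    push_cast at h4
    rw [Real.dist_eq]
    have h2m : (0 : ℝ) < 2 ^ m := by positivity
    have h5 : ((2 : ℝ) ^ m)⁻¹ ^ B ≤ C * |f w - f w'| := by
      rw [inv_pow, inv_eq_one_div, div_le_iff₀ (by positivity)]
      linarith
    have h6 : ((2 : ℝ) ^ m)⁻¹ = (((2 : ℝ) ^ m)⁻¹ ^ B) ^ (r : ℝ) := by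
      rw [hrr, Real.pow_rpow_inv_natCast (by positivity) (by omega)]
    calc |Real.ofDigits w - Real.ofDigits w'| ≤ ((2 : ℝ) ^ m)⁻¹ := h4
      _ = (((2 : ℝ) ^ m)⁻¹ ^ B) ^ (r : ℝ) := h6
      _ ≤ (C * |f w - f w'|) ^ (r : ℝ) := Real.rpow_le_rpow (by positivity) h5 r.coe_nonneg
      _ = _ := Real.mul_rpow hC0 (abs_nonneg _)
  set g : ℝ → ℝ := fun x => Real.ofDigits (Function.invFun f x) with hg
  have hgf : ∀ w, g (f w) = Real.ofDigits w := by
    intro w
    simp only [hg]
    rw [Function.leftInverse_invFun hinj w]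
  have hgH : HolderOnWith (C ^ (r : ℝ)).toNNReal r g (Set.range f) := by
    rintro _ ⟨w, rfl⟩ _ ⟨w', rfl⟩
    rw [hgf, hgf, edist_dist, edist_dist, Real.dist_eq]
    rw [ENNReal.ofReal_rpow_of_nonneg (dist_nonneg (x := f w) (y := f w')) r.coe_nonneg]
    have h128 : (((C ^ (r : ℝ)).toNNReal : ℝ≥0) : ℝ≥0∞) = ENNReal.ofReal (C ^ (r : ℝ)) := rfl
    rw [h128, ← ENNReal.ofReal_mul (by positivity)]
    exact ENNReal.ofReal_le_ofReal (hholder w w')
  have hsurj : Set.Icc (0 : ℝ) 1 ⊆ g '' (Set.range f) := by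
    intro y hy
    obtain ⟨w, -, hw⟩ := Real.ofDigits_SurjOn (b := 2) (by norm_num) hy
    exact ⟨f w, ⟨w, rfl⟩, by rw [hgf, hw]⟩
  have h1 : dimH (Set.Icc (0 : ℝ) 1) = 1 := by
    rw [Real.dimH_of_nonempty_interior]
    · simp
    · rw [interior_Icc]
      exact ⟨1 / 2, by norm_num, by norm_num⟩
  have h2 : dimH (g '' (Set.range f)) ≤ dimH (Set.range f) / (r : ℝ≥0∞) :=
    hgH.dimH_image_le hr0
  have h3 : (1 : ℝ≥0∞) ≤ dimH (Set.range f) / (r : ℝ≥0∞) := by
    rw [← h1]
    exact (dimH_mono hsurj).trans h2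
  rw [pos_iff_ne_zero]
  intro h0
  rw [h0, ENNReal.zero_div] at h3
  exact absurd h3 (by norm_num)

/-- **M7.** -/
theorem treeDim : TreeDim := by
  intro S I Y R s0 A D hY hcomp hne hstep
  choose e ch he hYe hch hsep using hstep
  set p : (ℕ → Fin 2) → ℕ → S × ℕ := tdSt s0 e ch with hp
  have hp0 : ∀ w, p w 0 = (s0, 0) := fun w => rfl
  have hps : ∀ w k, p w (k + 1) = (ch (p w k).1 (tdVal w (p w k).2 (e (p w k).1)),
      (p w k).2 + e (p w k).1) := fun w k => rfl
  have hchp : ∀ w k, R (p w k).1 (p w (k + 1)).1 ∧ I (p w (k + 1)).1 ⊆ I (p w k).1 ∧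
      Y (p w (k + 1)).1 ≤ Y (p w k).1 ^ A := by
    intro w k
    rw [hps]
    exact hch (p w k).1 _ (tdVal_lt _ _ _)
  have hex : ∀ w, ∃ ξ, ∀ k, ξ ∈ I (p w k).1 := by
    intro w
    have h1 := IsCompact.nonempty_iInter_of_sequence_nonempty_isCompact_isClosed
      (fun k => I (p w k).1) (fun k => (hchp w k).2.1) (fun k => hne _) (hcomp _)
      (fun k => (hcomp _).isClosed)
    obtain ⟨ξ, hξ⟩ := h1
    exact ⟨ξ, fun k => Set.mem_iInter.1 hξ k⟩
  choose f hf using hex
  refine ⟨Set.range f, ?_, ?_⟩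
  · have hY0 : 2 ≤ Y s0 := hY s0
    refine td_dim f ((Y s0) ^ D) (A * A * D + 1) (one_le_pow₀ (by linarith)) (by omega) ?_
    intro w w' m hlt hm
    obtain ⟨k, hk1, hk2⟩ := td_block (fun k => (p w k).2) (fun k => e (p w k).1)
      rfl (fun k => rfl) (fun k => he _) m
    have hpe : p w k = p w' k := tdSt_congr s0 e ch hlt k hk1
    have hval : tdVal w (p w k).2 (e (p w k).1) ≠ tdVal w' (p w k).2 (e (p w k).1) := by
      intro h
      apply hm
      have h1 := tdVal_inj _ h (m - (p w k).2) (by omega)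
      have h2 : (p w k).2 + (m - (p w k).2) = m := by omega
      rwa [h2] at h1
    have h1 := hf w (k + 1)
    have h2 := hf w' (k + 1)
    rw [hps] at h1 h2
    rw [← hpe] at h2
    have h3 := hsep (p w k).1 _ (tdVal_lt _ _ _) _ (tdVal_lt _ _ _) hval _ h1 _ h2
    have hYk : Y (p w k).1 ≤ Y s0 * 2 ^ (A * A * m) := by
      have h4 : ∀ k, Y (p w k).1 ≤ Y s0 * 2 ^ (A * A * (p w k).2) := by
        intro k
        cases k with
        | zero =>
          rw [hp0]
          simp
        | succ k =>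
          have h5 : Y (p w (k + 1)).1 ≤ 2 ^ (A * A * (p w (k + 1)).2) := by
            calc Y (p w (k + 1)).1 ≤ Y (p w k).1 ^ A := (hchp w k).2.2
              _ ≤ (2 ^ (A * e (p w k).1)) ^ A :=
                pow_le_pow_left₀ (by linarith [hY (p w k).1]) (hYe _) _
              _ = 2 ^ (A * A * e (p w k).1) := by
                rw [← pow_mul]; congr 1; ring
              _ ≤ 2 ^ (A * A * (p w (k + 1)).2) := by
                apply pow_le_pow_right₀ (by norm_num)
                rw [hps]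
                exact Nat.mul_le_mul_left _ (Nat.le_add_left _ _)
          have h6 : (0 : ℝ) ≤ 2 ^ (A * A * (p w (k + 1)).2) := by positivity
          nlinarith
      refine (h4 k).trans ?_
      have h7 : (2 : ℝ) ^ (A * A * (p w k).2) ≤ 2 ^ (A * A * m) :=
        pow_le_pow_right₀ (by norm_num) (Nat.mul_le_mul_left _ hk1)
      exact mul_le_mul_of_nonneg_left h7 (by linarith)
    have hYD : Y (p w k).1 ^ D ≤ (Y s0) ^ D * (2 ^ m) ^ (A * A * D + 1) := by
      calc Y (p w k).1 ^ D ≤ (Y s0 * 2 ^ (A * A * m)) ^ D :=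
            pow_le_pow_left₀ (by linarith [hY (p w k).1]) hYk _
        _ = (Y s0) ^ D * (2 ^ m) ^ (A * A * D) := by
            rw [mul_pow, ← pow_mul, ← pow_mul]; congr 2; ring
        _ ≤ (Y s0) ^ D * (2 ^ m) ^ (A * A * D + 1) := by
            apply mul_le_mul_of_nonneg_left _ (by positivity)
            exact pow_le_pow_right₀ (one_le_pow₀ (by norm_num)) (by omega)
    calc (1 : ℝ) ≤ |f w - f w'| * Y (p w k).1 ^ D := h3
      _ ≤ _ := mul_le_mul_of_nonneg_left hYD (abs_nonneg _)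
  · rintro _ ⟨w, rfl⟩
    exact ⟨fun k => (p w k).1, rfl, fun k => (hchp w k).1, hf w⟩

end WHP
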