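import Pool.Agent.WHP.Stmts

/-!
# M3, the pigeonhole box (MP_c538e3_nt, note 1592)
-/

namespace WHP

private lemma bx_floor_lt {x b : ℝ} (hb : 0 < b) (hx0 : 0 ≤ x) (hx : x < 1) :
    ⌊x / b⌋₊ < ⌈1 / b⌉₊ := by
  rw [Nat.floor_lt (div_nonneg hx0 hb.le)]
  calc x / b < 1 / b := by
        exact div_lt_div_of_pos_right hx hb
    _ ≤ _ := Nat.le_ceil _

private lemma bx_close {x y b : ℝ} (hb : 0 < b) (hx0 : 0 ≤ x) (hy0 : 0 ≤ y)
    (h : ⌊x / b⌋₊ = ⌊y / b⌋₊) : |x - y| ≤ b := by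
  have h1 : (⌊x / b⌋₊ : ℝ) ≤ x / b := Nat.floor_le (div_nonneg hx0 hb.le)
  have h2 : x / b < ⌊x / b⌋₊ + 1 := Nat.lt_floor_add_one _
  have h3 : (⌊y / b⌋₊ : ℝ) ≤ y / b := Nat.floor_le (div_nonneg hy0 hb.le)
  have h4 : y / b < ⌊y / b⌋₊ + 1 := Nat.lt_floor_add_one _
  rw [h] at h1 h2
  rw [le_div_iff₀ hb] at h1 h3
  rw [div_lt_iff₀ hb] at h2 h4
  rw [abs_le]
  constructor <;> nlinarith

private lemma bx_ceil {b : ℝ} (hb : 0 < b) (hb1 : b ≤ 1) : (⌈1 / b⌉₊ : ℝ) < 2 / b := by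
  have h0 : (0 : ℝ) ≤ 1 / b := by positivity
  have h1 := Nat.ceil_lt_add_one h0
  have h2 : (1 : ℝ) ≤ 1 / b := by
    rw [le_div_iff₀ hb]; linarith
  calc (⌈1 / b⌉₊ : ℝ) < 1 / b + 1 := h1
    _ ≤ 1 / b + 1 / b := by linarith
    _ = 2 / b := by ring

/-- M3 -/
theorem box : Box := by
  intro t V β γ hβ hβ1 hγ hγ1 hV
  have hβγ : 0 < β * γ := mul_pos hβ hγ
  have hVpos : 0 < V := by
    by_contra hneg
    push Not at hneg
    have : V * (β * γ) ≤ 0 := mul_nonpos_of_nonpos_of_nonneg hneg hβγ.le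
    nlinarith
  set M : ℕ := ⌊V⌋₊ with hM
  set h : ℕ → ℝ := fun n => t ^ 2 * n - 2 * t * (⌊t * n⌋ : ℝ) with hh
  set f : ℕ → ℕ × ℕ := fun n => (⌊Int.fract (t * n) / β⌋₊, ⌊Int.fract (h n) / γ⌋₊) with hf
  have hcard : (Finset.range ⌈1 / β⌉₊ ×ˢ Finset.range ⌈1 / γ⌉₊).card <
      (Finset.range (M + 1)).card := by
    rw [Finset.card_product, Finset.card_range, Finset.card_range, Finset.card_range]
    have h1 := bx_ceil hβ hβ1
    have h2 := bx_ceil hγ hγ1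
    have h3 : (⌈1 / β⌉₊ : ℝ) * (⌈1 / γ⌉₊ : ℝ) ≤ (2 / β) * (2 / γ) :=
      mul_le_mul h1.le h2.le (Nat.cast_nonneg _) (by positivity)
    have h4 : (2 / β) * (2 / γ) ≤ V := by
      rw [div_mul_div_comm, div_le_iff₀ hβγ]
      nlinarith
    have h5 : V < (M : ℝ) + 1 := Nat.lt_floor_add_one V
    have h6 : ((⌈1 / β⌉₊ * ⌈1 / γ⌉₊ : ℕ) : ℝ) < ((M + 1 : ℕ) : ℝ) := by
      push_cast
      linarith
    exact_mod_cast h6
  have hmaps : ∀ n ∈ Finset.range (M + 1), f n ∈ Finset.range ⌈1 / β⌉₊ ×ˢ Finset.range ⌈1 / γ⌉₊ := by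
    intro n _
    rw [Finset.mem_product, Finset.mem_range, Finset.mem_range]
    exact ⟨bx_floor_lt hβ (Int.fract_nonneg _) (Int.fract_lt_one _),
      bx_floor_lt hγ (Int.fract_nonneg _) (Int.fract_lt_one _)⟩
  obtain ⟨m, hm, n, hn, hmn, hfe⟩ := Finset.exists_ne_map_eq_of_card_lt_of_maps_to hcard hmaps
  have hf1 : ⌊Int.fract (t * m) / β⌋₊ = ⌊Int.fract (t * n) / β⌋₊ := congrArg Prod.fst hfe
  have hf2 : ⌊Int.fract (h m) / γ⌋₊ = ⌊Int.fract (h n) / γ⌋₊ := congrArg Prod.snd hfe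
  have hc1 := bx_close hβ (Int.fract_nonneg _) (Int.fract_nonneg _) hf1
  have hc2 := bx_close hγ (Int.fract_nonneg _) (Int.fract_nonneg _) hf2
  have hmV : (m : ℝ) ≤ V := by
    rw [Finset.mem_range] at hm
    exact le_trans (by exact_mod_cast (Nat.lt_succ_iff.mp hm)) (Nat.floor_le hVpos.le)
  have hnV : (n : ℝ) ≤ V := by
    rw [Finset.mem_range] at hn
    exact le_trans (by exact_mod_cast (Nat.lt_succ_iff.mp hn)) (Nat.floor_le hVpos.le)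
  have hm0 : (0 : ℝ) ≤ m := Nat.cast_nonneg _
  have hn0 : (0 : ℝ) ≤ n := Nat.cast_nonneg _
  refine ⟨⟨(m : ℤ) - n, ⌊t * m⌋ - ⌊t * n⌋, -⌊h m⌋ + ⌊h n⌋⟩, ?_, ?_, ?_, ?_⟩
  · intro h0
    have h1 : (m : ℤ) - n = 0 := congrArg V3.a h0
    apply hmn
    omega
  · push_cast
    rw [abs_le]
    constructor <;> linarith
  · have e : be t ⟨(m : ℤ) - n, ⌊t * m⌋ - ⌊t * n⌋, -⌊h m⌋ + ⌊h n⌋⟩ =
        -(Int.fract (t * m) - Int.fract (t * n)) := by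
      simp only [be, Int.fract]
      push_cast
      ring
    rw [e, abs_neg]
    exact hc1
  · have e : ga t ⟨(m : ℤ) - n, ⌊t * m⌋ - ⌊t * n⌋, -⌊h m⌋ + ⌊h n⌋⟩ =
        Int.fract (h m) - Int.fract (h n) := by
      simp only [ga, Int.fract]
      push_cast
      simp only [hh]
      ring
    rw [e]
    exact hc2

end WHP
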