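import Pool.Agent.WHP.Basic

/-!
# Geometric step, part A: parameters, primitive vectors, the family lemma
-/

namespace WHP

/-- `-v` -/
def neg (v : V3) : V3 := ⟨-v.a, -v.b, -v.c⟩

theorem be_neg (t : ℝ) (v : V3) : be t (neg v) = -be t v := by
  simp only [be, neg]; push_cast; ring

theorem ga_neg (t : ℝ) (v : V3) : ga t (neg v) = -ga t v := by
  simp only [ga, neg]; push_cast; ring

theorem det_neg (v : V3) : det (neg v) = det v := by
  simp only [det, neg]; ring

theorem geo_prim (v' : V3) (h : v' ≠ 0) : ∃ (n : ℤ) (v : V3), 1 ≤ n ∧ v' = lin n v 0 v ∧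
    ∃ x y z : ℤ, x * v.a + y * v.b + z * v.c = 1 := by
  obtain ⟨a, b, c⟩ := v'
  have h0 : ¬ (a = 0 ∧ b = 0 ∧ c = 0) := by
    rintro ⟨h1, h2, h3⟩
    exact h (V3.ext h1 h2 h3)
  set g1 : ℤ := (Int.gcd a b : ℤ) with hg1
  set g : ℤ := (Int.gcd g1 c : ℤ) with hg
  have hgne : g ≠ 0 := by
    intro h1
    rw [hg] at h1
    have h2 : Int.gcd g1 c = 0 := by exact_mod_cast h1
    rw [Int.gcd_eq_zero_iff] at h2
    have h3 : Int.gcd a b = 0 := by
      have := h2.1
      rw [hg1] at this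
      exact_mod_cast this
    rw [Int.gcd_eq_zero_iff] at h3
    exact h0 ⟨h3.1, h3.2, h2.2⟩
  have hgpos : 1 ≤ g := by
    have : 0 ≤ g := by rw [hg]; exact Int.natCast_nonneg _
    omega
  have hb1 : g1 = a * Int.gcdA a b + b * Int.gcdB a b := by
    rw [hg1]; exact Int.gcd_eq_gcd_ab a b
  have hb2 : g = g1 * Int.gcdA g1 c + c * Int.gcdB g1 c := by
    rw [hg]; exact Int.gcd_eq_gcd_ab g1 c
  have hd1 : g ∣ g1 := by rw [hg]; exact Int.gcd_dvd_left ..
  have hd2 : g ∣ c := by rw [hg]; exact Int.gcd_dvd_right ..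
  have hd3 : g1 ∣ a := by rw [hg1]; exact Int.gcd_dvd_left ..
  have hd4 : g1 ∣ b := by rw [hg1]; exact Int.gcd_dvd_right ..
  obtain ⟨a', ha'⟩ := hd1.trans hd3
  obtain ⟨b', hb'⟩ := hd1.trans hd4
  obtain ⟨c', hc'⟩ := hd2
  refine ⟨g, ⟨a', b', c'⟩, hgpos, ?_, Int.gcdA a b * Int.gcdA g1 c,
    Int.gcdB a b * Int.gcdA g1 c, Int.gcdB g1 c, ?_⟩
  · ext <;> simp [lin, ha', hb', hc']
  · have h5 : g * (Int.gcdA a b * Int.gcdA g1 c * a' + Int.gcdB a b * Int.gcdA g1 c * b' +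
        Int.gcdB g1 c * c') = g * 1 := by
      calc _ = (g * a') * Int.gcdA a b * Int.gcdA g1 c + (g * b') * Int.gcdB a b * Int.gcdA g1 c +
            (g * c') * Int.gcdB g1 c := by ring
        _ = g * 1 := by
          rw [← ha', ← hb', ← hc', mul_one]
          linear_combination (-1 : ℤ) * hb2 - Int.gcdA g1 c * hb1
    exact mul_left_cancel₀ hgne h5

/-- a vector parallel to a primitive vector is a multiple of it -/
theorem geo_par (v u : V3) (hb : ∃ x y z : ℤ, x * v.a + y * v.b + z * v.c = 1)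
    (hc : cross u v = 0) : ∃ j : ℤ, u = lin j v 0 v := by
  obtain ⟨x, y, z, hxyz⟩ := hb
  have h1 : u.b * v.c - u.c * v.b = 0 := by
    have := congrArg V3.a hc
    simpa [cross, zero_a] using this
  have h2 : u.c * v.a - u.a * v.c = 0 := by
    have := congrArg V3.b hc
    simpa [cross, zero_b] using this
  have h3 : u.a * v.b - u.b * v.a = 0 := by
    have := congrArg V3.c hc
    simpa [cross, zero_c] using this
  refine ⟨x * u.a + y * u.b + z * u.c, ?_⟩
  ext
  · simp only [lin]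
    linear_combination (-u.a) * hxyz + y * h3 - z * h2
  · simp only [lin]
    linear_combination (-u.b) * hxyz - x * h3 + z * h1
  · simp only [lin]
    linear_combination (-u.c) * hxyz + x * h2 - y * h1

/-- membership in `s K` -/
structure InK (y : V3) (b s : ℝ) (v : V3) : Prop where
  h1 : |(v.a : ℝ)| * (b ^ 3 * (det y : ℝ) ^ 2) ≤ s * (y.a : ℝ) ^ 2
  h2 : |be (tt y) v| * (b ^ 202 * |(det y : ℝ)|) ≤ s
  h3 : |ga (tt y) v| * (y.a : ℝ) ^ 2 ≤ s * (b ^ 481 * (det y : ℝ) ^ 2)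

end WHP
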