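import Pool.Agent.WHP.Stmts2

/-!
# Module WHP_Main: positive dimension of the numbers with uniform exponent above 2 (helper85)
-/

set_option autoImplicit false

namespace WHP

open Polynomial

/-- The real number `ξ` is algebraic of degree at most two. -/
def AlgDegLeTwo (ξ : ℝ) : Prop :=
  ∃ P : ℤ[X], P ≠ 0 ∧ P.natDegree ≤ 2 ∧ aeval ξ P = 0

/-- The height of an integer polynomial: the maximum of the absolute values of its
coefficients. -/
def height (P : ℤ[X]) : ℕ := P.support.sup fun i => (P.coeff i).natAbs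

/-- The real numbers `w` such that, for every sufficiently large real `H`, there is a nonzero
integer polynomial `P` with `deg P ≤ 2`, `H(P) ≤ H` and `0 < |P(ξ)| ≤ H ^ (-w)`. -/
def admissible (ξ : ℝ) : Set ℝ :=
  {w | ∃ H₀ : ℝ, ∀ H : ℝ, H₀ ≤ H → ∃ P : ℤ[X], P ≠ 0 ∧ P.natDegree ≤ 2 ∧
    (height P : ℝ) ≤ H ∧ 0 < |aeval ξ P| ∧ |aeval ξ P| ≤ H ^ (-w)}

/-- The uniform exponent `ŵ₂(ξ)`. -/
noncomputable def uniformExponent (ξ : ℝ) : EReal := ⨆ w ∈ admissible ξ, (w : EReal)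

/-- a numerical step -/
lemma main_num (n : ℕ) (hn : n ≠ 0) (v H M : ℝ) (hv : 0 ≤ v) (hH : 4 ≤ H) (hM : H / 4 ≤ M)
    (hH2 : 896 ≤ H ^ (1 / (2 * (n : ℝ)))) (h : (v * M ^ 2) ^ n * M ≤ 14 ^ n) :
    v ≤ H ^ (-(2 + 1 / (2 * (n : ℝ)))) := by
  have hH0 : 0 < H := by linarith
  have hn0 : (0 : ℝ) < n := by exact_mod_cast Nat.pos_of_ne_zero hn
  set u : ℝ := H ^ (1 / (2 * (n : ℝ))) with hu
  have hu0 : 0 < u := Real.rpow_pos_of_pos hH0 _
  have hun : (u ^ 2) ^ n = H := by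
    rw [← pow_mul, ← Real.rpow_natCast u (2 * n), hu, ← Real.rpow_mul hH0.le]
    have : 1 / (2 * (n : ℝ)) * ((2 * n : ℕ) : ℝ) = 1 := by
      push_cast
      field_simp
    rw [this, Real.rpow_one]
  have hw : H ^ (2 + 1 / (2 * (n : ℝ))) = H ^ 2 * u := by
    rw [Real.rpow_add hH0, Real.rpow_two]
  have h1 : (v * H ^ 2 * u ^ 2) ^ n ≤ 896 ^ n := by
    have h2 : (v * (H / 4) ^ 2) ^ n * (H / 4) ≤ 14 ^ n := by
      refine le_trans ?_ h
      gcongr
    have h3 : (v * H ^ 2 * u ^ 2) ^ n = 4 * 16 ^ n * ((v * (H / 4) ^ 2) ^ n * (H / 4)) := by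
      have e1 : (v * H ^ 2 * u ^ 2) ^ n = (v * H ^ 2) ^ n * H := by
        rw [mul_pow (v * H ^ 2), hun]
      have e2 : (v * H ^ 2) ^ n = 16 ^ n * (v * (H / 4) ^ 2) ^ n := by
        rw [← mul_pow]
        congr 1
        ring
      rw [e1, e2]
      ring
    have h4 : (4 : ℝ) ≤ 4 ^ n := by
      have := pow_le_pow_right₀ (by norm_num : (1 : ℝ) ≤ 4) (Nat.one_le_iff_ne_zero.mpr hn)
      simpa using this
    calc (v * H ^ 2 * u ^ 2) ^ n = 4 * 16 ^ n * ((v * (H / 4) ^ 2) ^ n * (H / 4)) := h3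
      _ ≤ 4 * 16 ^ n * 14 ^ n := mul_le_mul_of_nonneg_left h2 (by positivity)
      _ ≤ 4 ^ n * 16 ^ n * 14 ^ n := by gcongr
      _ = 896 ^ n := by
        rw [← mul_pow, ← mul_pow]
        norm_num
  have h5 : v * H ^ 2 * u ^ 2 ≤ 896 :=
    (pow_le_pow_iff_left₀ (by positivity) (by norm_num) hn).mp h1
  have h6 : v * (H ^ 2 * u) ≤ 1 := by
    have h7 : (v * (H ^ 2 * u)) * u ≤ 1 * u := by
      calc (v * (H ^ 2 * u)) * u = v * H ^ 2 * u ^ 2 := by ring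
        _ ≤ 896 := h5
        _ ≤ 1 * u := by rw [one_mul]; exact hH2
    exact le_of_mul_le_mul_right h7 hu0
  rw [Real.rpow_neg hH0.le, hw, ← one_div, le_div_iff₀ (by positivity)]
  exact h6

/-- the polynomial of a vector -/
noncomputable def polyV (P : V3) : ℤ[X] := C P.a + C P.b * X + C P.c * X ^ 2

lemma poly_coeff (P : V3) (i : ℕ) : (polyV P).coeff i =
    if i = 0 then P.a else if i = 1 then P.b else if i = 2 then P.c else 0 := by
  unfold polyV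
  rw [coeff_add, coeff_add, coeff_C, coeff_C_mul, coeff_C_mul, coeff_X, coeff_X_pow]
  rcases i with _ | _ | _ | i
  · simp
  · simp
  · simp
  · have h1 : i + 1 + 1 + 1 ≠ 0 := by omega
    have h2 : i + 1 + 1 + 1 ≠ 1 := by omega
    have h3 : i + 1 + 1 + 1 ≠ 2 := by omega
    simp

lemma poly_ne {P : V3} (hP : P ≠ 0) : polyV P ≠ 0 := by
  intro h
  apply hP
  have h0 := poly_coeff P 0
  have h1 := poly_coeff P 1
  have h2 := poly_coeff P 2
  rw [h, coeff_zero] at h0 h1 h2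
  simp only [if_true] at h0
  rw [if_neg one_ne_zero, if_pos rfl] at h1
  rw [if_neg two_ne_zero, if_neg (by norm_num), if_pos rfl] at h2
  have : P = ⟨0, 0, 0⟩ := by
    ext
    · exact h0.symm
    · exact h1.symm
    · exact h2.symm
  exact this

lemma poly_deg (P : V3) : (polyV P).natDegree ≤ 2 := by
  rw [natDegree_le_iff_coeff_eq_zero]
  intro i hi
  rw [poly_coeff, if_neg (by omega), if_neg (by omega), if_neg (by omega)]

lemma poly_aeval (P : V3) (ξ : ℝ) :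
    aeval ξ (polyV P) = (P.a : ℝ) + P.b * ξ + P.c * ξ ^ 2 := by
  unfold polyV
  simp

lemma poly_height {P : V3} {R : ℝ} (h : Sm P R) : (height (polyV P) : ℝ) ≤ R := by
  obtain ⟨h1, h2, h3⟩ := h
  have hR : 0 ≤ R := (abs_nonneg _).trans h1
  have key : height (polyV P) ≤ ⌊R⌋₊ := by
    unfold height
    refine Finset.sup_le fun i _ => ?_
    rw [Nat.le_floor_iff hR, Nat.cast_natAbs, Int.cast_abs, poly_coeff]
    split_ifs
    · exact h1
    · exact h2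
    · exact h3
    · simpa using hR
  exact (Nat.cast_le.mpr key).trans (Nat.floor_le hR)

lemma alg_countable : {ξ : ℝ | AlgDegLeTwo ξ}.Countable := by
  refine (Algebraic.countable ℤ ℝ).mono ?_
  rintro ξ ⟨P, hP, -, h⟩
  exact ⟨P, hP, h⟩

lemma adm_of {ξ : ℝ} (hξ : ¬ AlgDegLeTwo ξ) {n : ℕ} (hn : n ≠ 0)
    (h : ∃ Y0 : ℝ, ∀ M : ℕ, Y0 ≤ (M : ℝ) → ∃ P : V3, P ≠ 0 ∧ Sm P (2 * M) ∧
      (|(P.a : ℝ) + P.b * ξ + P.c * ξ ^ 2| * (M : ℝ) ^ 2) ^ n * M ≤ 14 ^ n) :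
    2 + 1 / (2 * (n : ℝ)) ∈ admissible ξ := by
  obtain ⟨Y0, hY⟩ := h
  have hn0 : (0 : ℝ) < n := by exact_mod_cast Nat.pos_of_ne_zero hn
  have hpos : 0 < 1 / (2 * (n : ℝ)) := by positivity
  obtain ⟨H₁, hH₁⟩ := Filter.eventually_atTop.mp
    ((tendsto_rpow_atTop hpos).eventually_ge_atTop 896)
  refine ⟨max (max H₁ 4) (4 * Y0), fun H hH => ?_⟩
  have g1 : H₁ ≤ H := (le_max_left _ _).trans ((le_max_left _ _).trans hH)
  have g2 : 4 ≤ H := (le_max_right _ _).trans ((le_max_left _ _).trans hH)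
  have g3 : 4 * Y0 ≤ H := (le_max_right _ _).trans hH
  have hM1 : (⌊H / 2⌋₊ : ℝ) ≤ H / 2 := Nat.floor_le (by linarith)
  have hM2 : H / 4 ≤ (⌊H / 2⌋₊ : ℝ) := by
    have := Nat.lt_floor_add_one (H / 2)
    linarith
  obtain ⟨P, hP, hs, hp⟩ := hY ⌊H / 2⌋₊ (by linarith)
  refine ⟨polyV P, poly_ne hP, poly_deg P, (poly_height hs).trans (by linarith), ?_, ?_⟩
  · rw [abs_pos]
    exact fun h0 => hξ ⟨polyV P, poly_ne hP, poly_deg P, h0⟩
  · rw [poly_aeval]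
    exact main_num n hn _ H _ (abs_nonneg _) g2 hM2 (hH₁ H g1) hp

/-- The set of the real numbers, not algebraic of degree at most two, with uniform exponent
above 2 has positive Hausdorff dimension. -/
theorem main (h : Final) : 0 < dimH {ξ : ℝ | ¬ AlgDegLeTwo ξ ∧ 2 < uniformExponent ξ} := by
  obtain ⟨E, hE, hall⟩ := h
  have hsub : E ⊆ {ξ : ℝ | ¬ AlgDegLeTwo ξ ∧ 2 < uniformExponent ξ} ∪
      {ξ : ℝ | AlgDegLeTwo ξ} := by
    intro ξ hξ
    by_cases ha : AlgDegLeTwo ξ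
    · exact Or.inr ha
    · refine Or.inl ⟨ha, ?_⟩
      have hadm := adm_of ha (n := NN) (by norm_num) (hall ξ hξ)
      have hsup : ((2 + 1 / (2 * ((NN : ℕ) : ℝ)) : ℝ) : EReal) ≤ uniformExponent ξ :=
        le_iSup₂ (f := fun (v : ℝ) (_ : v ∈ admissible ξ) => (v : EReal))
          (2 + 1 / (2 * ((NN : ℕ) : ℝ))) hadm
      refine lt_of_lt_of_le ?_ hsup
      have h2 : (2 : EReal) = ((2 : ℝ) : EReal) := rfl
      rw [h2, EReal.coe_lt_coe_iff]
      have : (0 : ℝ) < 1 / (2 * ((NN : ℕ) : ℝ)) := by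
        have hN : (0 : ℝ) < ((NN : ℕ) : ℝ) := by norm_num
        positivity
      linarith
  have h1 := dimH_mono hsub
  rw [dimH_union, alg_countable.dimH_zero] at h1
  have h2 := hE.trans_le h1
  rcases lt_max_iff.mp h2 with h3 | h3
  · exact h3
  · exact absurd h3 (lt_irrefl _)

end WHP
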