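import Pool.Agent.WHP.Stmts

/-!
# Statements of the second group of modules (note 1592, sections 4.2, 4.4, 4.5, 5, 6)
-/

namespace WHP

/-- M5a (section 4.2): a candidate is a child, `b_z ≥ b^{1.998}`, (S2) for `z`, (S3) for `(y,z)` -/
def CandStep : Prop := ∀ (i : ℕ) (x y z : V3) (b : ℝ), St i x y b → Cand y z b →
  |(det z : ℝ)| ≤ 5 * b ^ 478 →
  ∃ bz : ℝ, Ch y z b bz ∧ B0 ≤ bz ∧ b ^ 1998 ≤ bz ^ 1000 ∧ bz ≤ b ^ 2 ∧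
    1 / 4 + 1 / bz ≤ tt z ∧ tt z ≤ 3 / 4 - 1 / bz ∧
    BA (1 / 12 + 2 / bz) ((z.a : ℝ) ^ 2) (tt z) ∧ cross y z ≠ 0 ∧
    ∀ P : V3, Sm P (bz ^ 400000) → dot P z = 0 → dot P y = 0

/-- the interval of a node -/
def II (z : V3) (bz : ℝ) : Set ℝ := Set.Icc (tt z - 1 / bz ^ 1900000) (tt z + 1 / bz ^ 1900000)

/-- `ξ` has good polynomials for all `M` with `Y ≤ M² ≤ Z` -/
def Served (Y Z ξ : ℝ) : Prop := ∀ M : ℕ, Y ≤ (M : ℝ) ^ 2 → (M : ℝ) ^ 2 ≤ Z →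
  ∃ P : V3, P ≠ 0 ∧ Sm P (2 * M) ∧
    (|(P.a : ℝ) + P.b * ξ + P.c * ξ ^ 2| * (M : ℝ) ^ 2) ^ NN * M ≤ 14 ^ NN

/-- M9a: nested intervals and good polynomials for one child step -/
def ServedStep : Prop := ∀ (i j : ℕ) (x y z : V3) (b bz : ℝ), St i x y b → St j y z bz →
  Ch y z b bz → II z bz ⊆ II y b ∧ b ≤ bz ∧ (y.a : ℝ) + 1 ≤ z.a ∧
    ∀ ξ ∈ II z bz, Served y.a z.a ξ

/-- M9b: the super-step -/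
def Super : Prop := ∀ (x y : V3) (b : ℝ), St 0 x y b → ∃ F : Finset (V3 × V3 × ℝ),
  b ^ 10 ≤ F.card ∧
  (∀ q ∈ F, St 0 q.1 q.2.1 q.2.2 ∧ II q.2.1 q.2.2 ⊆ II y b ∧ (y.a : ℝ) + 1 ≤ q.2.1.a ∧
    (q.2.1.a : ℝ) ≤ (y.a : ℝ) ^ 128 ∧ ∀ ξ ∈ II q.2.1 q.2.2, Served y.a q.2.1.a ξ) ∧
  ∀ q ∈ F, ∀ q' ∈ F, q ≠ q' → ∀ ξ ∈ II q.2.1 q.2.2, ∀ ξ' ∈ II q'.2.1 q'.2.2,
    1 ≤ |ξ - ξ'| * (y.a : ℝ) ^ 256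

/-- M10a: a set of positive dimension of numbers with good polynomials -/
def Final : Prop := ∃ E : Set ℝ, 0 < dimH E ∧ ∀ ξ ∈ E, ∃ Y0 : ℝ, ∀ M : ℕ, Y0 ≤ (M : ℝ) →
  ∃ P : V3, P ≠ 0 ∧ Sm P (2 * M) ∧
    (|(P.a : ℝ) + P.b * ξ + P.c * ξ ^ 2| * (M : ℝ) ^ 2) ^ NN * M ≤ 14 ^ NN

end WHP
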