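import Pool.Agent.WHP.Basic
import Pool.Agent.WHP.Stmts2

/-!
# Module WHP_OneStep: from candidates to states (note 1592, sections 4.4 and 4.5, MP_c538e3_nt)
-/

namespace WHP

namespace OS

/-- comparison of powers of `b` and of `bz` through the 1000th powers -/
theorem cmp_pow {b bz : ℝ} (hb : 1000000 ≤ b) (hz : b ^ 1998 ≤ bz ^ 1000) (hz0 : 0 ≤ bz)
    {c : ℝ} (hc0 : 0 ≤ c) (hc : c ≤ b) {p q : ℕ} (hpq : 1000 * p + 1000 ≤ 1998 * q) :
    c * b ^ p ≤ bz ^ q := by
  have hb1 : (1 : ℝ) ≤ b := by linarith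
  have hb0 : (0 : ℝ) ≤ b := by linarith
  have h : (c * b ^ p) ^ 1000 ≤ (bz ^ q) ^ 1000 := by
    calc (c * b ^ p) ^ 1000 ≤ (b * b ^ p) ^ 1000 := by
          apply pow_le_pow_left₀ (mul_nonneg hc0 (by positivity))
          exact mul_le_mul_of_nonneg_right hc (by positivity)
      _ = b ^ ((p + 1) * 1000) := by rw [← pow_succ', ← pow_mul]
      _ ≤ b ^ (1998 * q) := pow_le_pow_right₀ hb1 (by omega)
      _ = (b ^ 1998) ^ q := by rw [pow_mul]
      _ ≤ (bz ^ 1000) ^ q := pow_le_pow_left₀ (by positivity) hz q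
      _ = (bz ^ q) ^ 1000 := by rw [← pow_mul, ← pow_mul, mul_comm]
  exact (pow_le_pow_iff_left₀ (mul_nonneg hc0 (by positivity)) (by positivity)
    (by norm_num)).1 h

theorem sm_mono {P : V3} {R R' : ℝ} (h : Sm P R) (hR : R ≤ R') : Sm P R' :=
  ⟨h.1.trans hR, h.2.1.trans hR, h.2.2.trans hR⟩

/-- Cramer's rule: a vector orthogonal to three independent vectors is zero -/
theorem cramer {x y z P : V3} (h : dot (cross x y) z ≠ 0) (hx : dot P x = 0) (hy : dot P y = 0)
    (hz : dot P z = 0) : P = 0 := by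
  simp only [dot, cross] at h hx hy hz
  have ha : (x.b * y.c - x.c * y.b) * z.a + (x.c * y.a - x.a * y.c) * z.b +
      (x.a * y.b - x.b * y.a) * z.c ≠ 0 := h
  apply V3.ext
  · rw [zero_a]
    apply mul_left_cancel₀ ha
    linear_combination (y.b * z.c - y.c * z.b) * hx + (z.b * x.c - z.c * x.b) * hy +
      (x.b * y.c - x.c * y.b) * hz
  · rw [zero_b]
    apply mul_left_cancel₀ ha
    linear_combination (y.c * z.a - y.a * z.c) * hx + (z.c * x.a - z.a * x.c) * hy +
      (x.c * y.a - x.a * y.c) * hz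
  · rw [zero_c]
    apply mul_left_cancel₀ ha
    linear_combination (y.a * z.b - y.b * z.a) * hx + (z.a * x.b - z.b * x.a) * hy +
      (x.a * y.b - x.b * y.a) * hz

/-- `1 ≤ |det y|` as a real number -/
theorem one_le_d {y : V3} (h : det y ≠ 0) : (1 : ℝ) ≤ |(det y : ℝ)| := by
  have h : (1 : ℤ) ≤ |det y| := Int.one_le_abs h
  exact_mod_cast h

/-- the coefficients of `v × w` for the family: not orthogonal to `y` -/
theorem dot_cross_ne {i : ℕ} {x y v w : V3} {b : ℝ} (hS : St i x y b) (hvw : cross v w ≠ 0)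
    (hA : |(be (tt y) v) * (ga (tt y) w) - (ga (tt y) v) * (be (tt y) w)| * (y.a : ℝ) ^ 2 ≤
      2 * b ^ 279 * |(det y : ℝ)|)
    (hB : |(v.a : ℝ) * ga (tt y) w - ga (tt y) v * w.a| ≤ 2 * b ^ 478) :
    dot (cross v w) y ≠ 0 := by
  intro h0
  have hb0 : (1000000 : ℝ) ≤ b := hS.hb0
  have hb1 : (1 : ℝ) ≤ b := by linarith
  have hbpos : (0 : ℝ) < b := by linarith
  set Y : ℝ := (y.a : ℝ) with hY
  have hYb : b ^ 1000000 = Y := hS.hby
  have hY1 : 1 ≤ Y := by rw [← hYb]; exact one_le_pow₀ hb1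
  have hYpos : 0 < Y := by linarith
  set d : ℝ := |(det y : ℝ)| with hd
  have hd1 : 1 ≤ d := one_le_d hS.hdet
  have hdpos : 0 < d := by linarith
  have hd240 : d ≤ b ^ 240 := hS.hd.trans (pow_le_pow_right₀ hb1 (Nat.sub_le _ _))
  set t : ℝ := tt y with ht
  have hbinv : 0 < 1 / b := by positivity
  have ht0 : 0 ≤ t := by have := hS.ht1; linarith
  have ht1 : t ≤ 1 := by have := hS.ht2; linarith
  set A : ℝ := be t v * ga t w - ga t v * be t w with hAdef
  set C : ℝ := ((cross v w).c : ℝ) with hC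
  have hval := cross_val t v w
  have hder := cross_der t v w
  rw [← hAdef, ← hC] at hval
  rw [← hC] at hder
  have hdot := dot_eq t (cross v w) y
  rw [h0, ← hC, hval, ht, be_self (by rw [← hY]; exact hYpos.ne'),
    ga_self (by rw [← hY]; exact hYpos.ne'), ← hY] at hdot
  push_cast at hdot
  -- `Y² A = - C det y`
  have h1 : A * Y ^ 2 = -(C * (det y : ℝ)) := by
    have h2 : A * Y + C * ((det y : ℝ) / Y) = 0 := by linarith
    field_simp at h2
    linarith
  have h2 : |A| * Y ^ 2 = |C| * d := by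
    rw [hd, ← abs_mul, ← abs_neg (C * (det y : ℝ)), ← h1, abs_mul, abs_of_nonneg
      (by positivity : (0 : ℝ) ≤ Y ^ 2)]
  have hC1 : |C| ≤ 2 * b ^ 279 := by
    have h3 : |C| * d ≤ 2 * b ^ 279 * d := by rw [← h2]; exact hA
    exact le_of_mul_le_mul_right h3 hdpos
  have hA1 : |A| ≤ 1 := by
    have h3 : |A| * Y ^ 2 ≤ Y ^ 2 := by
      calc |A| * Y ^ 2 ≤ 2 * b ^ 279 * d := hA
        _ ≤ b * b ^ 279 * b ^ 240 := by
            apply mul_le_mul _ hd240 hdpos.le (by positivity)
            apply mul_le_mul_of_nonneg_right _ (by positivity)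
            linarith
        _ = b ^ 520 := by ring
        _ ≤ b ^ 1000000 := pow_le_pow_right₀ hb1 (by norm_num)
        _ = Y := hYb
        _ ≤ Y ^ 2 := by nlinarith
    have h4 : |A| * Y ^ 2 ≤ 1 * Y ^ 2 := by rw [one_mul]; exact h3
    exact le_of_mul_le_mul_right h4 (by positivity)
  have h279 : b ^ 279 ≤ b ^ 478 := pow_le_pow_right₀ hb1 (by norm_num)
  have h478 : 1 ≤ b ^ 478 := one_le_pow₀ hb1
  have hb4 : 4 * b ^ 279 ≤ b ^ 478 := by
    calc 4 * b ^ 279 ≤ b * b ^ 279 := by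
          apply mul_le_mul_of_nonneg_right _ (by positivity)
          linarith
      _ = b ^ 280 := by ring
      _ ≤ b ^ 478 := pow_le_pow_right₀ hb1 (by norm_num)
  have hPb : |((cross v w).b : ℝ)| ≤ 3 * b ^ 478 := by
    have e : ((cross v w).b : ℝ) = -(v.a * ga t w - ga t v * w.a) - 2 * C * t := by linarith
    rw [e]
    calc |-(v.a * ga t w - ga t v * w.a) - 2 * C * t|
        ≤ |-(v.a * ga t w - ga t v * w.a)| + |2 * C * t| := abs_sub _ _
      _ ≤ 2 * b ^ 478 + 2 * (2 * b ^ 279) * 1 := by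
          rw [abs_neg, abs_mul, abs_mul, abs_of_nonneg ht0, abs_two]
          apply add_le_add hB
          apply mul_le_mul _ ht1 ht0 (by positivity)
          apply mul_le_mul_of_nonneg_left hC1 (by norm_num)
      _ ≤ 3 * b ^ 478 := by linarith
  have hPa : |((cross v w).a : ℝ)| ≤ 6 * b ^ 478 := by
    have e : ((cross v w).a : ℝ) = A - (cross v w).b * t - C * t ^ 2 := by linarith
    rw [e]
    calc |A - (cross v w).b * t - C * t ^ 2|
        ≤ |A| + |((cross v w).b : ℝ) * t| + |C * t ^ 2| :=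
          (abs_sub _ _).trans (add_le_add (abs_sub _ _) le_rfl)
      _ ≤ 1 + 3 * b ^ 478 * 1 + 2 * b ^ 279 * 1 := by
          rw [abs_mul, abs_mul, abs_of_nonneg ht0, abs_of_nonneg (by positivity : 0 ≤ t ^ 2)]
          apply add_le_add (add_le_add hA1 _)
          · apply mul_le_mul hC1 (by nlinarith) (by positivity) (by positivity)
          · apply mul_le_mul hPb ht1 ht0 (by positivity)
      _ ≤ 6 * b ^ 478 := by linarith
  have hPc : |((cross v w).c : ℝ)| ≤ 6 * b ^ 478 := by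
    calc |((cross v w).c : ℝ)| ≤ 2 * b ^ 279 := hC1
      _ ≤ 6 * b ^ 478 := by linarith
  have hbig : 6 * b ^ 478 ≤ b ^ (200000 / 2 ^ i) := by
    calc 6 * b ^ 478 ≤ b * b ^ 478 := by
          apply mul_le_mul_of_nonneg_right _ (by positivity)
          linarith
      _ = b ^ 479 := by ring
      _ ≤ b ^ (200000 / 2 ^ i) := by
          apply pow_le_pow_right₀ hb1
          rw [Nat.le_div_iff_mul_le (by positivity)]
          have h2i : 2 ^ i ≤ 2 ^ 6 := Nat.pow_le_pow_right (by norm_num) hS.hi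
          calc 479 * 2 ^ i ≤ 479 * 2 ^ 6 := Nat.mul_le_mul_left _ h2i
            _ ≤ 200000 := by norm_num
  exact hvw (hS.hS4 _ ⟨hPa.trans hbig, (hPb.trans (by linarith)).trans hbig, hPc.trans hbig⟩ h0)

/-- the third coefficient of `v × w` for the family is large -/
theorem cross_c_big {i : ℕ} {x y v w : V3} {b : ℝ} (hS : St i x y b)
    (hA : |(be (tt y) v) * (ga (tt y) w) - (ga (tt y) v) * (be (tt y) w)| * (y.a : ℝ) ^ 2 ≤
      2 * b ^ 279 * |(det y : ℝ)|)
    (h0 : dot (cross v w) y ≠ 0) :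
    (y.a : ℝ) ≤ 2 * |(det y : ℝ)| * |((cross v w).c : ℝ)| := by
  have hb0 : (1000000 : ℝ) ≤ b := hS.hb0
  have hb1 : (1 : ℝ) ≤ b := by linarith
  have hbpos : (0 : ℝ) < b := by linarith
  set Y : ℝ := (y.a : ℝ) with hY
  have hYb : b ^ 1000000 = Y := hS.hby
  have hY1 : 1 ≤ Y := by rw [← hYb]; exact one_le_pow₀ hb1
  have hYpos : 0 < Y := by linarith
  set d : ℝ := |(det y : ℝ)| with hd
  have hd1 : 1 ≤ d := one_le_d hS.hdet
  have hdpos : 0 < d := by linarith
  have hd240 : d ≤ b ^ 240 := hS.hd.trans (pow_le_pow_right₀ hb1 (Nat.sub_le _ _))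
  set t : ℝ := tt y with ht
  set A : ℝ := be t v * ga t w - ga t v * be t w with hAdef
  set C : ℝ := ((cross v w).c : ℝ) with hC
  have hval := cross_val t v w
  rw [← hAdef, ← hC] at hval
  have hdot := dot_eq t (cross v w) y
  rw [← hC, hval, ht, be_self (by rw [← hY]; exact hYpos.ne'),
    ga_self (by rw [← hY]; exact hYpos.ne'), ← hY] at hdot
  have h1 : (1 : ℝ) ≤ |(dot (cross v w) y : ℝ)| := by
    have h : (1 : ℤ) ≤ |dot (cross v w) y| := Int.one_le_abs h0
    exact_mod_cast h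
  have h2 : |A| * Y ≤ 1 / 2 := by
    have h3 : |A| * Y * Y ≤ 1 / 2 * Y := by
      calc |A| * Y * Y = |A| * Y ^ 2 := by ring
        _ ≤ 2 * b ^ 279 * d := hA
        _ ≤ 2 * b ^ 279 * b ^ 240 := mul_le_mul_of_nonneg_left hd240 (by positivity)
        _ = 1 / 2 * (4 * b ^ 519) := by ring
        _ ≤ 1 / 2 * (b * b ^ 519) := by
            apply mul_le_mul_of_nonneg_left _ (by norm_num)
            apply mul_le_mul_of_nonneg_right _ (by positivity)
            linarith
        _ = 1 / 2 * b ^ 520 := by ring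
        _ ≤ 1 / 2 * b ^ 1000000 :=
            mul_le_mul_of_nonneg_left (pow_le_pow_right₀ hb1 (by norm_num)) (by norm_num)
        _ = 1 / 2 * Y := by rw [hYb]
    exact le_of_mul_le_mul_right h3 hYpos
  have h3 : |(dot (cross v w) y : ℝ)| ≤ |A| * Y + |C| * (d / Y) := by
    rw [hdot]
    have e : A * Y + ((cross v w).b + 2 * C * t) * 0 + C * ((det y : ℝ) / Y) =
        A * Y + C * ((det y : ℝ) / Y) := by ring
    rw [e]
    refine (abs_add_le _ _).trans ?_
    rw [abs_mul, abs_mul, abs_div, abs_of_pos hYpos]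
  have h4 : 1 / 2 ≤ |C| * (d / Y) := by linarith
  have h5 : |C| * (d / Y) = (d * |C|) / Y := by ring
  rw [h5, le_div_iff₀ hYpos] at h4
  linarith

/-- separation of two members of the family -/
theorem separated {y v w : V3} {b : ℝ} {l l' : ℤ} (hb0 : (1000000 : ℝ) ≤ b)
    (hY : 0 < (y.a : ℝ)) (hdy : |(det y : ℝ)| ≤ b ^ 240) (hd1 : 1 ≤ |(det y : ℝ)|)
    (hC : (y.a : ℝ) ≤ 2 * |(det y : ℝ)| * |((cross v w).c : ℝ)|) (hl : l ≠ l')
    (hz : 0 < (lin l v 1 w).a) (hz' : 0 < (lin l' v 1 w).a)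
    (hzY : ((lin l v 1 w).a : ℝ) ≤ (y.a : ℝ) ^ 2) (hzY' : ((lin l' v 1 w).a : ℝ) ≤ (y.a : ℝ) ^ 2) :
    1 ≤ |tt (lin l v 1 w) - tt (lin l' v 1 w)| * (y.a : ℝ) ^ 3 * b ^ 1000 := by
  have hb1 : (1 : ℝ) ≤ b := by linarith
  set Y : ℝ := (y.a : ℝ) with hYdef
  set d : ℝ := |(det y : ℝ)| with hd
  set C : ℝ := ((cross v w).c : ℝ) with hCdef
  have hzr : (0 : ℝ) < ((lin l v 1 w).a : ℝ) := by exact_mod_cast hz
  have hzr' : (0 : ℝ) < ((lin l' v 1 w).a : ℝ) := by exact_mod_cast hz'
  have e : tt (lin l v 1 w) - tt (lin l' v 1 w) =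
      ((l' - l : ℤ) : ℝ) * C / (((lin l v 1 w).a : ℝ) * ((lin l' v 1 w).a : ℝ)) := by
    unfold tt
    rw [div_sub_div _ _ hzr.ne' hzr'.ne']
    congr 1
    rw [hCdef]
    simp only [lin, cross]
    push_cast
    ring
  have hll : (1 : ℝ) ≤ |((l' - l : ℤ) : ℝ)| := by
    have h : (1 : ℤ) ≤ |l' - l| := Int.one_le_abs (sub_ne_zero.2 hl.symm)
    exact_mod_cast h
  have hlow : |C| / (Y ^ 2 * Y ^ 2) ≤ |tt (lin l v 1 w) - tt (lin l' v 1 w)| := by
    rw [e, abs_div, abs_mul, abs_of_pos (mul_pos hzr hzr')]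
    apply div_le_div₀ (by positivity)
    · calc |C| = 1 * |C| := (one_mul _).symm
        _ ≤ _ := mul_le_mul_of_nonneg_right hll (abs_nonneg _)
    · exact mul_pos hzr hzr'
    · exact mul_le_mul hzY hzY' hzr'.le (by positivity)
  have h2d : 2 * d ≤ b ^ 1000 := by
    calc 2 * d ≤ b * b ^ 240 := by
          apply mul_le_mul (by linarith) hdy (by linarith) (by linarith)
      _ = b ^ 241 := by ring
      _ ≤ b ^ 1000 := pow_le_pow_right₀ hb1 (by norm_num)
  calc (1 : ℝ) ≤ (2 * d * |C|) / Y := by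
        rw [le_div_iff₀ hY]; linarith
    _ ≤ (b ^ 1000 * |C|) / Y := by
        apply div_le_div_of_nonneg_right _ hY.le
        exact mul_le_mul_of_nonneg_right h2d (abs_nonneg _)
    _ = |C| / (Y ^ 2 * Y ^ 2) * Y ^ 3 * b ^ 1000 := by
        field_simp
    _ ≤ _ := by
        apply mul_le_mul_of_nonneg_right _ (by positivity)
        exact mul_le_mul_of_nonneg_right hlow (by positivity)

end OS

open OS

theorem oneStep (hG : GeoStep) (hA : CandStep) : OneStep := by
  intro i x y b hS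
  have hb0 : (1000000 : ℝ) ≤ b := hS.hb0
  have hb1 : (1 : ℝ) ≤ b := by linarith
  have hbpos : (0 : ℝ) < b := by linarith
  have hYb : b ^ 1000000 = (y.a : ℝ) := hS.hby
  have hY1 : 1 ≤ (y.a : ℝ) := by rw [← hYb]; exact one_le_pow₀ hb1
  have hYpos : 0 < (y.a : ℝ) := by linarith
  have hd1 : 1 ≤ |(det y : ℝ)| := one_le_d hS.hdet
  have hd240 : |(det y : ℝ)| ≤ b ^ 240 := hS.hd.trans (pow_le_pow_right₀ hb1 (Nat.sub_le _ _))
  rcases hG i x y b hS with ⟨z, hC, hi6, hdz⟩ | ⟨v, w, l0, hvw, hAA, hBB, hfam⟩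
  · -- one candidate
    left
    -- the bound for the determinant
    have hdz' : |(det z : ℝ)| ≤ 17 * b ^ (406 - 72 * i) ∨ (i ≤ 1 ∧ |(det z : ℝ)| ≤ 200 * b ^ 239) := by
      rcases hdz with h | h
      · left
        have h1 : |(det z : ℝ)| * b ^ 74 ≤ 17 * b ^ (406 - 72 * i) * b ^ 74 := by
          calc |(det z : ℝ)| * b ^ 74 ≤ 17 * (det y : ℝ) ^ 2 := h
            _ = 17 * |(det y : ℝ)| ^ 2 := by rw [sq_abs]
            _ ≤ 17 * (b ^ (240 - 36 * i)) ^ 2 := by
                apply mul_le_mul_of_nonneg_left _ (by norm_num)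
                exact pow_le_pow_left₀ (abs_nonneg _) hS.hd 2
            _ = 17 * b ^ (406 - 72 * i) * b ^ 74 := by
                rw [← pow_mul, mul_assoc, ← pow_add]
                congr 2
                omega
        exact le_of_mul_le_mul_right h1 (by positivity)
      · exact Or.inr h
    have hdz5 : |(det z : ℝ)| ≤ 5 * b ^ 478 := by
      rcases hdz' with h | ⟨-, h⟩
      · calc |(det z : ℝ)| ≤ 17 * b ^ (406 - 72 * i) := h
          _ ≤ b * b ^ 477 := by
              apply mul_le_mul (by linarith) _ (by positivity) hbpos.le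
              exact pow_le_pow_right₀ hb1 (by omega)
          _ = b ^ 478 := by ring
          _ ≤ 5 * b ^ 478 := by nlinarith [pow_pos hbpos 478]
      · calc |(det z : ℝ)| ≤ 200 * b ^ 239 := h
          _ ≤ b * b ^ 477 := by
              apply mul_le_mul (by linarith) _ (by positivity) hbpos.le
              exact pow_le_pow_right₀ hb1 (by norm_num)
          _ = b ^ 478 := by ring
          _ ≤ 5 * b ^ 478 := by nlinarith [pow_pos hbpos 478]
    obtain ⟨bz, hCh, hbz0, hbz1, hbz2, ht1, ht2, hBA, hyz, hS3⟩ := hA i x y z b hS hC hdz5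
    have hbz0' : (1000000 : ℝ) ≤ bz := hbz0
    have hbzn : (0 : ℝ) ≤ bz := by linarith
    have hbzp : (1 : ℝ) ≤ bz := by linarith
    refine ⟨z, bz, ⟨by omega, hbz0, hCh.hbz, hC.hdet, ?_, ht1, ht2, hBA, hyz, hS3, ?_⟩, hCh⟩
    · rcases hdz' with h | ⟨hi1, h⟩
      · exact h.trans (cmp_pow hb0 hbz1 hbzn (by norm_num) (by linarith) (by omega))
      · exact h.trans (cmp_pow hb0 hbz1 hbzn (by norm_num) (by linarith) (by omega))
    · intro P hP hPz
      have hle : 200000 / 2 ^ (i + 1) ≤ 400000 :=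
        (Nat.div_le_self _ _).trans (by norm_num)
      have hPy : dot P y = 0 :=
        hS3 P (sm_mono hP (pow_le_pow_right₀ hbzp hle)) hPz
      apply hS.hS4 P (sm_mono hP _) hPy
      calc bz ^ (200000 / 2 ^ (i + 1)) ≤ (b ^ 2) ^ (200000 / 2 ^ (i + 1)) :=
            pow_le_pow_left₀ hbzn hbz2 _
        _ = b ^ (2 * (200000 / 2 ^ (i + 1))) := by rw [← pow_mul]
        _ ≤ b ^ (200000 / 2 ^ i) := by
            apply pow_le_pow_right₀ hb1
            rw [pow_succ, ← Nat.div_div_eq_div_mul]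
            omega
  · -- the family
    right
    have hdotPy : dot (cross v w) y ≠ 0 := dot_cross_ne hS hvw hAA hBB
    have hCbig := cross_c_big hS hAA hdotPy
    have hv0 : v ≠ 0 := by
      rintro rfl
      apply hvw
      ext <;> simp [cross, zero_a, zero_b, zero_c]
    -- injectivity
    have hinj : ∀ l l' : ℤ, lin l v 1 w = lin l' v 1 w → l = l' := by
      intro l l' h
      by_contra hne
      apply hv0
      have ha := congrArg V3.a h
      have hb := congrArg V3.b h
      have hc := congrArg V3.c h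
      simp only [lin] at ha hb hc
      have hne' : l - l' ≠ 0 := sub_ne_zero.2 hne
      apply V3.ext
      · rw [zero_a]; apply mul_left_cancel₀ hne'; linear_combination ha
      · rw [zero_b]; apply mul_left_cancel₀ hne'; linear_combination hb
      · rw [zero_c]; apply mul_left_cancel₀ hne'; linear_combination hc
    -- at most one bad index
    have hbad : ∀ l l' : ℤ, dot (cross x y) (lin l v 1 w) = 0 →
        dot (cross x y) (lin l' v 1 w) = 0 → l = l' := by
      intro l l' h h'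
      by_contra hne
      have hne' : l - l' ≠ 0 := sub_ne_zero.2 hne
      rw [dot_lin] at h h'
      have h1 : dot (cross x y) v = 0 := by
        apply mul_left_cancel₀ hne'
        linear_combination h - h'
      have h2 : dot (cross x y) w = 0 := by
        rw [h1] at h
        linarith
      have h3 : dot (cross x y) y = 0 := dot_cross_right x y
      exact hS.hxy (cramer hdotPy h1 h2 h3)
    set m : ℕ := ⌊b ^ 11 / 4⌋₊ with hm
    have hb11 : (0 : ℝ) ≤ b ^ 11 / 4 := by positivity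
    have hm1 : (m : ℝ) ≤ b ^ 11 / 4 := Nat.floor_le hb11
    have hm2 : b ^ 11 / 4 < (m : ℝ) + 1 := Nat.lt_floor_add_one _
    have hrange : ∀ l ∈ Finset.Icc l0 (l0 + m), Cand y (lin l v 1 w) b ∧
        |(det (lin l v 1 w) : ℝ)| ≤ 5 * b ^ 478 := by
      intro l hl
      rw [Finset.mem_Icc] at hl
      apply hfam l hl.1
      have : (l : ℝ) ≤ ((l0 + m : ℤ) : ℝ) := by exact_mod_cast hl.2
      push_cast at this
      linarith
    classical
    set G : Finset ℤ := (Finset.Icc l0 (l0 + m)).filter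
      (fun l => dot (cross x y) (lin l v 1 w) ≠ 0) with hGdef
    set Bd : Finset ℤ := (Finset.Icc l0 (l0 + m)).filter
      (fun l => ¬ dot (cross x y) (lin l v 1 w) ≠ 0) with hBd
    have hcard : G.card + Bd.card = m + 1 := by
      rw [hGdef, hBd, Finset.card_filter_add_card_filter_not, Int.card_Icc]
      omega
    have hBd1 : Bd.card ≤ 1 := by
      rw [Finset.card_le_one]
      intro l hl l' hl'
      rw [hBd, Finset.mem_filter, not_not] at hl hl'
      exact hbad l l' hl.2 hl'.2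
    have hGcard : b ^ 10 ≤ (G.card : ℝ) := by
      have h1 : (m : ℝ) ≤ G.card := by
        have : m ≤ G.card := by omega
        exact_mod_cast this
      have h2 : b ^ 11 = b * b ^ 10 := by ring
      have h3 : 1 ≤ b ^ 10 := one_le_pow₀ hb1
      have h4 : 1000000 * b ^ 10 ≤ b * b ^ 10 :=
        mul_le_mul_of_nonneg_right hb0 (by positivity)
      linarith
    refine ⟨G.image (fun l => lin l v 1 w), ?_, ?_, ?_⟩
    · rw [Finset.card_image_of_injective _ (fun l l' h => hinj l l' h)]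
      exact hGcard
    · intro z hz
      rw [Finset.mem_image] at hz
      obtain ⟨l, hl, rfl⟩ := hz
      rw [hGdef, Finset.mem_filter] at hl
      obtain ⟨hC, hd5⟩ := hrange l hl.1
      obtain ⟨bz, hCh, hbz0, hbz1, hbz2, ht1, ht2, hBA, hyz, hS3⟩ := hA i x y _ b hS hC hd5
      have hbz0' : (1000000 : ℝ) ≤ bz := hbz0
      have hbzn : (0 : ℝ) ≤ bz := by linarith
      have hbzp : (1 : ℝ) ≤ bz := by linarith
      refine ⟨bz, ⟨by norm_num, hbz0, hCh.hbz, hC.hdet, ?_, ht1, ht2, hBA, hyz, hS3, ?_⟩, hCh⟩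
      · exact hd5.trans (cmp_pow hb0 hbz1 hbzn (by norm_num) (by linarith) (by norm_num))
      · intro P hP hPz
        have hle : 200000 / 2 ^ 0 ≤ 400000 := by norm_num
        have hPy : dot P y = 0 :=
          hS3 P (sm_mono hP (pow_le_pow_right₀ hbzp hle)) hPz
        have hPx : dot P x = 0 := by
          apply hS.hS3 P (sm_mono hP _) hPy
          calc bz ^ (200000 / 2 ^ 0) ≤ (b ^ 2) ^ (200000 / 2 ^ 0) :=
                pow_le_pow_left₀ hbzn hbz2 _
            _ = b ^ 400000 := by rw [← pow_mul]; norm_num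
        exact cramer hl.2 hPx hPy hPz
    · intro z hz z' hz' hne
      rw [Finset.mem_image] at hz hz'
      obtain ⟨l, hl, rfl⟩ := hz
      obtain ⟨l', hl', rfl⟩ := hz'
      rw [hGdef, Finset.mem_filter] at hl hl'
      obtain ⟨hC, -⟩ := hrange l hl.1
      obtain ⟨hC', -⟩ := hrange l' hl'.1
      have hle : ∀ z : V3, Cand y z b → (z.a : ℝ) ≤ (y.a : ℝ) ^ 2 := by
        intro z hz
        have hzp : (0 : ℝ) < z.a := by exact_mod_cast hz.hpos
        have h1 : 1 ≤ b ^ 2 * (det y : ℝ) ^ 2 := by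
          have h2 : 1 ≤ b ^ 2 := one_le_pow₀ hb1
          have h3 : 1 ≤ (det y : ℝ) ^ 2 := by
            rw [← sq_abs]; exact one_le_pow₀ hd1
          nlinarith
        calc (z.a : ℝ) = 1 * z.a := (one_mul _).symm
          _ ≤ b ^ 2 * (det y : ℝ) ^ 2 * z.a := mul_le_mul_of_nonneg_right h1 hzp.le
          _ ≤ _ := hz.hrange
      exact separated hb0 hYpos hd240 hd1 hCbig (fun h => hne (by rw [h])) hC.hpos hC'.hpos
        (hle _ hC) (hle _ hC')

end WHP
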