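import Pool.Agent.WHP.Stmts

/-!
# The initial state (section 7 of note 1592, module WHP_Start of MP_c538e3_nt)

With `r = F_n`, `s = F_{n+1}` (consecutive Fibonacci numbers, `s² - sr - r² = ±1`) put
`y = (r²+2rs+3s², s²+3rs, s²+2r²)`; then `det y = 2` and `y₀ - y₁ - y₂ = ±1`.
All lower bounds come from the integral norm form `A² - AB - B²`, which is nonzero for
`(A,B) ≠ (0,0)`.
-/

namespace WHP

namespace StartAux

/-- `F_{n+1}² - F_{n+1}F_n - F_n² = (-1)^n` -/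
lemma fibG (n : ℕ) :
    ((Nat.fib (n + 1) : ℤ)) ^ 2 - Nat.fib (n + 1) * Nat.fib n - (Nat.fib n : ℤ) ^ 2
      = (-1) ^ n := by
  induction n with
  | zero => simp
  | succ k ih =>
    have h2 : ((Nat.fib (k + 1 + 1) : ℕ) : ℤ) = Nat.fib k + Nat.fib (k + 1) := by
      rw [Nat.fib_add_two]; push_cast; ring
    rw [h2, pow_succ (-1 : ℤ) k, ← ih]
    ring

/-- the norm form of `ℤ[τ]` is anisotropic -/
lemma norm_ne (A B : ℤ) (h : A ≠ 0 ∨ B ≠ 0) : A ^ 2 - A * B - B ^ 2 ≠ 0 := by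
  intro h0
  by_cases hB : B = 0
  · subst hB
    have hA : A ^ 2 = 0 := by linarith
    have : A = 0 := by simpa using hA
    rcases h with h | h
    · exact h this
    · exact h rfl
  · have hBq : (B : ℚ) ≠ 0 := by exact_mod_cast hB
    have h1 : ((2 * A - B : ℤ) : ℚ) ^ 2 = 5 * (B : ℚ) ^ 2 := by
      have : (2 * A - B) ^ 2 = 5 * B ^ 2 := by linarith
      exact_mod_cast this
    have h2 : IsSquare ((5 : ℕ) : ℚ) := by
      refine ⟨((2 * A - B : ℤ) : ℚ) / B, ?_⟩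
      field_simp
      rw [h1]
      push_cast
      ring
    rw [Rat.isSquare_natCast_iff] at h2
    obtain ⟨k, hk⟩ := h2
    have hk2 : k < 3 := by nlinarith
    interval_cases k <;> omega

/-- the main inequality -/
lemma key (a b ε A B e : ℤ) (ha : 0 < a) (hb : 0 ≤ b) (hε : |ε| = 1)
    (hN : a ^ 2 - a * b - b ^ 2 = 2 + ε * a) (he : A * a + B * b = e)
    (h : A ≠ 0 ∨ B ≠ 0) :
    a ^ 2 ≤ e ^ 2 + |e| * |B| * (2 * b + a) + B ^ 2 * (a + 2) := by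
  have h1 : 1 ≤ |A ^ 2 - A * B - B ^ 2| := Int.one_le_abs (norm_ne A B h)
  have h2 : a ^ 2 * (A ^ 2 - A * B - B ^ 2)
      = e ^ 2 - e * B * (2 * b + a) - B ^ 2 * (2 + ε * a) := by
    rw [← he, ← hN]; ring
  have h3 : a ^ 2 ≤ |a ^ 2 * (A ^ 2 - A * B - B ^ 2)| := by
    rw [abs_mul, abs_of_nonneg (sq_nonneg a)]
    nlinarith [sq_nonneg a]
  rw [h2] at h3
  have h4 : |e ^ 2 - e * B * (2 * b + a) - B ^ 2 * (2 + ε * a)|
      ≤ |e ^ 2| + |e * B * (2 * b + a)| + |B ^ 2 * (2 + ε * a)| :=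
    (abs_sub _ _).trans (add_le_add_left (abs_sub _ _) _)
  have h5 : |e ^ 2| = e ^ 2 := abs_of_nonneg (sq_nonneg e)
  have h6 : |e * B * (2 * b + a)| = |e| * |B| * (2 * b + a) := by
    rw [abs_mul, abs_mul, abs_of_nonneg (by linarith : 0 ≤ 2 * b + a)]
  have h7 : |B ^ 2 * (2 + ε * a)| ≤ B ^ 2 * (a + 2) := by
    rw [abs_mul, abs_of_nonneg (sq_nonneg B)]
    refine mul_le_mul_of_nonneg_left ?_ (sq_nonneg B)
    refine (abs_add_le _ _).trans ?_
    rw [abs_mul, hε, abs_of_pos ha]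
    norm_num
    linarith
  linarith

/-- the facts on the node which are used -/
structure Nd (y : V3) (ε : ℤ) : Prop where
  ha : 0 < y.a
  hb : 0 < y.b
  hba : y.b ≤ y.a
  hc : y.c = y.a - y.b - ε
  hε : |ε| = 1
  hN : y.a ^ 2 - y.a * y.b - y.b ^ 2 = 2 + ε * y.a
  hdet : det y = 2

/-- the nodes -/
def nd (n : ℕ) : V3 :=
  ⟨(Nat.fib n : ℤ) ^ 2 + 2 * Nat.fib n * Nat.fib (n + 1) + 3 * (Nat.fib (n + 1) : ℤ) ^ 2,
   (Nat.fib (n + 1) : ℤ) ^ 2 + 3 * Nat.fib n * Nat.fib (n + 1),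
   (Nat.fib (n + 1) : ℤ) ^ 2 + 2 * (Nat.fib n : ℤ) ^ 2⟩

lemma nd_Nd (n : ℕ) : Nd (nd n) ((-1) ^ n) := by
  have hG := fibG n
  have hr : (0 : ℤ) ≤ Nat.fib n := by positivity
  have hs : (1 : ℤ) ≤ Nat.fib (n + 1) := by
    have : 0 < Nat.fib (n + 1) := Nat.fib_pos.2 (Nat.succ_pos n)
    exact_mod_cast this
  have hε2 : (((-1 : ℤ)) ^ n) ^ 2 = 1 := by
    rw [← pow_mul, mul_comm, pow_mul]; norm_num
  have hεa : |((-1 : ℤ)) ^ n| = 1 := by rw [abs_pow]; norm_num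
  generalize ((-1 : ℤ)) ^ n = ε at *
  have hnda : (nd n).a = (Nat.fib n : ℤ) ^ 2 + 2 * Nat.fib n * Nat.fib (n + 1)
    + 3 * (Nat.fib (n + 1) : ℤ) ^ 2 := rfl
  have hndb : (nd n).b = (Nat.fib (n + 1) : ℤ) ^ 2 + 3 * Nat.fib n * Nat.fib (n + 1) := rfl
  have hndc : (nd n).c = (Nat.fib (n + 1) : ℤ) ^ 2 + 2 * (Nat.fib n : ℤ) ^ 2 := rfl
  generalize (Nat.fib n : ℤ) = r at *
  generalize (Nat.fib (n + 1) : ℤ) = s at *
  have hdet : det (nd n) = 2 := by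
    unfold det
    rw [hnda, hndb, hndc]
    have : (r ^ 2 + 2 * r * s + 3 * s ^ 2) * (s ^ 2 + 2 * r ^ 2) - (s ^ 2 + 3 * r * s) ^ 2
      = 2 * (s ^ 2 - s * r - r ^ 2) ^ 2 := by ring
    rw [this, hG, hε2]
    norm_num
  have hc : (nd n).c = (nd n).a - (nd n).b - ε := by
    rw [hnda, hndb, hndc, ← hG]; ring
  have hN : (nd n).a ^ 2 - (nd n).a * (nd n).b - (nd n).b ^ 2 = 2 + ε * (nd n).a := by
    have h1 := hdet
    unfold det at h1
    rw [hc] at h1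
    linarith
  refine ⟨?_, ?_, ?_, hc, hεa, hN, hdet⟩
  · rw [hnda]; nlinarith [mul_nonneg hr (le_trans zero_le_one hs), sq_nonneg r]
  · rw [hndb]; nlinarith [mul_nonneg hr (le_trans zero_le_one hs)]
  · rw [hnda, hndb]
    nlinarith [sq_nonneg (r - s), sq_nonneg r, sq_nonneg s, mul_nonneg hr (le_trans zero_le_one hs)]

/-- the main inequality in the reals -/
lemma keyR {y : V3} {ε : ℤ} (h : Nd y ε) (A B : ℤ) (hAB : A ≠ 0 ∨ B ≠ 0) :
    (y.a : ℝ) ^ 2 ≤ ((A : ℝ) * y.a + B * y.b) ^ 2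
      + |(A : ℝ) * y.a + B * y.b| * |(B : ℝ)| * (3 * y.a) + (B : ℝ) ^ 2 * (y.a + 2) := by
  have h1 := key y.a y.b ε A B (A * y.a + B * y.b) h.ha h.hb.le h.hε h.hN rfl hAB
  have h2 : ((y.a ^ 2 : ℤ) : ℝ) ≤ (((A * y.a + B * y.b) ^ 2
    + |A * y.a + B * y.b| * |B| * (2 * y.b + y.a) + B ^ 2 * (y.a + 2) : ℤ) : ℝ) := by
    exact_mod_cast h1
  push_cast at h2
  have h3 : (y.b : ℝ) ≤ y.a := by exact_mod_cast h.hba
  have h4 : |(A : ℝ) * y.a + B * y.b| * |(B : ℝ)| * (2 * y.b + y.a)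
      ≤ |(A : ℝ) * y.a + B * y.b| * |(B : ℝ)| * (3 * y.a) :=
    mul_le_mul_of_nonneg_left (by linarith) (by positivity)
  linarith

/-- (S3), (S4) for the node -/
lemma small_zero {y : V3} {ε : ℤ} (h : Nd y ε) (R : ℝ) (hR1 : 1 ≤ R)
    (hR : 20 * R ^ 2 < (y.a : ℝ)) (P : V3) (hP : Sm P R) (hd : dot P y = 0) : P = 0 := by
  obtain ⟨p1, p2, p3⟩ := hP
  have ha : (0 : ℝ) < y.a := by exact_mod_cast h.ha
  have hdot : (P.a + P.c) * y.a + (P.b - P.c) * y.b = ε * P.c := by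
    have h1 := hd
    unfold dot at h1
    rw [h.hc] at h1
    linarith
  by_cases hAB : P.a + P.c ≠ 0 ∨ P.b - P.c ≠ 0
  · exfalso
    have h2 := keyR h (P.a + P.c) (P.b - P.c) hAB
    have h3 : (((P.a + P.c : ℤ) : ℝ)) * y.a + ((P.b - P.c : ℤ) : ℝ) * y.b = ε * P.c := by
      exact_mod_cast hdot
    rw [h3] at h2
    have hε : |(ε : ℝ)| = 1 := by
      have := h.hε
      exact_mod_cast this
    have h4 : |(ε : ℝ) * P.c| ≤ R := by
      rw [abs_mul, hε, one_mul]; exact p3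
    have h5 : |((P.b - P.c : ℤ) : ℝ)| ≤ 2 * R := by
      push_cast
      refine (abs_sub _ _).trans ?_
      linarith
    have h6 : ((ε : ℝ) * P.c) ^ 2 ≤ R ^ 2 := by
      rw [← sq_abs]
      exact pow_le_pow_left₀ (abs_nonneg _) h4 2
    have h7 : ((P.b - P.c : ℤ) : ℝ) ^ 2 ≤ (2 * R) ^ 2 := by
      rw [← sq_abs]
      exact pow_le_pow_left₀ (abs_nonneg _) h5 2
    have h8 : |(ε : ℝ) * P.c| * |((P.b - P.c : ℤ) : ℝ)| ≤ R * (2 * R) :=
      mul_le_mul h4 h5 (abs_nonneg _) (by linarith)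
    have h9 : |(ε : ℝ) * P.c| * |((P.b - P.c : ℤ) : ℝ)| * (3 * y.a) ≤ R * (2 * R) * (3 * y.a) :=
      mul_le_mul_of_nonneg_right h8 (by positivity)
    have h10 : ((P.b - P.c : ℤ) : ℝ) ^ 2 * (y.a + 2) ≤ (2 * R) ^ 2 * (y.a + 2) :=
      mul_le_mul_of_nonneg_right h7 (by positivity)
    have h11 : (y.a : ℝ) ^ 2 ≤ R ^ 2 + R * (2 * R) * (3 * y.a) + (2 * R) ^ 2 * (y.a + 2) := by
      linarith
    have hR2 : (1 : ℝ) ≤ R ^ 2 := one_le_pow₀ hR1
    have hay : (20 : ℝ) < y.a := by linarith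
    have h12 : R ^ 2 + R * (2 * R) * (3 * y.a) + (2 * R) ^ 2 * (y.a + 2)
        ≤ 20 * R ^ 2 * y.a := by
      nlinarith [mul_le_mul_of_nonneg_left hay.le (sq_nonneg R)]
    nlinarith
  · rw [not_or, not_not, not_not] at hAB
    obtain ⟨hA, hB⟩ := hAB
    rw [hA, hB] at hdot
    have hεne : ε ≠ 0 := by
      intro h0
      have := h.hε
      rw [h0] at this
      norm_num at this
    have hc : P.c = 0 := by
      have : ε * P.c = 0 := by linarith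
      rcases mul_eq_zero.1 this with h1 | h1
      · exact absurd h1 hεne
      · exact h1
    have h1 : P.a = 0 := by linarith
    have h2 : P.b = 0 := by linarith
    apply V3.ext
    · exact h1
    · exact h2
    · exact hc

/-- (S2) for the node, short range -/
lemma ba_short {y : V3} {ε : ℤ} (h : Nd y ε) (ha : (1000 : ℝ) ≤ y.a) (c : ℝ) (hc : c ≤ 1 / 10) :
    BA c (y.a : ℝ) (tt y) := by
  intro m n hm hq
  have hay : (0 : ℝ) < y.a := by linarith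
  have hm0 : (1 : ℝ) ≤ m := by exact_mod_cast hm
  have hq1 : 1 ≤ qr m := by
    unfold qr
    exact Real.one_le_rpow hm0 (by norm_num)
  have hq4 : qr m ^ 4 = (m : ℝ) := by
    unfold qr
    rw [← Real.rpow_natCast, ← Real.rpow_mul (by linarith)]
    norm_num
  generalize qr m = q at *
  by_contra hlt
  push Not at hlt
  have hδ : q ^ 5 * |(m : ℝ) * tt y - n| < 1 / 10 := lt_of_lt_of_le hlt hc
  have hq5 : (1 : ℝ) ≤ q ^ 5 := one_le_pow₀ hq1
  have h1 := keyR h (-n) m (Or.inr (by omega))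
  have h2 : (((-n : ℤ) : ℝ)) * y.a + (m : ℝ) * y.b = y.a * ((m : ℝ) * tt y - n) := by
    unfold tt
    field_simp
    push_cast
    ring
  rw [h2] at h1
  have h3 : |(y.a : ℝ) * ((m : ℝ) * tt y - n)| = y.a * |(m : ℝ) * tt y - n| := by
    rw [abs_mul, abs_of_pos hay]
  have h3' : ((y.a : ℝ) * ((m : ℝ) * tt y - n)) ^ 2 = y.a ^ 2 * |(m : ℝ) * tt y - n| ^ 2 := by
    rw [mul_pow, sq_abs]
  rw [h3, h3', abs_of_pos (by linarith : (0 : ℝ) < m)] at h1
  have hδ0 : 0 ≤ |(m : ℝ) * tt y - n| := abs_nonneg _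
  generalize |(m : ℝ) * tt y - n| = δ at *
  have h4 : δ < 1 / 10 := by
    have : δ ≤ q ^ 5 * δ := le_mul_of_one_le_left hδ0 hq5
    linarith
  have h5 : δ * m < 1 / 10 := by
    have h51 : (m : ℝ) ≤ q ^ 5 := by
      rw [← hq4]
      exact pow_le_pow_right₀ hq1 (by norm_num)
    have h52 : δ * m ≤ q ^ 5 * δ := by
      rw [mul_comm]
      exact mul_le_mul_of_nonneg_right h51 hδ0
    linarith
  have h6 : (m : ℝ) ^ 2 ≤ y.a / 2 := by
    rw [← hq4, ← pow_mul]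
    norm_num
    by_cases h2q : 2 ≤ q
    · have : q ^ 9 = q ^ 8 * q := by ring
      rw [this] at hq
      nlinarith [pow_nonneg (by linarith : (0 : ℝ) ≤ q) 8]
    · push Not at h2q
      have : q ^ 8 ≤ 2 ^ 8 := pow_le_pow_left₀ (by linarith) h2q.le 8
      norm_num at this
      linarith
  have h7 : (y.a : ℝ) ^ 2 * δ ^ 2 ≤ y.a ^ 2 * (1 / 100) := by
    refine mul_le_mul_of_nonneg_left ?_ (sq_nonneg _)
    nlinarith
  have h8 : (y.a : ℝ) * δ * m * (3 * y.a) ≤ y.a ^ 2 * (3 / 10) := by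
    have : (y.a : ℝ) * δ * m * (3 * y.a) = y.a ^ 2 * (3 * (δ * m)) := by ring
    rw [this]
    refine mul_le_mul_of_nonneg_left ?_ (sq_nonneg _)
    linarith
  have h9 : (m : ℝ) ^ 2 * (y.a + 2) ≤ y.a / 2 * (y.a + 2) :=
    mul_le_mul_of_nonneg_right h6 (by linarith)
  nlinarith

/-- bounds for `t` -/
lemma tt_bounds {y : V3} {ε : ℤ} (h : Nd y ε) (ha : (1000 : ℝ) ≤ y.a) :
    1 / 2 ≤ tt y ∧ tt y ≤ 37 / 50 := by
  have hay : (0 : ℝ) < y.a := by linarith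
  have hb0 : (0 : ℝ) < y.b := by exact_mod_cast h.hb
  have hε : |(ε : ℝ)| = 1 := by
    have := h.hε
    exact_mod_cast this
  have hN : (y.a : ℝ) ^ 2 - y.a * y.b - y.b ^ 2 = 2 + ε * y.a := by
    have := h.hN
    exact_mod_cast this
  have hε1 : (ε : ℝ) ≤ 1 := by rw [← hε]; exact le_abs_self _
  have hε2 : -1 ≤ (ε : ℝ) := by rw [← hε]; exact neg_abs_le _
  have h1 : (ε : ℝ) * y.a ≤ y.a := by nlinarith
  have h2 : -(y.a : ℝ) ≤ ε * y.a := by nlinarith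
  unfold tt
  constructor
  · rw [le_div_iff₀ hay]
    by_contra hlt
    push Not at hlt
    nlinarith
  · rw [div_le_iff₀ hay]
    by_contra hlt
    push Not at hlt
    nlinarith

/-- large nodes with a root -/
lemma exists_root (N : ℕ) (hN : N ≠ 0) (B : ℝ) (hB : 1 ≤ B) :
    ∃ (n : ℕ) (b : ℝ), B ≤ b ∧ b ^ N = ((nd n).a : ℝ) := by
  obtain ⟨K, hK⟩ := exists_nat_ge (B ^ N)
  have h5 : K + 5 ≤ Nat.fib (K + 5) := Nat.le_fib_self (by omega)
  have h6 : (B ^ N : ℝ) ≤ ((nd (K + 5)).a : ℝ) := by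
    have h7 : ((nd (K + 5)).a : ℤ) = (Nat.fib (K + 5) : ℤ) ^ 2
      + 2 * Nat.fib (K + 5) * Nat.fib (K + 5 + 1) + 3 * (Nat.fib (K + 5 + 1) : ℤ) ^ 2 := rfl
    have h8 : (K : ℤ) ≤ (nd (K + 5)).a := by
      rw [h7]
      have h9 : ((K : ℤ) + 5) ≤ Nat.fib (K + 5) := by exact_mod_cast h5
      have h10 : (0 : ℤ) ≤ Nat.fib (K + 5 + 1) := by positivity
      generalize (Nat.fib (K + 5) : ℤ) = r at *
      generalize (Nat.fib (K + 5 + 1) : ℤ) = s at *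
      have h11 : (0 : ℤ) ≤ K := by positivity
      nlinarith [mul_nonneg (by linarith : 0 ≤ r) h10, sq_nonneg s]
    have h9 : (K : ℝ) ≤ ((nd (K + 5)).a : ℝ) := by exact_mod_cast h8
    linarith
  have hnn : (0 : ℝ) ≤ ((nd (K + 5)).a : ℝ) := le_trans (by positivity) h6
  refine ⟨K + 5, ((nd (K + 5)).a : ℝ) ^ ((N : ℝ)⁻¹), ?_, ?_⟩
  · have h1 : B ^ N ≤ (((nd (K + 5)).a : ℝ) ^ ((N : ℝ)⁻¹)) ^ N := by
      rw [Real.rpow_inv_natCast_pow hnn hN]
      exact h6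
    exact le_of_pow_le_pow_left₀ hN (Real.rpow_nonneg hnn _) h1
  · exact Real.rpow_inv_natCast_pow hnn hN

end StartAux

open StartAux in
/-- M8: there is an initial state -/
theorem start (hL : Lem2) : Start := by
  obtain ⟨n, b, hb, hby⟩ := exists_root NN (by norm_num [NN]) B0 (by norm_num [B0])
  have hnd := nd_Nd n
  generalize hy : nd n = y at *
  generalize ((-1 : ℤ)) ^ n = ε at *
  have hb6 : (1000000 : ℝ) ≤ b := hb
  have hb1 : (1 : ℝ) ≤ b := by linarith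
  have hb0 : (0 : ℝ) < b := by linarith
  have hba : b ≤ (y.a : ℝ) := by
    rw [← hby]
    exact le_self_pow₀ hb1 (by norm_num [NN])
  have hinv : 1 / b ≤ 1 / 1000000 := one_div_le_one_div_of_le (by norm_num) hb6
  have ha0 : (1000 : ℝ) ≤ y.a := by linarith
  have hinv0 : 0 < 1 / b := by positivity
  have hc1 : 1 / 12 + 2 / b ≤ 1 / 10 := by
    have : 2 / b = 2 * (1 / b) := by ring
    rw [this]
    linarith
  have hc0 : 1 / 12 ≤ 1 / 12 + 2 / b := by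
    have : 2 / b = 2 * (1 / b) := by ring
    rw [this]
    linarith
  obtain ⟨ht1, ht2⟩ := tt_bounds hnd ha0
  have hR : 20 * (b ^ 400000) ^ 2 < (y.a : ℝ) := by
    rw [← hby, ← pow_mul]
    have h1 : b ^ NN = b ^ 199999 * b * b ^ (400000 * 2) := by
      rw [← pow_succ, ← pow_add]
    rw [h1]
    refine mul_lt_mul_of_pos_right ?_ (by positivity)
    have h2 : 1 ≤ b ^ 199999 := one_le_pow₀ hb1
    nlinarith
  have hS : ∀ P : V3, Sm P (b ^ 400000) → dot P y = 0 → P = 0 := fun P hP hd =>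
    small_zero hnd _ (one_le_pow₀ hb1) hR P hP hd
  refine ⟨⟨1, 0, 0⟩, y, b, ?_⟩
  have hBA : BA (1 / 12 + 2 / b) ((y.a : ℝ) ^ 2) (tt y) := by
    refine hL y _ hnd.ha (by rw [hnd.hdet]; norm_num) (by linarith) (by linarith) hc0
      (by linarith) ?_ ?_ (ba_short hnd ha0 _ hc1)
    · rw [hnd.hdet, ← hby]
      have h1 : |((2 : ℤ) : ℝ)| = 2 := by norm_num
      rw [h1]
      exact (pow_le_pow_left₀ (by norm_num) (by linarith) 1000).trans
        (pow_le_pow_right₀ hb1 (by norm_num [NN]))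
    · rw [← hby]
      exact (pow_le_pow_left₀ (by norm_num) (by linarith) 100).trans
        (pow_le_pow_right₀ hb1 (by norm_num [NN]))
  refine ⟨by norm_num, hb, hby, by rw [hnd.hdet]; norm_num, ?_, by linarith, by linarith,
    hBA, ?_, ?_, ?_⟩
  · rw [hnd.hdet]
    have h1 : |((2 : ℤ) : ℝ)| = 2 := by norm_num
    rw [h1]
    exact le_trans (by linarith) (le_self_pow₀ hb1 (by norm_num))
  · intro h0
    have h1 : (cross ⟨1, 0, 0⟩ y).c = 0 := by rw [h0]; rfl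
    have h2 : (cross ⟨1, 0, 0⟩ y).c = y.b := by
      show 1 * y.b - 0 * y.a = y.b
      ring
    have := hnd.hb
    omega
  · intro P hP hd
    rw [hS P hP hd]
    rfl
  · intro P hP hd
    refine hS P ?_ hd
    obtain ⟨p1, p2, p3⟩ := hP
    have hle : b ^ (200000 / 2 ^ 0) ≤ b ^ 400000 := pow_le_pow_right₀ hb1 (by norm_num)
    exact ⟨p1.trans hle, p2.trans hle, p3.trans hle⟩

end WHP
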