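import Pool.Agent.WHP.Stmts

/-!
# Basic identities for `V3`
-/

namespace WHP

theorem det_eq (t : ℝ) (v : V3) : (det v : ℝ) = v.a * ga t v - be t v ^ 2 := by
  simp only [det, ga, be]
  push_cast
  ring

theorem be_lin (t : ℝ) (i k : ℤ) (v w : V3) :
    be t (lin i v k w) = i * be t v + k * be t w := by
  simp only [be, lin]
  push_cast
  ring

theorem ga_lin (t : ℝ) (i k : ℤ) (v w : V3) :
    ga t (lin i v k w) = i * ga t v + k * ga t w := by
  simp only [ga, lin]
  push_cast
  ring

theorem a_lin (i k : ℤ) (v w : V3) : (lin i v k w).a = i * v.a + k * w.a := rfl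

theorem dot_lin (P : V3) (i k : ℤ) (v w : V3) :
    dot P (lin i v k w) = i * dot P v + k * dot P w := by
  simp only [dot, lin]
  ring

theorem zero_a : (0 : V3).a = 0 := rfl
theorem zero_b : (0 : V3).b = 0 := rfl
theorem zero_c : (0 : V3).c = 0 := rfl

theorem ne_zero_iff (v : V3) : v ≠ 0 ↔ ¬ (v.a = 0 ∧ v.b = 0 ∧ v.c = 0) := by
  constructor
  · rintro h ⟨h1, h2, h3⟩
    exact h (V3.ext h1 h2 h3)
  · rintro h rfl
    exact h ⟨rfl, rfl, rfl⟩

/-- `P·v` through `P(t)`, `P'(t)`, `p₂` -/
theorem dot_eq (t : ℝ) (P v : V3) :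
    (dot P v : ℝ) = (P.a + P.b * t + P.c * t ^ 2) * v.a + (P.b + 2 * P.c * t) * be t v +
      P.c * ga t v := by
  simp only [dot, be, ga]
  push_cast
  ring

theorem be_self {y : V3} (h : (y.a : ℝ) ≠ 0) : be (tt y) y = 0 := by
  simp only [be, tt]
  field_simp
  ring

theorem ga_self {y : V3} (h : (y.a : ℝ) ≠ 0) : ga (tt y) y = det y / y.a := by
  simp only [ga, tt, det]
  push_cast
  field_simp
  ring

/-- for `P = v × w`: `p₂ = v₀β(w) - β(v)w₀` -/
theorem cross_c (t : ℝ) (v w : V3) :
    ((cross v w).c : ℝ) = v.a * be t w - be t v * w.a := by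
  simp only [cross, be]
  push_cast
  ring

theorem cross_der (t : ℝ) (v w : V3) :
    ((cross v w).b : ℝ) + 2 * (cross v w).c * t = -(v.a * ga t w - ga t v * w.a) := by
  simp only [cross, ga]
  push_cast
  ring

theorem cross_val (t : ℝ) (v w : V3) :
    ((cross v w).a : ℝ) + (cross v w).b * t + (cross v w).c * t ^ 2 =
      be t v * ga t w - ga t v * be t w := by
  simp only [cross, ga, be]
  push_cast
  ring

theorem dot_cross_left (v w : V3) : dot (cross v w) v = 0 := by
  simp only [dot, cross]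
  ring

theorem dot_cross_right (v w : V3) : dot (cross v w) w = 0 := by
  simp only [dot, cross]
  ring

end WHP
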