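import Pool.Agent.WHP.Basic
import Pool.Agent.WHP.Stmts2

/-!
# M5a: a candidate is a child
-/

namespace WHP

theorem cs_be_eq {y z : V3} (hz : (z.a : ℝ) ≠ 0) : be (tt y) z = z.a * (tt z - tt y) := by
  have h : (z.b : ℝ) = z.a * tt z := by
    simp only [tt]
    field_simp
  simp only [be]
  rw [h]
  ring

theorem cs_h1 {b Y Z β γ d : ℝ} (hb : 1000000 ≤ b) (hZ : 0 < Z)
    (hdz : 1 ≤ |Z * γ - β ^ 2|) (hβ : |β| ≤ 1 / 2)
    (hga : |γ| * Y ^ 2 ≤ 4 * b ^ 561 * d ^ 2) (hd : |d| ≤ b ^ 240) :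
    Y ^ 2 ≤ Z * b ^ 1042 := by
  have h1 : β ^ 2 ≤ 1 / 4 := by
    have := abs_le.mp hβ
    nlinarith [this.1, this.2]
  have h2 : 3 / 4 ≤ Z * |γ| := by
    have h3 : |Z * γ - β ^ 2| ≤ |Z * γ| + |β ^ 2| := abs_sub _ _
    rw [abs_mul, abs_of_pos hZ, abs_of_nonneg (sq_nonneg β)] at h3
    linarith
  have h4 : d ^ 2 ≤ b ^ 480 := by
    have h5 : |d| ^ 2 ≤ (b ^ 240) ^ 2 := pow_le_pow_left₀ (abs_nonneg _) hd 2
    rw [sq_abs, ← pow_mul] at h5
    exact h5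
  have h6 : 3 / 4 * Y ^ 2 ≤ Z * (|γ| * Y ^ 2) := by
    have := mul_le_mul_of_nonneg_right h2 (sq_nonneg Y)
    linarith
  have h7 : Z * (|γ| * Y ^ 2) ≤ Z * (4 * b ^ 561 * b ^ 480) := by
    apply mul_le_mul_of_nonneg_left _ hZ.le
    refine hga.trans ?_
    apply mul_le_mul_of_nonneg_left h4
    positivity
  have h8 : Z * (4 * b ^ 561 * b ^ 480) = 4 * (Z * b ^ 1041) := by
    rw [show (1041 : ℕ) = 561 + 480 from rfl, pow_add]
    ring
  have h9 : Z * b ^ 1042 = b * (Z * b ^ 1041) := by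
    rw [show (1042 : ℕ) = 1041 + 1 from rfl, pow_succ]
    ring
  have h10 : 0 ≤ Z * b ^ 1041 := by
    apply mul_nonneg hZ.le
    apply pow_nonneg
    linarith
  rw [h9]
  nlinarith [h6, h7, h8, h10]

theorem cs_h4 {b Y Z δ β : ℝ} (hZ : 0 < Z) (hβ : β = Z * δ)
    (hv : b ^ 2 * Y ^ 2 * β ^ 2 ≤ Z) : |δ| * (b * Y * √Z) ≤ 1 := by
  have h1 : b * Y * |β| ≤ √Z := by
    apply Real.le_sqrt_of_sq_le
    rw [mul_pow, mul_pow, sq_abs]
    exact hv
  have h2 : |β| = Z * |δ| := by rw [hβ, abs_mul, abs_of_pos hZ]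
  have hs : √Z * √Z = Z := Real.mul_self_sqrt hZ.le
  have hs0 : 0 < √Z := Real.sqrt_pos.mpr hZ
  rw [h2] at h1
  have h3 : Z * (|δ| * (b * Y * √Z)) ≤ Z * 1 := by
    calc Z * (|δ| * (b * Y * √Z)) = (b * Y * (Z * |δ|)) * √Z := by ring
      _ ≤ √Z * √Z := mul_le_mul_of_nonneg_right h1 hs0.le
      _ = Z * 1 := by rw [hs, mul_one]
  exact le_of_mul_le_mul_left h3 hZ

/-- the powers of `bz` -/
theorem cs_pow {b Y Z bz : ℝ} (hb : 1000000 ≤ b) (hY : b ^ NN = Y)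
    (hbz : bz ^ NN = Z) (hbz0 : 0 < bz) (h1 : Y ^ 2 ≤ Z * b ^ 1042) (h2 : Z ≤ Y ^ 2) :
    b ^ 1998 ≤ bz ^ 1000 ∧ bz ≤ b ^ 2 ∧ 2 * b ≤ bz ∧ b ^ 1998000 ≤ Z := by
  have hb0 : 0 < b := by linarith
  have hb1 : 1 ≤ b := by linarith
  have e1 : b ^ 1998958 ≤ Z := by
    have h3 : b ^ 1998958 * b ^ 1042 ≤ Z * b ^ 1042 := by
      rw [← pow_add]
      have h4 : Y ^ 2 = b ^ (1998958 + 1042) := by
        rw [← hY, ← pow_mul]
        exact congrArg (fun k : ℕ => b ^ k) (by norm_num)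
      rw [← h4]
      exact h1
    exact le_of_mul_le_mul_right h3 (pow_pos hb0 _)
  have e2 : b ^ 1998000 ≤ Z := (pow_le_pow_right₀ hb1 (by norm_num)).trans e1
  have e3 : b ^ 1998 ≤ bz ^ 1000 := by
    have h3 : (b ^ 1998) ^ 1000 ≤ (bz ^ 1000) ^ 1000 := by
      rw [← pow_mul, ← pow_mul]
      have h4 : bz ^ (1000 * 1000) = Z := hbz
      rw [h4]
      exact e2
    exact le_of_pow_le_pow_left₀ (by norm_num) (pow_nonneg hbz0.le _) h3
  have e4 : bz ≤ b ^ 2 := by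
    have h3 : bz ^ NN ≤ (b ^ 2) ^ NN := by
      rw [hbz, ← pow_mul, mul_comm 2 NN, pow_mul, hY]
      exact h2
    exact le_of_pow_le_pow_left₀ (by norm_num) (pow_nonneg hb0.le _) h3
  have e5 : 2 * b ≤ bz := by
    have h3 : (2 * b) ^ 1000 ≤ bz ^ 1000 := by
      refine le_trans ?_ e3
      rw [mul_pow]
      have h4 : (2 : ℝ) ^ 1000 ≤ b ^ 998 := by
        have h5 : (2 : ℝ) ^ 1000 = (2 ^ 2) ^ 500 := by rw [← pow_mul]
        have h6 : ((2 : ℝ) ^ 2) ^ 500 ≤ b ^ 500 := by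
          apply pow_le_pow_left₀ (by norm_num)
          norm_num
          linarith
        rw [h5]
        exact h6.trans (pow_le_pow_right₀ hb1 (by norm_num))
      calc (2 : ℝ) ^ 1000 * b ^ 1000 ≤ b ^ 998 * b ^ 1000 :=
            mul_le_mul_of_nonneg_right h4 (pow_nonneg hb0.le _)
        _ = b ^ 1998 := by rw [← pow_add]
    exact le_of_pow_le_pow_left₀ (by norm_num) hbz0.le h3
  exact ⟨e3, e4, e5, e2⟩

/-- `√Z = bz^500000` -/
theorem cs_sqrt {Z bz : ℝ} (hbz : bz ^ NN = Z) (hbz0 : 0 < bz) : √Z = bz ^ 500000 := by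
  rw [← hbz]
  have h : bz ^ NN = (bz ^ 500000) ^ 2 := by rw [← pow_mul]
  rw [h, Real.sqrt_sq (pow_nonneg hbz0.le _)]

theorem cs_T1 {b Y Z bz δ : ℝ} (hb : 1000000 ≤ b) (hY : 0 < Y)
    (hbz : bz ^ NN = Z) (hbz0 : 0 < bz) (hbz1 : b ≤ bz)
    (h4 : |δ| * (b * Y * √Z) ≤ 1) : 3 * bz ^ 400000 * |δ| * Y ≤ 1 / 4 := by
  have hb0 : 0 < b := by linarith
  have h1 : bz ^ 400000 ≤ √Z := by
    rw [cs_sqrt hbz hbz0]
    exact pow_le_pow_right₀ (by linarith) (by norm_num)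
  generalize bz ^ 400000 = R at h1 ⊢
  have h2 : R * (|δ| * Y * b) ≤ √Z * (|δ| * Y * b) :=
    mul_le_mul_of_nonneg_right h1 (by positivity)
  have h3 : (3 * R * |δ| * Y) * b ≤ 1 / 4 * b := by
    nlinarith [h2, h4]
  exact le_of_mul_le_mul_right h3 hb0

theorem cs_T2 {b Y Z bz dz : ℝ} (hb : 1000000 ≤ b) (hY : b ^ NN = Y)
    (hbz : bz ^ NN = Z) (hbz1 : b ≤ bz) (hdz : |dz| ≤ 5 * b ^ 478) :
    bz ^ 400000 * |dz| * Y ≤ 1 / 4 * Z ^ 2 := by
  have hb0 : 0 < b := by linarith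
  have hz0 : 0 < bz := by linarith
  have hz1 : 1 ≤ bz := by linarith
  have h1 : 4 * |dz| ≤ bz ^ 479 := by
    have h2 : b ^ 478 ≤ bz ^ 478 := pow_le_pow_left₀ hb0.le hbz1 _
    have h3 : bz ^ 479 = bz ^ 478 * bz := pow_succ _ _
    have h4 : 0 < bz ^ 478 := pow_pos hz0 _
    rw [h3]
    nlinarith
  have h5 : Y ≤ bz ^ NN := by
    rw [← hY]
    exact pow_le_pow_left₀ hb0.le hbz1 _
  have h6 : bz ^ 400000 * bz ^ 479 * bz ^ NN ≤ Z ^ 2 := by
    rw [← hbz, ← pow_add, ← pow_add, ← pow_mul]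
    exact pow_le_pow_right₀ hz1 (by norm_num)
  have h7 : 0 ≤ Y := by
    rw [← hY]
    exact pow_nonneg hb0.le _
  have h8 : bz ^ 400000 * (4 * |dz|) * Y ≤ bz ^ 400000 * bz ^ 479 * bz ^ NN := by
    apply mul_le_mul _ h5 h7
    · exact mul_nonneg (pow_nonneg hz0.le _) (pow_nonneg hz0.le _)
    · exact mul_le_mul_of_nonneg_left h1 (pow_nonneg hz0.le _)
  have h9 := h8.trans h6
  linarith

theorem cs_T3 {b Y bz dy : ℝ} (hb : 1000000 ≤ b) (hY : b ^ NN = Y)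
    (hbz0 : 0 < bz) (hbz2 : bz ≤ b ^ 2) (hdy : |dy| ≤ b ^ 240) :
    bz ^ 400000 * |dy| ≤ 1 / 4 * Y := by
  have hb0 : 0 < b := by linarith
  have hb1 : 1 ≤ b := by linarith
  have h1 : bz ^ 400000 ≤ b ^ 800000 := by
    have : bz ^ 400000 ≤ (b ^ 2) ^ 400000 := pow_le_pow_left₀ hbz0.le hbz2 _
    rwa [← pow_mul] at this
  have h2 : 4 * |dy| ≤ b ^ 241 := by
    rw [pow_succ]
    have : 0 < b ^ 240 := pow_pos hb0 _
    nlinarith
  have h3 : bz ^ 400000 * (4 * |dy|) ≤ b ^ 800000 * b ^ 241 :=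
    mul_le_mul h1 h2 (by positivity) (pow_nonneg hb0.le _)
  have h4 : b ^ 800000 * b ^ 241 ≤ Y := by
    rw [← hY, ← pow_add]
    exact pow_le_pow_right₀ hb1 (by norm_num)
  have h5 := h3.trans h4
  linarith

/-- (S3) -/
theorem cs_S3 {b bz : ℝ} {y z P : V3} (hb : 1000000 ≤ b) (hY : b ^ NN = (y.a : ℝ))
    (hy0 : 0 < (y.a : ℝ)) (hz0 : 0 < (z.a : ℝ)) (hbz : bz ^ NN = (z.a : ℝ)) (hbz0 : 0 < bz)
    (hbz1 : b ≤ bz) (hbz2 : bz ≤ b ^ 2) (hdz : |(det z : ℝ)| ≤ 5 * b ^ 478)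
    (hdy : |(det y : ℝ)| ≤ b ^ 240) (h4 : |tt z - tt y| * (b * y.a * √(z.a : ℝ)) ≤ 1)
    (ty0 : 0 ≤ tt y) (ty1 : tt y ≤ 1) (tz0 : 0 ≤ tt z) (tz1 : tt z ≤ 1)
    (hP : Sm P (bz ^ 400000)) (hPz : dot P z = 0) : dot P y = 0 := by
  have k1 := cs_T1 hb hy0 hbz hbz0 hbz1 h4
  have k2 := cs_T2 hb hY hbz hbz1 hdz
  have k3 := cs_T3 hb hY hbz0 hbz2 hdy
  obtain ⟨-, hPb, hPc⟩ := hP
  have hR0 : 0 ≤ bz ^ 400000 := pow_nonneg hbz0.le _
  generalize bz ^ 400000 = R at k1 k2 k3 hPb hPc hR0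
  have e1 : (0 : ℝ) = (P.a + P.b * tt z + P.c * tt z ^ 2) * z.a + P.c * (det z / z.a) := by
    have h := dot_eq (tt z) P z
    rw [be_self hz0.ne', ga_self hz0.ne', hPz] at h
    push_cast at h
    linarith
  have e2 : (dot P y : ℝ) = (P.a + P.b * tt y + P.c * tt y ^ 2) * y.a +
      P.c * (det y / y.a) := by
    have h := dot_eq (tt y) P y
    rw [be_self hy0.ne', ga_self hy0.ne'] at h
    linarith
  have e3 : (P.a + P.b * tt z + P.c * tt z ^ 2 : ℝ) = - (P.c * det z / (z.a : ℝ) ^ 2) := by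
    field_simp
    field_simp at e1
    linarith
  have e4 : (P.a + P.b * tt y + P.c * tt y ^ 2 : ℝ) = - (P.c * det z / (z.a : ℝ) ^ 2) -
      (tt z - tt y) * (P.b + P.c * (tt z + tt y)) := by
    rw [← e3]
    ring
  have e5 : (dot P y : ℝ) = - (P.c * det z * y.a / (z.a : ℝ) ^ 2) -
      (tt z - tt y) * (P.b + P.c * (tt z + tt y)) * y.a + P.c * det y / y.a := by
    rw [e2, e4]
    ring
  have a1 : |(P.c * det z * y.a / (z.a : ℝ) ^ 2 : ℝ)| ≤ 1 / 4 := by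
    rw [abs_div, abs_mul, abs_mul, abs_of_pos hy0, abs_of_nonneg (sq_nonneg (z.a : ℝ)),
      div_le_iff₀ (by positivity)]
    refine le_trans ?_ k2
    apply mul_le_mul_of_nonneg_right _ hy0.le
    exact mul_le_mul_of_nonneg_right hPc (abs_nonneg _)
  have a2 : |(tt z - tt y) * (P.b + P.c * (tt z + tt y)) * y.a| ≤ 1 / 4 := by
    rw [abs_mul, abs_mul, abs_of_pos hy0]
    have h1 : |(P.b + P.c * (tt z + tt y) : ℝ)| ≤ 3 * R := by
      have h2 : |(P.b + P.c * (tt z + tt y) : ℝ)| ≤ |(P.b : ℝ)| + |(P.c : ℝ) * (tt z + tt y)| :=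
        abs_add_le _ _
      rw [abs_mul, abs_of_nonneg (by linarith : 0 ≤ tt z + tt y)] at h2
      have h3 : |(P.c : ℝ)| * (tt z + tt y) ≤ R * 2 :=
        mul_le_mul hPc (by linarith) (by linarith) hR0
      linarith
    calc |tt z - tt y| * |(P.b + P.c * (tt z + tt y) : ℝ)| * y.a
        ≤ |tt z - tt y| * (3 * R) * y.a := by
          apply mul_le_mul_of_nonneg_right _ hy0.le
          exact mul_le_mul_of_nonneg_left h1 (abs_nonneg _)
      _ = 3 * R * |tt z - tt y| * y.a := by ring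
      _ ≤ 1 / 4 := k1
  have a3 : |(P.c * det y / y.a : ℝ)| ≤ 1 / 4 := by
    rw [abs_div, abs_mul, abs_of_pos hy0, div_le_iff₀ hy0]
    refine le_trans ?_ k3
    exact mul_le_mul_of_nonneg_right hPc (abs_nonneg _)
  have a4 : |(dot P y : ℝ)| < 1 := by
    rw [e5]
    rw [abs_le] at a1 a2 a3
    rw [abs_lt]
    constructor <;> linarith [a1.1, a1.2, a2.1, a2.2, a3.1, a3.2]
  have a5 : |dot P y| < 1 := by exact_mod_cast a4
  exact Int.abs_lt_one_iff.mp a5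

/-- parallel vectors -/
theorem cs_cross {b : ℝ} {y z : V3} (hb : 1000000 ≤ b)
    (hy0 : 0 < (y.a : ℝ)) (hz0 : 0 < (z.a : ℝ)) (hZ : b ^ 1998000 ≤ (z.a : ℝ))
    (hdet : det y ≠ 0) (hdy : |(det y : ℝ)| ≤ b ^ 240)
    (hga : |ga (tt y) z| * (y.a : ℝ) ^ 2 ≤ 4 * b ^ 561 * (det y : ℝ) ^ 2) : cross y z ≠ 0 := by
  intro h
  have hb0 : 0 < b := by linarith
  have h2 : y.c * z.a = y.a * z.c := by
    have := congrArg V3.b h
    simp only [cross, zero_b] at this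
    linarith
  have h3 : y.a * z.b = y.b * z.a := by
    have := congrArg V3.c h
    simp only [cross, zero_c] at this
    linarith
  have h2r : (y.c : ℝ) * z.a = y.a * z.c := by exact_mod_cast h2
  have h3r : (y.a : ℝ) * z.b = y.b * z.a := by exact_mod_cast h3
  have h4 : ga (tt y) z * (y.a : ℝ) ^ 2 = z.a * det y := by
    have hzc : (z.c : ℝ) = y.c * z.a / y.a := by
      field_simp
      linarith
    have hzb : (z.b : ℝ) = y.b * z.a / y.a := by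
      field_simp
      linarith
    simp only [ga, tt, det]
    rw [hzc, hzb]
    push_cast
    field_simp
    ring
  have h5 : (z.a : ℝ) * |(det y : ℝ)| ≤ 4 * b ^ 561 * (det y : ℝ) ^ 2 := by
    refine le_trans (le_of_eq ?_) hga
    rw [← abs_of_pos hz0, ← abs_mul, ← h4, abs_mul, abs_of_nonneg (sq_nonneg (y.a : ℝ))]
  have hd0 : 0 < |(det y : ℝ)| := by
    rw [abs_pos]
    exact_mod_cast hdet
  have h6 : (z.a : ℝ) ≤ 4 * b ^ 561 * |(det y : ℝ)| := by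
    have : (z.a : ℝ) * |(det y : ℝ)| ≤ (4 * b ^ 561 * |(det y : ℝ)|) * |(det y : ℝ)| := by
      refine h5.trans (le_of_eq ?_)
      rw [← sq_abs]
      ring
    exact le_of_mul_le_mul_right this hd0
  have h7 : (z.a : ℝ) ≤ 4 * b ^ 801 := by
    refine h6.trans ?_
    have : b ^ 801 = b ^ 561 * b ^ 240 := by rw [← pow_add]
    rw [this, ← mul_assoc]
    apply mul_le_mul_of_nonneg_left hdy
    positivity
  have h8 : 4 * b ^ 801 < b ^ 802 := by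
    rw [pow_succ b 801]
    have : 0 < b ^ 801 := pow_pos hb0 _
    nlinarith
  have h9 : b ^ 802 ≤ b ^ 1998000 := pow_le_pow_right₀ (by linarith) (by norm_num)
  linarith

/-- the property `BA` up to `Z` -/
theorem cs_BA {b bz Y Z ty tz : ℝ} (hb : 1000000 ≤ b) (hY : 0 < Y) (hZ : 0 < Z)
    (hbz : 2 * b ≤ bz) (h2 : Z ≤ Y ^ 2) (h4 : |tz - ty| * (b * Y * √Z) ≤ 1)
    (hS2 : BA (1 / 12 + 2 / b) (Y ^ 2) ty) : BA (1 / 12 + 2 / bz) Z tz := by
  intro m n hm hq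
  have hb0 : 0 < b := by linarith
  have hm0 : (0 : ℝ) < m := by exact_mod_cast hm
  have hq0 : 0 < qr m := Real.rpow_pos_of_pos hm0 _
  have hq4 : qr m ^ 4 = (m : ℝ) := by
    unfold qr
    rw [← Real.rpow_natCast, ← Real.rpow_mul hm0.le]
    norm_num
  have k := hS2 m n hm (hq.trans h2)
  have s1 : √Z * √Z = Z := Real.mul_self_sqrt hZ.le
  have s0 : 0 < √Z := Real.sqrt_pos.mpr hZ
  have s2 : √Z ≤ Y := by
    rw [Real.sqrt_le_left hY.le]
    exact h2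
  have k1 : qr m ^ 9 * |tz - ty| ≤ 1 / b := by
    have k2 : qr m ^ 9 * |tz - ty| ≤ Z * |tz - ty| :=
      mul_le_mul_of_nonneg_right hq (abs_nonneg _)
    refine k2.trans ?_
    rw [le_div_iff₀ hb0]
    have k3 : Z * |tz - ty| * b = √Z * (|tz - ty| * b * √Z) := by
      rw [show √Z * (|tz - ty| * b * √Z) = (√Z * √Z) * |tz - ty| * b by ring, s1]
    rw [k3]
    have k4 : √Z * (|tz - ty| * b * √Z) ≤ Y * (|tz - ty| * b * √Z) :=
      mul_le_mul_of_nonneg_right s2 (by positivity)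
    refine k4.trans ?_
    linarith
  have k5 : |(m : ℝ) * ty - n| ≤ |(m : ℝ) * tz - n| + m * |tz - ty| := by
    have e : (m : ℝ) * ty - n = ((m : ℝ) * tz - n) - m * (tz - ty) := by ring
    rw [e]
    refine (abs_sub _ _).trans ?_
    rw [abs_mul (m : ℝ), abs_of_pos hm0]
  have k6 : qr m ^ 5 * |(m : ℝ) * ty - n| ≤ qr m ^ 5 * |(m : ℝ) * tz - n| +
      qr m ^ 9 * |tz - ty| := by
    have := mul_le_mul_of_nonneg_left k5 (pow_nonneg hq0.le 5)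
    refine this.trans (le_of_eq ?_)
    rw [← hq4]
    ring
  have k7 : 2 / bz ≤ 1 / b := by
    rw [div_le_div_iff₀ (by linarith) hb0]
    linarith
  have k8 : 2 / b = 1 / b + 1 / b := by ring
  linarith

theorem candStep (hL : Lem2) : CandStep := by
  intro i x y z b hSt hC hdz
  have hb : (1000000 : ℝ) ≤ b := hSt.hb0
  have hb0 : 0 < b := by linarith
  have hb1 : 1 ≤ b := by linarith
  have hY : b ^ NN = (y.a : ℝ) := hSt.hby
  have hy0 : 0 < (y.a : ℝ) := by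
    rw [← hY]
    exact pow_pos hb0 _
  have hz0 : 0 < (z.a : ℝ) := by exact_mod_cast hC.hpos
  have hdy : |(det y : ℝ)| ≤ b ^ 240 :=
    hSt.hd.trans (pow_le_pow_right₀ hb1 (Nat.sub_le _ _))
  have hdy1 : 1 ≤ |(det y : ℝ)| := by
    have : (1 : ℤ) ≤ |det y| := Int.one_le_abs hSt.hdet
    exact_mod_cast this
  have hdz1 : 1 ≤ |(det z : ℝ)| := by
    have : (1 : ℤ) ≤ |det z| := Int.one_le_abs hC.hdet
    exact_mod_cast this
  have h1 : (y.a : ℝ) ^ 2 ≤ z.a * b ^ 1042 := by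
    refine cs_h1 (γ := ga (tt y) z) (β := be (tt y) z) (d := (det y : ℝ)) hb hz0 ?_ hC.hbe hC.hga
      hdy
    rw [← det_eq]
    exact hdz1
  have h3 := hC.hrange
  have h2 : (z.a : ℝ) ≤ (y.a : ℝ) ^ 2 := by
    refine le_trans ?_ h3
    have e1 : 1 ≤ (det y : ℝ) ^ 2 := by
      rw [← sq_abs]
      exact one_le_pow₀ hdy1
    have e2 : 1 ≤ b ^ 2 := one_le_pow₀ hb1
    have e3 : 1 ≤ b ^ 2 * (det y : ℝ) ^ 2 := one_le_mul_of_one_le_of_one_le e2 e1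
    exact le_mul_of_one_le_left hz0.le e3
  have h4 : |tt z - tt y| * (b * y.a * √(z.a : ℝ)) ≤ 1 :=
    cs_h4 hz0 (cs_be_eq hz0.ne') hC.hval
  obtain ⟨bz, hbz0, hbz⟩ : ∃ bz : ℝ, 0 < bz ∧ bz ^ NN = (z.a : ℝ) := by
    refine ⟨(z.a : ℝ) ^ ((1 : ℝ) / (NN : ℕ)), Real.rpow_pos_of_pos hz0 _, ?_⟩
    rw [← Real.rpow_natCast, ← Real.rpow_mul hz0.le]
    rw [one_div, inv_mul_cancel₀, Real.rpow_one]
    norm_num
  obtain ⟨q1, q2, q3, q4⟩ := cs_pow hb hY hbz hbz0 h1 h2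
  have hbz1 : b ≤ bz := by linarith
  have hbd : 1 / bz ≤ 1 / (2 * b) := one_div_le_one_div_of_le (by linarith) q3
  have hz1 : 1 ≤ (z.a : ℝ) := by
    have : (1 : ℤ) ≤ z.a := hC.hpos
    exact_mod_cast this
  have hs1 : 1 ≤ √(z.a : ℝ) := Real.one_le_sqrt.mpr hz1
  have hy2 : (2 : ℝ) ≤ y.a := by
    rw [← hY]
    have : b ^ 1 ≤ b ^ NN := pow_le_pow_right₀ hb1 (by norm_num)
    rw [pow_one] at this
    linarith
  have hdt : |tt z - tt y| ≤ 1 / (2 * b) := by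
    rw [le_div_iff₀ (by linarith)]
    have e1 : 2 * b ≤ b * y.a * √(z.a : ℝ) := by
      have e2 : b * 2 ≤ b * y.a := mul_le_mul_of_nonneg_left hy2 hb0.le
      have e3 : b * y.a * 1 ≤ b * y.a * √(z.a : ℝ) :=
        mul_le_mul_of_nonneg_left hs1 (by positivity)
      linarith
    exact (mul_le_mul_of_nonneg_left e1 (abs_nonneg _)).trans h4
  have hdt2 := abs_le.mp hdt
  have hbb : 1 / b = 1 / (2 * b) + 1 / (2 * b) := by
    field_simp
    norm_num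
  have t1 : 1 / 4 + 1 / bz ≤ tt z := by
    have := hSt.ht1
    linarith [hdt2.1]
  have t2 : tt z ≤ 3 / 4 - 1 / bz := by
    have := hSt.ht2
    linarith [hdt2.2]
  have hib : 0 < 1 / b := by positivity
  have hibz : 0 < 1 / bz := by positivity
  have ty0 : 0 ≤ tt y := by linarith [hSt.ht1]
  have ty1 : tt y ≤ 1 := by linarith [hSt.ht2]
  have tz0 : 0 ≤ tt z := by linarith
  have tz1 : tt z ≤ 1 := by linarith
  have hBA : BA (1 / 12 + 2 / bz) ((z.a : ℝ) ^ 2) (tt z) := by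
    refine hL z _ hC.hpos hC.hdet tz0 tz1 ?_ ?_ ?_ ?_ ?_
    · have : 0 < 2 / bz := by positivity
      linarith
    · have : 2 / bz ≤ 1 / 2 := by
        rw [div_le_div_iff₀ hbz0 (by norm_num)]
        linarith
      linarith
    · have e1 : |(det z : ℝ)| ≤ b ^ 479 := by
        rw [pow_succ]
        have : 0 < b ^ 478 := pow_pos hb0 _
        nlinarith
      have e2 : |(det z : ℝ)| ^ 1000 ≤ (b ^ 479) ^ 1000 :=
        pow_le_pow_left₀ (abs_nonneg _) e1 _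
      rw [← pow_mul] at e2
      exact e2.trans ((pow_le_pow_right₀ hb1 (by norm_num)).trans q4)
    · have e1 : (10 : ℝ) ^ 100 ≤ b ^ 100 := pow_le_pow_left₀ (by norm_num) (by linarith) _
      exact e1.trans ((pow_le_pow_right₀ hb1 (by norm_num)).trans q4)
    · exact cs_BA hb hy0 hz0 q3 h2 h4 hSt.hS2
  have hcross : cross y z ≠ 0 := cs_cross hb hy0 hz0 q4 hSt.hdet hdy hC.hga
  have hyi : 0 < y.a := by exact_mod_cast hy0
  refine ⟨bz, ⟨hyi, h1, h2, h3, h4, hbz, hbz0⟩, hb.trans hbz1, q1, q2, t1, t2, hBA, hcross, ?_⟩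
  intro P hP hPz
  exact cs_S3 hb hY hy0 hz0 hbz hbz0 hbz1 q2 hdz hdy h4 ty0 ty1 tz0 tz1 hP hPz

end WHP
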