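import Mathlib

/-!
# Positive dimension of `{ξ : ŵ₂(ξ) > 2}` : definitions (MP_c538e3_nt, note 1592, helper94)

`V3` are integer vectors `(a,b,c)`, thought of as `(x₀,x₁,x₂)`; a node is such a vector `y` with
`y.a > 0`, small nonzero determinant and `tt y = y₁/y₀` in `[1/4,3/4]`.
-/

namespace WHP

/-- integer vectors `(x₀,x₁,x₂)` -/
@[ext] structure V3 where
  a : ℤ
  b : ℤ
  c : ℤ
  deriving DecidableEq

/-- the zero vector -/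
instance : Zero V3 := ⟨⟨0, 0, 0⟩⟩

/-- `x₀x₂ - x₁²` -/
def det (v : V3) : ℤ := v.a * v.c - v.b ^ 2

/-- `β(v) = v₁ - t v₀` -/
noncomputable def be (t : ℝ) (v : V3) : ℝ := (v.b : ℝ) - t * v.a

/-- `γ(v) = v₂ - 2 t v₁ + t² v₀` -/
noncomputable def ga (t : ℝ) (v : V3) : ℝ := (v.c : ℝ) - 2 * t * v.b + t ^ 2 * v.a

/-- `P·v` -/
def dot (P v : V3) : ℤ := P.a * v.a + P.b * v.b + P.c * v.c

/-- cross product -/
def cross (v w : V3) : V3 :=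
  ⟨v.b * w.c - v.c * w.b, v.c * w.a - v.a * w.c, v.a * w.b - v.b * w.a⟩

/-- `i v + k w` -/
def lin (i : ℤ) (v : V3) (k : ℤ) (w : V3) : V3 :=
  ⟨i * v.a + k * w.a, i * v.b + k * w.b, i * v.c + k * w.c⟩

/-- `t = y₁/y₀` -/
noncomputable def tt (y : V3) : ℝ := (y.b : ℝ) / y.a

/-- all coefficients of `P` are at most `R` in absolute value -/
def Sm (P : V3) (R : ℝ) : Prop := |(P.a : ℝ)| ≤ R ∧ |(P.b : ℝ)| ≤ R ∧ |(P.c : ℝ)| ≤ R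

/-- the real fourth root of an integer -/
noncomputable def qr (m : ℤ) : ℝ := (m : ℝ) ^ ((1 : ℝ) / 4)

/-- `m^{5/4}|m t - n| ≥ c` for all `m ≥ 1` with `m^{9/4} ≤ R` and all `n` -/
def BA (c R t : ℝ) : Prop :=
  ∀ m n : ℤ, 1 ≤ m → qr m ^ 9 ≤ R → c ≤ qr m ^ 5 * |(m : ℝ) * t - n|

/-- the exponent `N` -/
abbrev NN : ℕ := 1000000

/-- lower bound for `b` -/
abbrev B0 : ℝ := 1000000

/-- the states `St_i(x,y)`, `b ^ N = y₀` -/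
structure St (i : ℕ) (x y : V3) (b : ℝ) : Prop where
  hi : i ≤ 6
  hb0 : B0 ≤ b
  hby : b ^ NN = (y.a : ℝ)
  hdet : det y ≠ 0
  hd : |(det y : ℝ)| ≤ b ^ (240 - 36 * i)
  ht1 : 1 / 4 + 1 / b ≤ tt y
  ht2 : tt y ≤ 3 / 4 - 1 / b
  hS2 : BA (1 / 12 + 2 / b) ((y.a : ℝ) ^ 2) (tt y)
  hxy : cross x y ≠ 0
  hS3 : ∀ P : V3, Sm P (b ^ 400000) → dot P y = 0 → dot P x = 0
  hS4 : ∀ P : V3, Sm P (b ^ (200000 / 2 ^ i)) → dot P y = 0 → P = 0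

/-- child relation `y → z` -/
structure Ch (y z : V3) (b bz : ℝ) : Prop where
  h0 : 0 < y.a
  h1 : (y.a : ℝ) ^ 2 ≤ z.a * b ^ 1042
  h2 : (z.a : ℝ) ≤ (y.a : ℝ) ^ 2
  h3 : b ^ 2 * (det y : ℝ) ^ 2 * z.a ≤ (y.a : ℝ) ^ 2
  h4 : |tt z - tt y| * (b * y.a * √(z.a : ℝ)) ≤ 1
  hbz : bz ^ NN = (z.a : ℝ)
  hbz0 : 0 < bz

end WHP
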