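import Pool.Agent.WHP.GeoA

/-!
# Geometric step, part B: basic facts of a state, nonzero determinants, valid vectors
-/

namespace WHP

theorem StF.b1 {i x y b} (h : St i x y b) : (1 : ℝ) ≤ b := by
  have := h.hb0; norm_num [B0] at this; linarith

theorem StF.b0 {i x y b} (h : St i x y b) : (0 : ℝ) < b := by
  have := StF.b1 h; linarith

theorem StF.Ypos {i x y b} (h : St i x y b) : (0 : ℝ) < y.a := by
  rw [← h.hby]; exact pow_pos (StF.b0 h) _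

theorem StF.ya {i x y b} (h : St i x y b) : 0 < y.a := by
  exact_mod_cast StF.Ypos h

theorem StF.d1 {i x y b} (h : St i x y b) : (1 : ℝ) ≤ |(det y : ℝ)| := by
  have := Int.one_le_abs h.hdet
  exact_mod_cast this

theorem StF.d240 {i x y b} (h : St i x y b) : |(det y : ℝ)| ≤ b ^ 240 :=
  h.hd.trans (pow_le_pow_right₀ (StF.b1 h) (by omega))

/-- comparison of powers -/
theorem StF.pw {i x y b} (h : St i x y b) {m n : ℕ} (hmn : m ≤ n) : b ^ m ≤ b ^ n :=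
  pow_le_pow_right₀ (StF.b1 h) hmn

/-- `|u₀||γ(u)| ≥ 3/4` -/
theorem geo_inv {t : ℝ} {u : V3} (hdet : det u ≠ 0) (hbe : |be t u| ≤ 1 / 2) :
    3 / 4 ≤ |(u.a : ℝ)| * |ga t u| := by
  have h1 : (1 : ℝ) ≤ |(det u : ℝ)| := by
    have := Int.one_le_abs hdet
    exact_mod_cast this
  rw [det_eq t u] at h1
  have h2 : be t u ^ 2 ≤ 1 / 4 := by
    rw [← sq_abs]
    have h3 := abs_nonneg (be t u)
    nlinarith
  have h4 : |(u.a : ℝ) * ga t u - be t u ^ 2| ≤ |(u.a : ℝ)| * |ga t u| + be t u ^ 2 := by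
    refine (abs_sub _ _).trans ?_
    rw [abs_mul, abs_of_nonneg (sq_nonneg (be t u))]
  linarith

/-- criterion for validity -/
theorem geo_valid {i x y b} (h : St i x y b) {u : V3} (hdet : det u ≠ 0)
    (hbe : |be (tt y) u| ≤ 1 / 2) {lam mu : ℝ}
    (h2 : |be (tt y) u| * (b ^ 202 * |(det y : ℝ)|) ≤ mu)
    (h3 : |ga (tt y) u| * (y.a : ℝ) ^ 2 ≤ lam * (b ^ 481 * (det y : ℝ) ^ 2))
    (hs : lam * mu ^ 2 * b ^ 79 < 3 / 4) :
    b ^ 2 * (y.a : ℝ) ^ 2 * be (tt y) u ^ 2 ≤ |(u.a : ℝ)| := by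
  by_contra hcon
  push Not at hcon
  have h4 := geo_inv hdet hbe
  have hb := StF.b0 h
  have hY := StF.Ypos h
  have hd := StF.d1 h
  set B := |be (tt y) u| with hB
  set G := |ga (tt y) u| with hG
  set d := |(det y : ℝ)| with hdd
  have hB0 : 0 ≤ B := abs_nonneg _
  have hG0 : 0 ≤ G := abs_nonneg _
  have e1 : be (tt y) u ^ 2 = B ^ 2 := (sq_abs _).symm
  have e2 : (det y : ℝ) ^ 2 = d ^ 2 := (sq_abs _).symm
  rw [e1] at hcon
  rw [e2] at h3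
  -- 3/4 ≤ b² B² * (G Y²) ≤ b² B² lam b^481 d²
  have h5 : 3 / 4 ≤ b ^ 2 * B ^ 2 * (G * (y.a : ℝ) ^ 2) := by
    calc 3 / 4 ≤ |(u.a : ℝ)| * G := h4
      _ ≤ (b ^ 2 * (y.a : ℝ) ^ 2 * B ^ 2) * G := by gcongr
      _ = _ := by ring
  have h6 : b ^ 2 * B ^ 2 * (G * (y.a : ℝ) ^ 2) ≤ b ^ 2 * B ^ 2 * (lam * (b ^ 481 * d ^ 2)) := by
    gcongr
  have h7 : (B * (b ^ 202 * d)) ^ 2 ≤ mu ^ 2 := by
    have : 0 ≤ B * (b ^ 202 * d) := by positivity
    gcongr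
  have hlam : 0 ≤ lam := by
    have h8 : 0 ≤ lam * (b ^ 481 * d ^ 2) := le_trans (by positivity) h3
    have h9 : 0 < b ^ 481 * d ^ 2 := by positivity
    by_contra hneg
    push Not at hneg
    have := mul_neg_of_neg_of_pos hneg h9
    linarith
  have h8 : b ^ 2 * B ^ 2 * (lam * (b ^ 481 * d ^ 2)) = lam * (B * (b ^ 202 * d)) ^ 2 * b ^ 79 := by
    ring
  have h9 : lam * (B * (b ^ 202 * d)) ^ 2 * b ^ 79 ≤ lam * mu ^ 2 * b ^ 79 := by
    gcongr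
  linarith

/-- nonzero determinants -/
theorem geo_nz (hC : Claim1) {i x y b} (h : St i x y b) {u : V3} (hu : u ≠ 0)
    (h1 : |(u.a : ℝ)| * (det y : ℝ) ^ 2 < (y.a : ℝ) ^ 2)
    (h2 : |be (tt y) u| * (b ^ 202 * |(det y : ℝ)|) ≤ 2)
    (h3 : |ga (tt y) u| * (y.a : ℝ) ^ 2 ≤ 4 * b ^ 80 * (b ^ 481 * (det y : ℝ) ^ 2)) :
    det u ≠ 0 := by
  refine hC i x y u b h hu h1 ?_ ?_
  · rw [le_div_iff₀ (pow_pos (StF.b0 h) _)]
    linarith
  · have e : 4 * b ^ 80 * (b ^ 481 * (det y : ℝ) ^ 2) = 4 * b ^ 561 * (det y : ℝ) ^ 2 := by ring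
    rw [← e]
    exact h3

/-- `|β| ≤ 1/2` from the bound in `K` -/
theorem geo_be {i x y b} (h : St i x y b) {u : V3}
    (h2 : |be (tt y) u| * (b ^ 202 * |(det y : ℝ)|) ≤ 2) : |be (tt y) u| ≤ 1 / 2 := by
  have hb := StF.b0 h
  have hd := StF.d1 h
  have h4 : (4 : ℝ) ≤ b ^ 202 * |(det y : ℝ)| := by
    have h5 : (4 : ℝ) ≤ b := by have := h.hb0; norm_num [B0] at this; linarith
    have h6 : b ^ 1 ≤ b ^ 202 := StF.pw h (by norm_num)
    rw [pow_one] at h6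
    have h7 : b ^ 202 * 1 ≤ b ^ 202 * |(det y : ℝ)| := by gcongr
    linarith
  have h5 := abs_nonneg (be (tt y) u)
  nlinarith

set_option maxHeartbeats 4000000 in
/-- The family alternative. -/
theorem geo_fam (hC : Claim1) {i x y b} (h : St i x y b) {v w : V3} {Lv : ℝ} {l0 : ℤ}
    (hva : 0 ≤ v.a) (hwa : 0 ≤ w.a) (hv : InK y b 1 v)
    (hvL1 : |(v.a : ℝ)| * (b ^ 3 * (det y : ℝ) ^ 2) * Lv ≤ (y.a : ℝ) ^ 2)
    (hvL2 : |be (tt y) v| * (b ^ 202 * |(det y : ℝ)|) * Lv ≤ 1)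
    (hvL3 : |ga (tt y) v| * (y.a : ℝ) ^ 2 * Lv ≤ b ^ 481 * (det y : ℝ) ^ 2)
    (hw : InK y b 1 w) (hvw : cross v w ≠ 0) (hl0 : 0 ≤ l0)
    (hl1 : (l0 : ℝ) + b ^ 11 / 4 ≤ Lv)
    (hU : 4 * (y.a : ℝ) ^ 2 ≤ (w.a + l0 * v.a) * (b ^ 402 * (det y : ℝ) ^ 2)) :
    ∃ (v w : V3) (l0 : ℤ), cross v w ≠ 0 ∧
    |(be (tt y) v) * (ga (tt y) w) - (ga (tt y) v) * (be (tt y) w)| * (y.a : ℝ) ^ 2 ≤
      2 * b ^ 279 * |(det y : ℝ)| ∧
    |(v.a : ℝ) * ga (tt y) w - ga (tt y) v * w.a| ≤ 2 * b ^ 478 ∧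
    ∀ l : ℤ, l0 ≤ l → (l : ℝ) ≤ l0 + b ^ 11 / 4 →
      Cand y (lin l v 1 w) b ∧ |(det (lin l v 1 w) : ℝ)| ≤ 5 * b ^ 478 := by
  have hb := StF.b0 h
  have hb1 := StF.b1 h
  have hY := StF.Ypos h
  have hd := StF.d1 h
  have e2 : (det y : ℝ) ^ 2 = |(det y : ℝ)| ^ 2 := (sq_abs _).symm
  obtain ⟨v1, v2, v3⟩ := hv
  obtain ⟨w1, w2, w3⟩ := hw
  rw [one_mul] at v1 v3 w1 w3
  rw [e2] at v1 v3 w1 w3 hvL1 hvL3 hU
  set d := |(det y : ℝ)| with hdd
  set Y : ℝ := (y.a : ℝ) with hYY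
  set t := tt y with ht
  have hdpos : 0 < d := by linarith
  have hY2 : 0 < Y ^ 2 := by positivity
  refine ⟨v, w, l0, hvw, ?_, ?_, ?_⟩
  · -- A bound
    have k1 : |be t v * ga t w - ga t v * be t w| ≤ |be t v| * |ga t w| + |ga t v| * |be t w| := by
      refine (abs_sub _ _).trans ?_
      rw [abs_mul, abs_mul]
    have hX : 0 < b ^ 202 * d := by positivity
    have k2 : |be t v| * |ga t w| * Y ^ 2 * (b ^ 202 * d) ≤ b ^ 481 * d ^ 2 := by
      calc _ = (|be t v| * (b ^ 202 * d)) * (|ga t w| * Y ^ 2) := by ring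
        _ ≤ 1 * (b ^ 481 * d ^ 2) := by gcongr
        _ = _ := by ring
    have k3 : |ga t v| * |be t w| * Y ^ 2 * (b ^ 202 * d) ≤ b ^ 481 * d ^ 2 := by
      calc _ = (|be t w| * (b ^ 202 * d)) * (|ga t v| * Y ^ 2) := by ring
        _ ≤ 1 * (b ^ 481 * d ^ 2) := by gcongr
        _ = _ := by ring
    have k4 : |be t v * ga t w - ga t v * be t w| * Y ^ 2 * (b ^ 202 * d) ≤
        (2 * b ^ 279 * d) * (b ^ 202 * d) := by
      calc _ ≤ (|be t v| * |ga t w| + |ga t v| * |be t w|) * Y ^ 2 * (b ^ 202 * d) := by gcongr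
        _ = |be t v| * |ga t w| * Y ^ 2 * (b ^ 202 * d) +
            |ga t v| * |be t w| * Y ^ 2 * (b ^ 202 * d) := by ring
        _ ≤ b ^ 481 * d ^ 2 + b ^ 481 * d ^ 2 := add_le_add k2 k3
        _ = _ := by ring
    exact le_of_mul_le_mul_right k4 hX
  · -- B bound
    have k1 : |(v.a : ℝ) * ga t w - ga t v * w.a| ≤
        |(v.a : ℝ)| * |ga t w| + |ga t v| * |(w.a : ℝ)| := by
      refine (abs_sub _ _).trans ?_
      rw [abs_mul, abs_mul]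
    have hX : 0 < (b ^ 3 * d ^ 2) * Y ^ 2 := by positivity
    have k2 : |(v.a : ℝ)| * |ga t w| * ((b ^ 3 * d ^ 2) * Y ^ 2) ≤
        b ^ 478 * ((b ^ 3 * d ^ 2) * Y ^ 2) := by
      calc _ = (|(v.a : ℝ)| * (b ^ 3 * d ^ 2)) * (|ga t w| * Y ^ 2) := by ring
        _ ≤ Y ^ 2 * (b ^ 481 * d ^ 2) := by gcongr
        _ = _ := by ring
    have k3 : |ga t v| * |(w.a : ℝ)| * ((b ^ 3 * d ^ 2) * Y ^ 2) ≤
        b ^ 478 * ((b ^ 3 * d ^ 2) * Y ^ 2) := by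
      calc _ = (|(w.a : ℝ)| * (b ^ 3 * d ^ 2)) * (|ga t v| * Y ^ 2) := by ring
        _ ≤ Y ^ 2 * (b ^ 481 * d ^ 2) := by gcongr
        _ = _ := by ring
    have k4 := le_of_mul_le_mul_right k2 hX
    have k5 := le_of_mul_le_mul_right k3 hX
    linarith
  · intro l hl hl2
    have hl0' : (0 : ℝ) ≤ l0 := by exact_mod_cast hl0
    have hlr : (l0 : ℝ) ≤ l := by exact_mod_cast hl
    have hlL : (l : ℝ) ≤ Lv := by linarith
    have hl0r : (0 : ℝ) ≤ l := by linarith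
    have habsl : |(l : ℝ)| = l := abs_of_nonneg hl0r
    have hvar : (0 : ℝ) ≤ v.a := by exact_mod_cast hva
    have hwar : (0 : ℝ) ≤ w.a := by exact_mod_cast hwa
    set z := lin l v 1 w with hz
    have za : (z.a : ℝ) = l * v.a + w.a := by
      rw [hz, a_lin]; push_cast; ring
    have zb : be t z = l * be t v + be t w := by
      rw [hz, be_lin]; push_cast; ring
    have zg : ga t z = l * ga t v + ga t w := by
      rw [hz, ga_lin]; push_cast; ring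
    -- lower bound
    have g1 : 4 * Y ^ 2 ≤ z.a * (b ^ 402 * d ^ 2) := by
      refine hU.trans ?_
      rw [za]
      have k0 : (l0 : ℝ) * v.a ≤ l * v.a := mul_le_mul_of_nonneg_right hlr hvar
      have k1 : (w.a : ℝ) + l0 * v.a ≤ l * v.a + w.a := by linarith
      have k2 : 0 ≤ b ^ 402 * d ^ 2 := by positivity
      exact mul_le_mul_of_nonneg_right k1 k2
    have zpos : (0 : ℝ) < z.a := by
      by_contra hneg
      push Not at hneg
      have : (z.a : ℝ) * (b ^ 402 * d ^ 2) ≤ 0 :=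
        mul_nonpos_of_nonpos_of_nonneg hneg (by positivity)
      linarith
    have zpos' : 0 < z.a := by exact_mod_cast zpos
    -- upper bounds
    have g2 : (z.a : ℝ) * (b ^ 3 * d ^ 2) ≤ 2 * Y ^ 2 := by
      have k1 : (v.a : ℝ) * (b ^ 3 * d ^ 2) * l ≤ Y ^ 2 := by
        have : |(v.a : ℝ)| = v.a := abs_of_nonneg hvar
        rw [this] at hvL1
        exact (mul_le_mul_of_nonneg_left hlL (by positivity)).trans hvL1
      have k2 : (w.a : ℝ) * (b ^ 3 * d ^ 2) ≤ Y ^ 2 := by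
        have : |(w.a : ℝ)| = w.a := abs_of_nonneg hwar
        rwa [this] at w1
      rw [za]
      have k3 : ((l : ℝ) * v.a + w.a) * (b ^ 3 * d ^ 2) =
          (v.a : ℝ) * (b ^ 3 * d ^ 2) * l + (w.a : ℝ) * (b ^ 3 * d ^ 2) := by ring
      rw [k3]
      linarith
    have g3 : |be t z| * (b ^ 202 * d) ≤ 2 := by
      have k1 : |be t v| * (b ^ 202 * d) * l ≤ 1 :=
        (mul_le_mul_of_nonneg_left hlL (by positivity)).trans hvL2
      have k2 : |be t z| ≤ l * |be t v| + |be t w| := by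
        rw [zb]
        refine (abs_add_le _ _).trans ?_
        rw [abs_mul, habsl]
      calc |be t z| * (b ^ 202 * d) ≤ (l * |be t v| + |be t w|) * (b ^ 202 * d) := by gcongr
        _ = |be t v| * (b ^ 202 * d) * l + |be t w| * (b ^ 202 * d) := by ring
        _ ≤ 1 + 1 := add_le_add k1 w2
        _ = 2 := by norm_num
    have g4 : |ga t z| * Y ^ 2 ≤ 2 * (b ^ 481 * d ^ 2) := by
      have k1 : |ga t v| * Y ^ 2 * l ≤ b ^ 481 * d ^ 2 :=
        (mul_le_mul_of_nonneg_left hlL (by positivity)).trans hvL3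
      have k2 : |ga t z| ≤ l * |ga t v| + |ga t w| := by
        rw [zg]
        refine (abs_add_le _ _).trans ?_
        rw [abs_mul, habsl]
      calc |ga t z| * Y ^ 2 ≤ (l * |ga t v| + |ga t w|) * Y ^ 2 := by gcongr
        _ = |ga t v| * Y ^ 2 * l + |ga t w| * Y ^ 2 := by ring
        _ ≤ b ^ 481 * d ^ 2 + b ^ 481 * d ^ 2 := add_le_add k1 w3
        _ = _ := by ring
    have hzne : z ≠ 0 := by
      intro h0
      rw [h0, zero_a] at zpos'
      exact lt_irrefl _ zpos'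
    have hbig : (2 : ℝ) < b ^ 1 := by
      have := h.hb0; norm_num [B0] at this; rw [pow_one]; linarith
    have g5 : |(z.a : ℝ)| * (det y : ℝ) ^ 2 < Y ^ 2 := by
      rw [abs_of_pos zpos, e2]
      have k1 : b ^ 1 ≤ b ^ 3 := StF.pw h (by norm_num)
      have k2 : (z.a : ℝ) * (b ^ 3 * d ^ 2) = (z.a * d ^ 2) * b ^ 3 := by ring
      rw [k2] at g2
      have k3 : 0 < (z.a : ℝ) * d ^ 2 := by positivity
      have k4 : (z.a : ℝ) * d ^ 2 * 2 < (z.a : ℝ) * d ^ 2 * b ^ 3 :=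
        mul_lt_mul_of_pos_left (lt_of_lt_of_le hbig k1) k3
      linarith
    have g6 : |ga t z| * Y ^ 2 ≤ 4 * b ^ 80 * (b ^ 481 * (det y : ℝ) ^ 2) := by
      rw [e2]
      refine g4.trans ?_
      have k1 : (1 : ℝ) ≤ b ^ 80 := one_le_pow₀ hb1
      have k2 : 0 ≤ b ^ 481 * d ^ 2 := by positivity
      have k3 : (2 : ℝ) ≤ 4 * b ^ 80 := by linarith
      exact mul_le_mul_of_nonneg_right k3 k2
    have hdetz : det z ≠ 0 := geo_nz hC h hzne g5 g3 g6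
    have hbe : |be t z| ≤ 1 / 2 := geo_be h g3
    refine ⟨⟨zpos', hdetz, ?_, ?_, ?_, hbe⟩, ?_⟩
    · -- valid
      have k1 : (|be t z| * (b ^ 202 * d)) ^ 2 ≤ 2 ^ 2 := by gcongr
      have k2 : b ^ 2 * Y ^ 2 * be t z ^ 2 * (b ^ 402 * d ^ 2) ≤ z.a * (b ^ 402 * d ^ 2) := by
        calc b ^ 2 * Y ^ 2 * be t z ^ 2 * (b ^ 402 * d ^ 2)
            = Y ^ 2 * (|be t z| * (b ^ 202 * d)) ^ 2 := by
              rw [← sq_abs (be t z)]; ring
          _ ≤ Y ^ 2 * 2 ^ 2 := by gcongr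
          _ = 4 * Y ^ 2 := by ring
          _ ≤ _ := g1
      exact le_of_mul_le_mul_right k2 (by positivity)
    · rw [e2]
      have k1 : b ^ 2 * d ^ 2 * z.a * b = z.a * (b ^ 3 * d ^ 2) := by ring
      have k2 : b ^ 2 * d ^ 2 * z.a * b ≤ 2 * Y ^ 2 := by rw [k1]; exact g2
      rw [pow_one] at hbig
      have k3 : 0 ≤ b ^ 2 * d ^ 2 * (z.a : ℝ) := by positivity
      have k4 : b ^ 2 * d ^ 2 * (z.a : ℝ) * 2 ≤ b ^ 2 * d ^ 2 * (z.a : ℝ) * b :=
        mul_le_mul_of_nonneg_left hbig.le k3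
      linarith
    · have e3 : 4 * b ^ 561 * (det y : ℝ) ^ 2 = 4 * b ^ 80 * (b ^ 481 * (det y : ℝ) ^ 2) := by ring
      rw [e3]; exact g6
    · -- determinant
      rw [det_eq t z]
      have k1 : |(z.a : ℝ) * ga t z - be t z ^ 2| ≤ z.a * |ga t z| + be t z ^ 2 := by
        refine (abs_sub _ _).trans ?_
        rw [abs_mul, abs_of_pos zpos, abs_of_nonneg (sq_nonneg (be t z))]
      have k2 : be t z ^ 2 ≤ 1 / 4 := by
        rw [← sq_abs]
        have := abs_nonneg (be t z)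
        nlinarith
      have k3 : (z.a : ℝ) * |ga t z| * ((b ^ 3 * d ^ 2) * Y ^ 2) ≤
          (4 * b ^ 478) * ((b ^ 3 * d ^ 2) * Y ^ 2) := by
        calc _ = (z.a * (b ^ 3 * d ^ 2)) * (|ga t z| * Y ^ 2) := by ring
          _ ≤ (2 * Y ^ 2) * (2 * (b ^ 481 * d ^ 2)) := by gcongr
          _ = _ := by ring
      have k4 := le_of_mul_le_mul_right k3 (by positivity)
      have k5 : (1 : ℝ) ≤ b ^ 478 := one_le_pow₀ hb1
      linarith

end WHP
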