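import Pool.Agent.WHP.GeoB

/-!
# Geometric step, part C: boxes, a single candidate, the two-dimensional pigeonhole
-/

namespace WHP

theorem StF.d0 {i x y b} (h : St i x y b) : (0 : ℝ) < |(det y : ℝ)| := by
  have := StF.d1 h; linarith

theorem StF.big {i x y b} (h : St i x y b) : (1000000 : ℝ) ≤ b := by
  have := h.hb0; norm_num [B0] at this; linarith

/-- the pigeonhole box with parameters -/
theorem geo_box (hB : Box) {i x y b} (h : St i x y b) {s1 s2 s3 : ℝ}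
    (p2 : 0 < s2) (q2 : s2 ≤ 1) (p3 : 0 < s3) (q3 : s3 ≤ 1)
    (hs : 4 * |(det y : ℝ)| ≤ s1 * s2 * s3 * b ^ 276) :
    ∃ v : V3, v ≠ 0 ∧ |(v.a : ℝ)| * (b ^ 3 * (det y : ℝ) ^ 2) ≤ s1 * (y.a : ℝ) ^ 2 ∧
      |be (tt y) v| * (b ^ 202 * |(det y : ℝ)|) ≤ s2 ∧
      |ga (tt y) v| * (y.a : ℝ) ^ 2 ≤ s3 * (b ^ 481 * (det y : ℝ) ^ 2) := by
  have hb := StF.b0 h
  have hb1 := StF.b1 h
  have hY := StF.Ypos h
  have hd := StF.d1 h
  have hd0 := StF.d0 h
  have hd240 := StF.d240 h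
  have e2 : (det y : ℝ) ^ 2 = |(det y : ℝ)| ^ 2 := (sq_abs _).symm
  rw [e2]
  set d := |(det y : ℝ)| with hdd
  set Y : ℝ := (y.a : ℝ) with hYY
  obtain ⟨v, hv0, v1, v2, v3⟩ := hB (tt y) (s1 * Y ^ 2 / (b ^ 3 * d ^ 2)) (s2 / (b ^ 202 * d))
    (s3 * (b ^ 481 * d ^ 2) / Y ^ 2) (by positivity)
    (by
      rw [div_le_one (by positivity)]
      have k1 : (1 : ℝ) ≤ b ^ 202 := one_le_pow₀ hb1
      nlinarith)
    (by positivity)
    (by
      rw [div_le_one (by positivity)]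
      have k1 : b ^ 481 * d ^ 2 ≤ Y ^ 2 := by
        have k2 : Y ^ 2 = b ^ 2000000 := by
          rw [hYY, ← h.hby, ← pow_mul, show NN * 2 = 2000000 from rfl]
        rw [k2]
        calc b ^ 481 * d ^ 2 ≤ b ^ 481 * (b ^ 240) ^ 2 := by gcongr
          _ = b ^ 961 := by rw [← pow_mul, ← pow_add]
          _ ≤ b ^ 2000000 := StF.pw h (by norm_num)
      have k3 : 0 ≤ b ^ 481 * d ^ 2 := by positivity
      nlinarith)
    (by
      have k1 : s1 * Y ^ 2 / (b ^ 3 * d ^ 2) * (s2 / (b ^ 202 * d)) *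
          (s3 * (b ^ 481 * d ^ 2) / Y ^ 2) = s1 * s2 * s3 * b ^ 276 / d := by
        have e : b ^ 481 = b ^ 3 * b ^ 202 * b ^ 276 := by rw [← pow_add, ← pow_add]
        rw [e]
        field_simp
      rw [k1, le_div_iff₀ hd0]
      exact hs)
  refine ⟨v, hv0, ?_, ?_, ?_⟩
  · rw [le_div_iff₀ (by positivity)] at v1
    exact v1
  · rw [le_div_iff₀ (by positivity)] at v2
    exact v2
  · rw [le_div_iff₀ (by positivity)] at v3
    exact v3

/-- upper bound for a determinant -/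
theorem geo_det (t : ℝ) (u : V3) :
    |(det u : ℝ)| ≤ |(u.a : ℝ)| * |ga t u| + be t u ^ 2 := by
  rw [det_eq t u]
  refine (abs_sub _ _).trans ?_
  rw [abs_mul, abs_of_nonneg (sq_nonneg (be t u))]

/-- one candidate -/
theorem geo_one (hC : Claim1) {i x y b} (h : St i x y b) {u : V3} (hu : u ≠ 0) {lam mu : ℝ}
    (h1 : |(u.a : ℝ)| * (b ^ 3 * (det y : ℝ) ^ 2) ≤ (y.a : ℝ) ^ 2)
    (h2 : |be (tt y) u| * (b ^ 202 * |(det y : ℝ)|) ≤ mu) (hmu : mu ≤ 2)
    (h3 : |ga (tt y) u| * (y.a : ℝ) ^ 2 ≤ lam * (b ^ 481 * (det y : ℝ) ^ 2))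
    (hlam : lam ≤ 4 * b ^ 80) (hs : lam * mu ^ 2 * b ^ 79 < 3 / 4) :
    ∃ z : V3, Cand y z b ∧ det z = det u := by
  have hb := StF.b0 h
  have hb1 := StF.b1 h
  have hY := StF.Ypos h
  have hd := StF.d1 h
  have hbig := StF.big h
  have hD : 0 < (det y : ℝ) ^ 2 := by
    have : (det y : ℝ) ≠ 0 := by exact_mod_cast h.hdet
    positivity
  have h3' : |ga (tt y) u| * (y.a : ℝ) ^ 2 ≤ 4 * b ^ 80 * (b ^ 481 * (det y : ℝ) ^ 2) :=
    h3.trans (mul_le_mul_of_nonneg_right hlam (by positivity))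
  have hY2 : 0 < (y.a : ℝ) ^ 2 := by positivity
  have hlt : |(u.a : ℝ)| * (det y : ℝ) ^ 2 < (y.a : ℝ) ^ 2 := by
    rcases (mul_nonneg (abs_nonneg (u.a : ℝ)) hD.le).eq_or_lt with h0 | h0
    · rw [← h0]; exact hY2
    · have k1 : b ^ 1 ≤ b ^ 3 := StF.pw h (by norm_num)
      rw [pow_one] at k1
      have k2 : |(u.a : ℝ)| * (b ^ 3 * (det y : ℝ) ^ 2) = |(u.a : ℝ)| * (det y : ℝ) ^ 2 * b ^ 3 := by
        ring
      rw [k2] at h1
      have k3 : |(u.a : ℝ)| * (det y : ℝ) ^ 2 * 1 < |(u.a : ℝ)| * (det y : ℝ) ^ 2 * b ^ 3 :=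
        mul_lt_mul_of_pos_left (by linarith) h0
      linarith
  have hdet : det u ≠ 0 := geo_nz hC h hu hlt (h2.trans hmu) h3'
  have hbe : |be (tt y) u| ≤ 1 / 2 := geo_be h (h2.trans hmu)
  have hval := geo_valid h hdet hbe h2 h3 hs
  have hinv := geo_inv hdet hbe
  have hune : u.a ≠ 0 := by
    intro h0
    rw [h0] at hinv
    norm_num at hinv
  have hr : b ^ 2 * (det y : ℝ) ^ 2 * |(u.a : ℝ)| ≤ (y.a : ℝ) ^ 2 := by
    have k1 : |(u.a : ℝ)| * (b ^ 3 * (det y : ℝ) ^ 2) =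
      b ^ 2 * (det y : ℝ) ^ 2 * |(u.a : ℝ)| * b := by ring
    rw [k1] at h1
    have k2 : 0 ≤ b ^ 2 * (det y : ℝ) ^ 2 * |(u.a : ℝ)| := by positivity
    have k3 : b ^ 2 * (det y : ℝ) ^ 2 * |(u.a : ℝ)| * 1 ≤
      b ^ 2 * (det y : ℝ) ^ 2 * |(u.a : ℝ)| * b := mul_le_mul_of_nonneg_left hb1 k2
    linarith
  have e3 : 4 * b ^ 80 * (b ^ 481 * (det y : ℝ) ^ 2) = 4 * b ^ 561 * (det y : ℝ) ^ 2 := by ring
  rw [e3] at h3'
  rcases lt_or_gt_of_ne hune with hneg | hpos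
  · refine ⟨neg u, ⟨?_, ?_, ?_, ?_, ?_, ?_⟩, det_neg u⟩
    · simp only [neg]; omega
    · rw [det_neg]; exact hdet
    · rw [be_neg, neg_sq]
      have : (((neg u).a : ℤ) : ℝ) = |(u.a : ℝ)| := by
        rw [abs_of_neg (by exact_mod_cast hneg)]; simp [neg]
      rw [this]; exact hval
    · have : (((neg u).a : ℤ) : ℝ) = |(u.a : ℝ)| := by
        rw [abs_of_neg (by exact_mod_cast hneg)]; simp [neg]
      rw [this]; exact hr
    · rw [ga_neg, abs_neg]; exact h3'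
    · rw [be_neg, abs_neg]; exact hbe
  · have e : |(u.a : ℝ)| = u.a := abs_of_pos (by exact_mod_cast hpos)
    rw [e] at hval hr
    exact ⟨u, ⟨hpos, hdet, hval, hr, h3', hbe⟩, rfl⟩

/-- two-dimensional Dirichlet -/
theorem geo_dir1 {p q B : ℝ} (hp : |p| ≤ B) (hpq : |q| ≤ |p|) {I : ℕ} (hI : 0 < I) :
    ∃ i k : ℤ, (i ≠ 0 ∨ k ≠ 0) ∧ |(i : ℝ)| ≤ I ∧ |(k : ℝ)| ≤ I ∧ |(i : ℝ) * p + k * q| * I ≤ B := by
  have hI' : (1 : ℝ) ≤ I := by exact_mod_cast hI
  rcases eq_or_ne p 0 with h0 | h0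
  · refine ⟨1, 0, Or.inl one_ne_zero, ?_, ?_, ?_⟩
    · push_cast; rw [abs_one]; exact hI'
    · push_cast; rw [abs_zero]; linarith
    · push_cast; rw [h0]; simp; exact (abs_nonneg _).trans hp
  · obtain ⟨j, k, hk, hk2, hjk⟩ := Real.exists_int_int_abs_mul_sub_le (q / p) hI
    have hp0 : 0 < |p| := abs_pos.mpr h0
    have hx : |q / p| ≤ 1 := by
      rw [abs_div]; exact div_le_one_of_le₀ hpq (abs_nonneg _)
    have hk' : (0 : ℝ) < k := by exact_mod_cast hk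
    have hk2' : (k : ℝ) ≤ I := by exact_mod_cast hk2
    refine ⟨-j, k, Or.inr hk.ne', ?_, ?_, ?_⟩
    · push_cast
      rw [abs_neg]
      have k1 : |(j : ℝ)| ≤ |(k : ℝ) * (q / p)| + |(k : ℝ) * (q / p) - j| := by
        have : (j : ℝ) = k * (q / p) - (k * (q / p) - j) := by ring
        calc |(j : ℝ)| = |k * (q / p) - (k * (q / p) - j)| := by rw [← this]
          _ ≤ _ := abs_sub _ _
      have k2 : |(k : ℝ) * (q / p)| ≤ I := by
        rw [abs_mul, abs_of_pos hk']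
        nlinarith [abs_nonneg (q / p)]
      have k3 : (1 : ℝ) / (I + 1) < 1 := by
        rw [div_lt_one (by linarith)]; linarith
      have k4 : |(j : ℝ)| < I + 1 := by linarith
      have k5 : |j| < (I : ℤ) + 1 := by exact_mod_cast k4
      have k6 : |j| ≤ (I : ℤ) := by omega
      exact_mod_cast k6
    · rw [abs_of_pos hk']; exact hk2'
    · have k1 : (((-j : ℤ) : ℝ)) * p + k * q = p * (k * (q / p) - j) := by
        push_cast
        field_simp
        ring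
      rw [k1, abs_mul]
      have k2 : |(k : ℝ) * (q / p) - j| * I ≤ 1 := by
        calc |(k : ℝ) * (q / p) - j| * I ≤ 1 / (I + 1) * I := by gcongr
          _ ≤ 1 := by
            rw [div_mul_eq_mul_div, one_mul]
            exact div_le_one_of_le₀ (by linarith) (by linarith)
      calc |p| * |(k : ℝ) * (q / p) - j| * I = |p| * (|(k : ℝ) * (q / p) - j| * I) := by ring
        _ ≤ |p| * 1 := by gcongr
        _ ≤ B := by linarith

theorem geo_dir {p q B : ℝ} (hp : |p| ≤ B) (hq : |q| ≤ B) {I : ℕ} (hI : 0 < I) :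
    ∃ i k : ℤ, (i ≠ 0 ∨ k ≠ 0) ∧ |(i : ℝ)| ≤ I ∧ |(k : ℝ)| ≤ I ∧ |(i : ℝ) * p + k * q| * I ≤ B := by
  rcases le_total |q| |p| with h | h
  · exact geo_dir1 hp h hI
  · obtain ⟨i, k, h1, h2, h3, h4⟩ := geo_dir1 hq h hI
    refine ⟨k, i, h1.symm, h3, h2, ?_⟩
    rw [add_comm]
    exact h4

/-- linear independence -/
theorem lin_ne_zero {v w : V3} (hvw : cross v w ≠ 0) {i k : ℤ} (hik : i ≠ 0 ∨ k ≠ 0) :
    lin i v k w ≠ 0 := by
  intro h
  have h1 : i * v.a + k * w.a = 0 := by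
    have := congrArg V3.a h; simpa [lin, zero_a] using this
  have h2 : i * v.b + k * w.b = 0 := by
    have := congrArg V3.b h; simpa [lin, zero_b] using this
  have h3 : i * v.c + k * w.c = 0 := by
    have := congrArg V3.c h; simpa [lin, zero_c] using this
  apply hvw
  rcases hik with hi | hk
  · ext
    · have : i * (v.b * w.c - v.c * w.b) = 0 := by linear_combination w.c * h2 - w.b * h3
      simpa [cross, zero_a, hi] using this
    · have : i * (v.c * w.a - v.a * w.c) = 0 := by linear_combination w.a * h3 - w.c * h1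
      simpa [cross, zero_b, hi] using this
    · have : i * (v.a * w.b - v.b * w.a) = 0 := by linear_combination w.b * h1 - w.a * h2
      simpa [cross, zero_c, hi] using this
  · ext
    · have : k * (v.b * w.c - v.c * w.b) = 0 := by linear_combination v.b * h3 - v.c * h2
      simpa [cross, zero_a, hk] using this
    · have : k * (v.c * w.a - v.a * w.c) = 0 := by linear_combination v.c * h1 - v.a * h3
      simpa [cross, zero_b, hk] using this
    · have : k * (v.a * w.b - v.b * w.a) = 0 := by linear_combination v.a * h2 - v.b * h1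
      simpa [cross, zero_c, hk] using this

end WHP
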