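import Pool.Agent.WHP.GeoC

/-!
# Geometric step, part D: case A
-/

namespace WHP

theorem cross_swap (u v : V3) : cross u v = 0 ↔ cross v u = 0 := by
  constructor
  · intro h
    have h1 := congrArg V3.a h
    have h2 := congrArg V3.b h
    have h3 := congrArg V3.c h
    simp only [cross, zero_a, zero_b, zero_c] at h1 h2 h3
    ext
    · simp only [cross, zero_a]; linarith
    · simp only [cross, zero_b]; linarith
    · simp only [cross, zero_c]; linarith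
  · intro h
    have h1 := congrArg V3.a h
    have h2 := congrArg V3.b h
    have h3 := congrArg V3.c h
    simp only [cross, zero_a, zero_b, zero_c] at h1 h2 h3
    ext
    · simp only [cross, zero_a]; linarith
    · simp only [cross, zero_b]; linarith
    · simp only [cross, zero_c]; linarith

theorem cross_neg {v w : V3} (h : cross v w ≠ 0) : cross v (neg w) ≠ 0 := by
  intro h0
  apply h
  have h1 := congrArg V3.a h0
  have h2 := congrArg V3.b h0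
  have h3 := congrArg V3.c h0
  simp only [cross, neg, zero_a, zero_b, zero_c] at h1 h2 h3
  ext
  · simp only [cross, zero_a]; linarith
  · simp only [cross, zero_b]; linarith
  · simp only [cross, zero_c]; linarith

theorem InK.neg {y : V3} {b s : ℝ} {v : V3} (h : InK y b s v) : InK y b s (neg v) := by
  refine ⟨?_, ?_, ?_⟩
  · have : |(((WHP.neg v).a : ℤ) : ℝ)| = |(v.a : ℝ)| := by simp [WHP.neg]
    rw [this]; exact h.h1
  · rw [be_neg, abs_neg]; exact h.h2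
  · rw [ga_neg, abs_neg]; exact h.h3

/-- the primitive vector -/
theorem geo_v (hB : Box) {i x y b} (h : St i x y b) : ∃ v : V3, 0 ≤ v.a ∧
    (∃ x y z : ℤ, x * v.a + y * v.b + z * v.c = 1) ∧
    |(v.a : ℝ)| * (b ^ 3 * (det y : ℝ) ^ 2) * b ^ 11 ≤ (y.a : ℝ) ^ 2 ∧
    |be (tt y) v| * (b ^ 202 * |(det y : ℝ)|) * b ^ 11 ≤ 1 ∧
    |ga (tt y) v| * (y.a : ℝ) ^ 2 * b ^ 11 ≤ b ^ 481 * (det y : ℝ) ^ 2 := by
  have hb := StF.b0 h
  have hb1 := StF.b1 h
  have hbig := StF.big h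
  have hL : (1 : ℝ) ≤ b ^ 11 := one_le_pow₀ hb1
  have hL0 : (0 : ℝ) < b ^ 11 := by positivity
  obtain ⟨v', hv', v1, v2, v3⟩ := geo_box hB h (s1 := 1 / b ^ 11) (s2 := 1 / b ^ 11)
    (s3 := 1 / b ^ 11) (by positivity) (by rw [div_le_one hL0]; exact hL) (by positivity)
    (by rw [div_le_one hL0]; exact hL)
    (by
      have e : 1 / b ^ 11 * (1 / b ^ 11) * (1 / b ^ 11) * b ^ 276 = b ^ 243 := by
        have e1 : b ^ 276 = b ^ 11 * b ^ 11 * b ^ 11 * b ^ 243 := by rw [← pow_add, ← pow_add, ← pow_add]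
        rw [e1]
        field_simp
      rw [e]
      have k1 : b ^ 243 = b ^ 3 * b ^ 240 := by rw [← pow_add]
      rw [k1]
      have k2 : (4 : ℝ) ≤ b ^ 3 := by
        have : b ^ 1 ≤ b ^ 3 := StF.pw h (by norm_num)
        rw [pow_one] at this; linarith
      have k3 := StF.d240 h
      have k4 := StF.d0 h
      calc 4 * |(det y : ℝ)| ≤ b ^ 3 * b ^ 240 := by gcongr
        _ = _ := rfl)
  obtain ⟨n, v, hn, hnv, hbez⟩ := geo_prim v' hv'
  have hn' : (1 : ℝ) ≤ |(n : ℝ)| := by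
    have : (1 : ℝ) ≤ n := by exact_mod_cast hn
    exact this.trans (le_abs_self _)
  have a1 : |(v.a : ℝ)| ≤ |(v'.a : ℝ)| := by
    have : (v'.a : ℝ) = n * v.a := by rw [hnv, a_lin]; push_cast; ring
    rw [this, abs_mul]
    nlinarith [abs_nonneg (v.a : ℝ)]
  have a2 : |be (tt y) v| ≤ |be (tt y) v'| := by
    have : be (tt y) v' = n * be (tt y) v := by rw [hnv, be_lin]; push_cast; ring
    rw [this, abs_mul]
    nlinarith [abs_nonneg (be (tt y) v)]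
  have a3 : |ga (tt y) v| ≤ |ga (tt y) v'| := by
    have : ga (tt y) v' = n * ga (tt y) v := by rw [hnv, ga_lin]; push_cast; ring
    rw [this, abs_mul]
    nlinarith [abs_nonneg (ga (tt y) v)]
  have w1 : |(v.a : ℝ)| * (b ^ 3 * (det y : ℝ) ^ 2) * b ^ 11 ≤ (y.a : ℝ) ^ 2 := by
    have k1 : |(v.a : ℝ)| * (b ^ 3 * (det y : ℝ) ^ 2) ≤ 1 / b ^ 11 * (y.a : ℝ) ^ 2 :=
      (mul_le_mul_of_nonneg_right a1 (by positivity)).trans v1
    rw [div_mul_eq_mul_div, one_mul, le_div_iff₀ hL0] at k1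
    exact k1
  have w2 : |be (tt y) v| * (b ^ 202 * |(det y : ℝ)|) * b ^ 11 ≤ 1 := by
    have k1 : |be (tt y) v| * (b ^ 202 * |(det y : ℝ)|) ≤ 1 / b ^ 11 :=
      (mul_le_mul_of_nonneg_right a2 (by positivity)).trans v2
    rw [le_div_iff₀ hL0] at k1
    exact k1
  have w3 : |ga (tt y) v| * (y.a : ℝ) ^ 2 * b ^ 11 ≤ b ^ 481 * (det y : ℝ) ^ 2 := by
    have k1 : |ga (tt y) v| * (y.a : ℝ) ^ 2 ≤ 1 / b ^ 11 * (b ^ 481 * (det y : ℝ) ^ 2) :=
      (mul_le_mul_of_nonneg_right a3 (by positivity)).trans v3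
    rw [div_mul_eq_mul_div, one_mul, le_div_iff₀ hL0] at k1
    exact k1
  rcases le_or_gt 0 v.a with h0 | h0
  · exact ⟨v, h0, hbez, w1, w2, w3⟩
  · obtain ⟨p, q, r, hpqr⟩ := hbez
    refine ⟨neg v, ?_, ⟨-p, -q, -r, ?_⟩, ?_, ?_, ?_⟩
    · simp only [neg]; omega
    · simp only [neg]; linarith
    · have : |(((neg v).a : ℤ) : ℝ)| = |(v.a : ℝ)| := by simp [neg]
      rw [this]; exact w1
    · rw [be_neg, abs_neg]; exact w2
    · rw [ga_neg, abs_neg]; exact w3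


theorem geo_mult {v u : V3} (t : ℝ) (hbez : ∃ x y z : ℤ, x * v.a + y * v.b + z * v.c = 1)
    (hc : cross v u = 0) (hu : u ≠ 0) :
    ∃ j : ℤ, (1 : ℝ) ≤ |(j : ℝ)| ∧ |(u.a : ℝ)| = |(j : ℝ)| * |(v.a : ℝ)| ∧
      |be t u| = |(j : ℝ)| * |be t v| ∧ |ga t u| = |(j : ℝ)| * |ga t v| := by
  obtain ⟨j, hj⟩ := geo_par v u hbez ((cross_swap u v).mpr hc)
  refine ⟨j, ?_, ?_, ?_, ?_⟩
  · have : j ≠ 0 := by
      rintro rfl
      apply hu
      rw [hj]
      ext <;> simp [lin, zero_a, zero_b, zero_c]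
    have := Int.one_le_abs this
    exact_mod_cast this
  · rw [← abs_mul]; congr 1; rw [hj, a_lin]; push_cast; ring
  · rw [← abs_mul]; congr 1; rw [hj, be_lin]; push_cast; ring
  · rw [← abs_mul]; congr 1; rw [hj, ga_lin]; push_cast; ring

theorem bez_ne {v : V3} (hbez : ∃ x y z : ℤ, x * v.a + y * v.b + z * v.c = 1) : v ≠ 0 := by
  rintro rfl
  obtain ⟨x, y, z, h⟩ := hbez
  simp [zero_a, zero_b, zero_c] at h

/-- the parameter `1/F = 4d/b^276` -/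
theorem geo_s {i x y b} (h : St i x y b) :
    0 < 4 * |(det y : ℝ)| / b ^ 276 ∧ 4 * |(det y : ℝ)| / b ^ 276 ≤ 4 / b ^ 36 ∧
    4 * |(det y : ℝ)| / b ^ 276 ≤ 1 := by
  have hb := StF.b0 h
  have hb1 := StF.b1 h
  have hbig := StF.big h
  have hd := StF.d0 h
  have h240 := StF.d240 h
  have k1 : 4 * |(det y : ℝ)| / b ^ 276 ≤ 4 / b ^ 36 := by
    rw [div_le_div_iff₀ (by positivity) (by positivity)]
    have e : b ^ 276 = b ^ 240 * b ^ 36 := by rw [← pow_add]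
    rw [e]
    calc 4 * |(det y : ℝ)| * b ^ 36 ≤ 4 * b ^ 240 * b ^ 36 := by gcongr
      _ = 4 * (b ^ 240 * b ^ 36) := by ring
  refine ⟨by positivity, k1, k1.trans ?_⟩
  rw [div_le_one (by positivity)]
  have : b ^ 1 ≤ b ^ 36 := StF.pw h (by norm_num)
  rw [pow_one] at this
  linarith

set_option maxHeartbeats 4000000 in
theorem geo_caseA (hC : Claim1) (hB : Box) {i x y b} (h : St i x y b) {v : V3}
    (hbez : ∃ x y z : ℤ, x * v.a + y * v.b + z * v.c = 1)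
    (hall : ∀ u, InK y b 1 u → cross v u = 0) :
    ∃ z : V3, Cand y z b ∧ i < 6 ∧ |(det z : ℝ)| * b ^ 74 ≤ 17 * (det y : ℝ) ^ 2 := by
  have hb := StF.b0 h
  have hb1 := StF.b1 h
  have hbig := StF.big h
  have hY := StF.Ypos h
  have hd := StF.d0 h
  have hd1 := StF.d1 h
  have e2 : (det y : ℝ) ^ 2 = |(det y : ℝ)| ^ 2 := (sq_abs _).symm
  obtain ⟨s0, s36, s1⟩ := geo_s h
  have hsF : 4 * |(det y : ℝ)| / b ^ 276 * b ^ 276 = 4 * |(det y : ℝ)| := by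
    field_simp
  generalize 4 * |(det y : ℝ)| / b ^ 276 = s at s0 s36 s1 hsF
  have hD : 0 < (det y : ℝ) ^ 2 := by rw [e2]; positivity
  obtain ⟨u1, hu1, p1, p2, p3⟩ := geo_box hB h (s1 := s) (s2 := 1) (s3 := 1) one_pos le_rfl
    one_pos le_rfl (by rw [mul_one, mul_one, hsF])
  obtain ⟨u2, hu2, q1, q2, q3⟩ := geo_box hB h (s1 := 1) (s2 := s) (s3 := 1) s0 s1
    one_pos le_rfl (by rw [mul_one, one_mul, hsF])
  obtain ⟨u3, hu3, r1, r2, r3⟩ := geo_box hB h (s1 := 1) (s2 := 1) (s3 := s) one_pos le_rfl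
    s0 s1 (by rw [one_mul, one_mul, hsF])
  obtain ⟨j1, g1, g2, -, -⟩ := geo_mult (tt y) hbez (hall u1 ⟨p1.trans
    (mul_le_mul_of_nonneg_right s1 (by positivity)), p2, p3⟩) hu1
  obtain ⟨j2, g3, -, g4, -⟩ := geo_mult (tt y) hbez (hall u2 ⟨q1, q2.trans s1, q3⟩) hu2
  obtain ⟨j3, g5, -, -, g6⟩ := geo_mult (tt y) hbez (hall u3 ⟨r1, r2, r3.trans
    (mul_le_mul_of_nonneg_right s1 (by positivity))⟩) hu3
  have a1 : |(v.a : ℝ)| ≤ |(u1.a : ℝ)| := by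
    rw [g2]; nlinarith [abs_nonneg (v.a : ℝ)]
  have a2 : |be (tt y) v| ≤ |be (tt y) u2| := by
    rw [g4]; nlinarith [abs_nonneg (be (tt y) v)]
  have a3 : |ga (tt y) v| ≤ |ga (tt y) u3| := by
    rw [g6]; nlinarith [abs_nonneg (ga (tt y) v)]
  have v1 : |(v.a : ℝ)| * (b ^ 3 * (det y : ℝ) ^ 2) ≤ s * (y.a : ℝ) ^ 2 :=
    (mul_le_mul_of_nonneg_right a1 (by positivity)).trans p1
  have v2 : |be (tt y) v| * (b ^ 202 * |(det y : ℝ)|) ≤ s :=
    (mul_le_mul_of_nonneg_right a2 (by positivity)).trans q2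
  have v3 : |ga (tt y) v| * (y.a : ℝ) ^ 2 ≤ s * (b ^ 481 * (det y : ℝ) ^ 2) :=
    (mul_le_mul_of_nonneg_right a3 (by positivity)).trans r3
  have hb80 : (1 : ℝ) ≤ b ^ 80 := one_le_pow₀ hb1
  have hsmall : s * s ^ 2 * b ^ 79 < 3 / 4 := by
    have k1 : s * s ^ 2 * b ^ 79 ≤ (4 / b ^ 36) * (4 / b ^ 36) ^ 2 * b ^ 79 := by gcongr
    have k2 : (4 / b ^ 36) * (4 / b ^ 36) ^ 2 * b ^ 79 = 64 / b ^ 29 := by
      have e : b ^ 79 * b ^ 29 = b ^ 36 * b ^ 36 * b ^ 36 := by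
        rw [← pow_add, ← pow_add, ← pow_add]
      rw [eq_div_iff (by positivity)]
      have e3 : (4 / b ^ 36) * (4 / b ^ 36) ^ 2 * b ^ 79 * b ^ 29 =
          (4 / b ^ 36) * (4 / b ^ 36) ^ 2 * (b ^ 79 * b ^ 29) := by ring
      rw [e3, e]
      field_simp
      norm_num
    have k3 : 64 / b ^ 29 < 3 / 4 := by
      rw [div_lt_iff₀ (by positivity)]
      have : b ^ 1 ≤ b ^ 29 := StF.pw h (by norm_num)
      rw [pow_one] at this
      linarith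
    rw [k2] at k1
    linarith
  obtain ⟨z, hz, hdz⟩ := geo_one hC h (bez_ne hbez)
    (v1.trans (by nlinarith [sq_nonneg (y.a : ℝ)])) v2 (by linarith) v3 (by linarith) hsmall
  -- determinant
  have hdet : |(det z : ℝ)| * b ^ 74 ≤ 17 * (det y : ℝ) ^ 2 := by
    rw [hdz]
    have k1 := geo_det (tt y) v
    have k2 : |(v.a : ℝ)| * |ga (tt y) v| * b ^ 74 ≤ 16 * (det y : ℝ) ^ 2 := by
      have hX : 0 < (b ^ 3 * (det y : ℝ) ^ 2) * (y.a : ℝ) ^ 2 * (b ^ 276) ^ 2 := by positivity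
      refine le_of_mul_le_mul_right ?_ hX
      have e5 : b ^ 481 * b ^ 74 = b ^ 3 * (b ^ 276 * b ^ 276) := by
        rw [← pow_add, ← pow_add, ← pow_add]
      calc |(v.a : ℝ)| * |ga (tt y) v| * b ^ 74 *
            ((b ^ 3 * (det y : ℝ) ^ 2) * (y.a : ℝ) ^ 2 * (b ^ 276) ^ 2)
          = (|(v.a : ℝ)| * (b ^ 3 * (det y : ℝ) ^ 2)) * (|ga (tt y) v| * (y.a : ℝ) ^ 2) *
            (b ^ 74 * (b ^ 276) ^ 2) := by ring
        _ ≤ (s * (y.a : ℝ) ^ 2) * (s * (b ^ 481 * (det y : ℝ) ^ 2)) *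
            (b ^ 74 * (b ^ 276) ^ 2) := by gcongr
        _ = (s * b ^ 276) ^ 2 * (y.a : ℝ) ^ 2 * (det y : ℝ) ^ 2 * (b ^ 481 * b ^ 74) := by ring
        _ = 16 * (det y : ℝ) ^ 2 *
            ((b ^ 3 * (det y : ℝ) ^ 2) * (y.a : ℝ) ^ 2 * (b ^ 276) ^ 2) := by
          rw [hsF, e5, mul_pow, ← e2]; ring
    have k3 : be (tt y) v ^ 2 * b ^ 74 ≤ (det y : ℝ) ^ 2 := by
      have m1 : (|be (tt y) v| * (b ^ 202 * |(det y : ℝ)|)) ^ 2 ≤ 1 := by
        have : |be (tt y) v| * (b ^ 202 * |(det y : ℝ)|) ≤ 1 := v2.trans s1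
        exact pow_le_one₀ (by positivity) this
      have m2 : (|be (tt y) v| * (b ^ 202 * |(det y : ℝ)|)) ^ 2 =
          be (tt y) v ^ 2 * b ^ 404 * (det y : ℝ) ^ 2 := by
        rw [mul_pow, mul_pow, sq_abs, sq_abs, ← pow_mul]; ring
      rw [m2] at m1
      have m3 : (1 : ℝ) ≤ (det y : ℝ) ^ 2 := by
        rw [e2]; exact one_le_pow₀ hd1
      have m4 : b ^ 74 ≤ b ^ 404 := StF.pw h (by norm_num)
      have m5 : be (tt y) v ^ 2 * b ^ 74 * 1 ≤ be (tt y) v ^ 2 * b ^ 404 * (det y : ℝ) ^ 2 := by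
        gcongr
      linarith
    have k4 : |(det v : ℝ)| * b ^ 74 ≤
        (|(v.a : ℝ)| * |ga (tt y) v| + be (tt y) v ^ 2) * b ^ 74 := by gcongr
    have k5 : (|(v.a : ℝ)| * |ga (tt y) v| + be (tt y) v ^ 2) * b ^ 74 =
      |(v.a : ℝ)| * |ga (tt y) v| * b ^ 74 + be (tt y) v ^ 2 * b ^ 74 := by ring
    rw [k5] at k4
    linarith
  refine ⟨z, hz, ?_, hdet⟩
  by_contra hi
  have hi6 : i = 6 := by have := h.hi; omega
  have k1 := h.hd
  rw [hi6] at k1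
  norm_num at k1
  have k2 : (1 : ℝ) ≤ |(det z : ℝ)| := by
    have := Int.one_le_abs hz.hdet
    exact_mod_cast this
  have k3 : (det y : ℝ) ^ 2 ≤ b ^ 48 := by
    rw [e2]
    calc |(det y : ℝ)| ^ 2 ≤ (b ^ 24) ^ 2 := by gcongr
      _ = b ^ 48 := by rw [← pow_mul]
  have k4 : b ^ 74 ≤ 17 * b ^ 48 := by
    calc b ^ 74 = 1 * b ^ 74 := by ring
      _ ≤ |(det z : ℝ)| * b ^ 74 := by gcongr
      _ ≤ 17 * (det y : ℝ) ^ 2 := hdet
      _ ≤ _ := by gcongr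
  have k5 : b ^ 74 = b ^ 26 * b ^ 48 := by rw [← pow_add]
  rw [k5] at k4
  have k6 : b ^ 26 ≤ 17 := le_of_mul_le_mul_right k4 (by positivity)
  have k7 : b ^ 1 ≤ b ^ 26 := StF.pw h (by norm_num)
  rw [pow_one] at k7
  linarith

end WHP
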