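import Pool.Agent.WHP.GeoD

/-!
# Geometric step, part E: the case of a large family (b), (c1)
-/

namespace WHP

/-- the family alternative of `GeoStep` -/
def Fam (y : V3) (b : ℝ) : Prop := ∃ (v w : V3) (l0 : ℤ), cross v w ≠ 0 ∧
    |(be (tt y) v) * (ga (tt y) w) - (ga (tt y) v) * (be (tt y) w)| * (y.a : ℝ) ^ 2 ≤
      2 * b ^ 279 * |(det y : ℝ)| ∧
    |(v.a : ℝ) * ga (tt y) w - ga (tt y) v * w.a| ≤ 2 * b ^ 478 ∧
    ∀ l : ℤ, l0 ≤ l → (l : ℝ) ≤ l0 + b ^ 11 / 4 →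
      Cand y (lin l v 1 w) b ∧ |(det (lin l v 1 w) : ℝ)| ≤ 5 * b ^ 478

/-- `v` long: `l ∈ [L_v/2, 3L_v/4]` -/
theorem geo_half (hC : Claim1) {i x y b} (h : St i x y b) {v w : V3} {Lv : ℝ}
    (hva : 0 ≤ v.a) (hwa : 0 ≤ w.a) (hL : b ^ 11 ≤ Lv)
    (hvL1 : |(v.a : ℝ)| * (b ^ 3 * (det y : ℝ) ^ 2) * Lv ≤ (y.a : ℝ) ^ 2)
    (hvL2 : |be (tt y) v| * (b ^ 202 * |(det y : ℝ)|) * Lv ≤ 1)
    (hvL3 : |ga (tt y) v| * (y.a : ℝ) ^ 2 * Lv ≤ b ^ 481 * (det y : ℝ) ^ 2)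
    (hw : InK y b 1 w) (hvw : cross v w ≠ 0)
    (hU : 16 * (y.a : ℝ) ^ 2 ≤ v.a * Lv * (b ^ 402 * (det y : ℝ) ^ 2)) : Fam y b := by
  have hb := StF.b0 h
  have hb1 := StF.b1 h
  have hbig := StF.big h
  have hY := StF.Ypos h
  have hd := StF.d0 h
  have hL11 : b ^ 1 ≤ b ^ 11 := StF.pw h (by norm_num)
  rw [pow_one] at hL11
  have hLv : (1000000 : ℝ) ≤ Lv := by linarith
  have hD : 0 < (det y : ℝ) ^ 2 := by
    have : (det y : ℝ) ≠ 0 := by exact_mod_cast h.hdet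
    positivity
  have c1 := Int.le_ceil (Lv / 2)
  have c2 := Int.ceil_lt_add_one (Lv / 2)
  refine geo_fam hC h (v := v) (w := w) (Lv := Lv) (l0 := ⌈Lv / 2⌉) hva hwa ⟨?_, ?_, ?_⟩
    hvL1 hvL2 hvL3 hw hvw ?_ ?_ ?_
  · rw [one_mul]
    have k : 0 ≤ |(v.a : ℝ)| * (b ^ 3 * (det y : ℝ) ^ 2) := by positivity
    have k2 : |(v.a : ℝ)| * (b ^ 3 * (det y : ℝ) ^ 2) * 1 ≤
      |(v.a : ℝ)| * (b ^ 3 * (det y : ℝ) ^ 2) * Lv := mul_le_mul_of_nonneg_left (by linarith) k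
    linarith
  · have k : 0 ≤ |be (tt y) v| * (b ^ 202 * |(det y : ℝ)|) := by positivity
    have k2 : |be (tt y) v| * (b ^ 202 * |(det y : ℝ)|) * 1 ≤
      |be (tt y) v| * (b ^ 202 * |(det y : ℝ)|) * Lv := mul_le_mul_of_nonneg_left (by linarith) k
    linarith
  · rw [one_mul]
    have k : 0 ≤ |ga (tt y) v| * (y.a : ℝ) ^ 2 := by positivity
    have k2 : |ga (tt y) v| * (y.a : ℝ) ^ 2 * 1 ≤
      |ga (tt y) v| * (y.a : ℝ) ^ 2 * Lv := mul_le_mul_of_nonneg_left (by linarith) k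
    linarith
  · exact Int.ceil_nonneg (by linarith)
  · linarith
  · have hvar : (0 : ℝ) ≤ v.a := by exact_mod_cast hva
    have hwar : (0 : ℝ) ≤ w.a := by exact_mod_cast hwa
    have k1 : (v.a : ℝ) * (Lv / 2) ≤ v.a * ⌈Lv / 2⌉ := mul_le_mul_of_nonneg_left c1 hvar
    have k2 : 0 ≤ b ^ 402 * (det y : ℝ) ^ 2 := by positivity
    have k3 : (v.a : ℝ) * (Lv / 2) * (b ^ 402 * (det y : ℝ) ^ 2) ≤
        ((w.a : ℝ) + ⌈Lv / 2⌉ * v.a) * (b ^ 402 * (det y : ℝ) ^ 2) := by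
      apply mul_le_mul_of_nonneg_right _ k2
      linarith
    have k4 : (v.a : ℝ) * (Lv / 2) * (b ^ 402 * (det y : ℝ) ^ 2) =
      v.a * Lv * (b ^ 402 * (det y : ℝ) ^ 2) / 2 := by ring
    rw [k4] at k3
    have k5 : 0 ≤ (y.a : ℝ) ^ 2 := by positivity
    linarith

/-- case (c1) -/
theorem geo_c1 (hC : Claim1) (hB : Box) {i x y b} (h : St i x y b) {v w : V3}
    (hva : 0 ≤ v.a) (hwa : 0 ≤ w.a)
    (hbez : ∃ x y z : ℤ, x * v.a + y * v.b + z * v.c = 1)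
    (hw : InK y b 1 w) (hvw : cross v w ≠ 0)
    (hsmall : ∀ u, InK y b 1 u → cross v u ≠ 0 →
      |(u.a : ℝ)| * (b ^ 402 * (det y : ℝ) ^ 2) < 4 * (y.a : ℝ) ^ 2)
    (hvs : (v.a : ℝ) * b ^ 11 * (b ^ 402 * (det y : ℝ) ^ 2) < 16 * (y.a : ℝ) ^ 2)
    (hd65 : 65 * |(det y : ℝ)| < b ^ 197) : Fam y b := by
  have hb := StF.b0 h
  have hb1 := StF.b1 h
  have hbig := StF.big h
  have hY := StF.Ypos h
  have hd := StF.d0 h
  have hd1 := StF.d1 h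
  have e2 : (det y : ℝ) ^ 2 = |(det y : ℝ)| ^ 2 := (sq_abs _).symm
  obtain ⟨s0, s36, s1⟩ := geo_s h
  have hsF : 4 * |(det y : ℝ)| / b ^ 276 * b ^ 276 = 4 * |(det y : ℝ)| := by
    field_simp
  generalize 4 * |(det y : ℝ)| / b ^ 276 = s at s0 s36 s1 hsF
  have hD : 0 < (det y : ℝ) ^ 2 := by rw [e2]; positivity
  obtain ⟨u, hu, p1, p2, p3⟩ := geo_box hB h (s1 := 1) (s2 := 1) (s3 := s) one_pos le_rfl
    s0 s1 (by rw [one_mul, one_mul, hsF])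
  have p3' : |ga (tt y) u| * (y.a : ℝ) ^ 2 ≤ 1 * (b ^ 481 * (det y : ℝ) ^ 2) :=
    p3.trans (mul_le_mul_of_nonneg_right s1 (by positivity))
  have huK : InK y b 1 u := ⟨p1, p2, p3'⟩
  have hb80 : (1 : ℝ) ≤ b ^ 80 := one_le_pow₀ hb1
  have hY2 : 0 < (y.a : ℝ) ^ 2 := by positivity
  have hlt : |(u.a : ℝ)| * (det y : ℝ) ^ 2 < (y.a : ℝ) ^ 2 := by
    rcases (mul_nonneg (abs_nonneg (u.a : ℝ)) hD.le).eq_or_lt with h0 | h0
    · rw [← h0]; exact hY2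
    · have k1 : b ^ 1 ≤ b ^ 3 := StF.pw h (by norm_num)
      rw [pow_one] at k1
      have k2 : |(u.a : ℝ)| * (b ^ 3 * (det y : ℝ) ^ 2) = |(u.a : ℝ)| * (det y : ℝ) ^ 2 * b ^ 3 := by
        ring
      rw [k2, one_mul] at p1
      have k3 : |(u.a : ℝ)| * (det y : ℝ) ^ 2 * 1 < |(u.a : ℝ)| * (det y : ℝ) ^ 2 * b ^ 3 :=
        mul_lt_mul_of_pos_left (by linarith) h0
      linarith
  have hdet : det u ≠ 0 := geo_nz hC h hu hlt (p2.trans (by norm_num))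
    (p3'.trans (mul_le_mul_of_nonneg_right (by linarith) (by positivity)))
  have hdet1 : (1 : ℝ) ≤ |(det u : ℝ)| := by
    have := Int.one_le_abs hdet
    exact_mod_cast this
  -- `|u₀| > 4U₀`
  have hbigu : 16 * (y.a : ℝ) ^ 2 < |(u.a : ℝ)| * (b ^ 402 * (det y : ℝ) ^ 2) := by
    by_contra hcon
    push Not at hcon
    have k1 := geo_det (tt y) u
    have k2 : |(u.a : ℝ)| * |ga (tt y) u| * 65 ≤ 64 := by
      have hX : 0 < (b ^ 402 * (det y : ℝ) ^ 2) * (y.a : ℝ) ^ 2 * b ^ 276 := by positivity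
      refine le_of_mul_le_mul_right ?_ hX
      have e5 : b ^ 197 * b ^ 481 = b ^ 402 * b ^ 276 := by
        rw [← pow_add, ← pow_add]
      calc |(u.a : ℝ)| * |ga (tt y) u| * 65 * ((b ^ 402 * (det y : ℝ) ^ 2) * (y.a : ℝ) ^ 2 * b ^ 276)
          = (|(u.a : ℝ)| * (b ^ 402 * (det y : ℝ) ^ 2)) * (|ga (tt y) u| * (y.a : ℝ) ^ 2) *
            (65 * b ^ 276) := by ring
        _ ≤ (16 * (y.a : ℝ) ^ 2) * (s * (b ^ 481 * (det y : ℝ) ^ 2)) * (65 * b ^ 276) := by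
            gcongr
        _ = 16 * (y.a : ℝ) ^ 2 * (b ^ 481 * (det y : ℝ) ^ 2) * 65 * (s * b ^ 276) := by ring
        _ = 64 * (y.a : ℝ) ^ 2 * (b ^ 481 * (det y : ℝ) ^ 2) * (65 * |(det y : ℝ)|) := by
            rw [hsF]; ring
        _ ≤ 64 * (y.a : ℝ) ^ 2 * (b ^ 481 * (det y : ℝ) ^ 2) * b ^ 197 := by gcongr
        _ = 64 * (y.a : ℝ) ^ 2 * (det y : ℝ) ^ 2 * (b ^ 197 * b ^ 481) := by ring
        _ = _ := by rw [e5]; ring
    have k3 : be (tt y) u ^ 2 * 100 ≤ 1 := by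
      have m1 : |be (tt y) u| * 100 ≤ 1 := by
        have : (100 : ℝ) ≤ b ^ 202 * |(det y : ℝ)| := by
          have m2 : b ^ 1 ≤ b ^ 202 := StF.pw h (by norm_num)
          rw [pow_one] at m2
          have m3 : b ^ 202 * 1 ≤ b ^ 202 * |(det y : ℝ)| := by gcongr
          linarith
        have m4 := abs_nonneg (be (tt y) u)
        have m5 : |be (tt y) u| * 100 ≤ |be (tt y) u| * (b ^ 202 * |(det y : ℝ)|) :=
          mul_le_mul_of_nonneg_left this m4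
        linarith
      rw [← sq_abs]
      have m4 := abs_nonneg (be (tt y) u)
      nlinarith
    linarith
  have hpar : cross v u = 0 := by
    by_contra hne
    have := hsmall u huK hne
    linarith
  obtain ⟨j, j1, j2, j3, j4⟩ := geo_mult (tt y) hbez hpar hu
  have hvar : (0 : ℝ) ≤ v.a := by exact_mod_cast hva
  have hvabs : |(v.a : ℝ)| = v.a := abs_of_nonneg hvar
  have hjL : b ^ 11 ≤ |(j : ℝ)| := by
    by_contra hcon
    push Not at hcon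
    rw [j2, hvabs] at hbigu
    have k1 : |(j : ℝ)| * v.a * (b ^ 402 * (det y : ℝ) ^ 2) ≤
        v.a * b ^ 11 * (b ^ 402 * (det y : ℝ) ^ 2) := by
      apply mul_le_mul_of_nonneg_right _ (by positivity)
      rw [mul_comm]
      exact mul_le_mul_of_nonneg_left hcon.le hvar
    linarith
  refine geo_half hC h hva hwa hjL ?_ ?_ ?_ hw hvw ?_
  · rw [one_mul] at p1
    calc |(v.a : ℝ)| * (b ^ 3 * (det y : ℝ) ^ 2) * |(j : ℝ)|
        = |(j : ℝ)| * |(v.a : ℝ)| * (b ^ 3 * (det y : ℝ) ^ 2) := by ring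
      _ = |(u.a : ℝ)| * (b ^ 3 * (det y : ℝ) ^ 2) := by rw [j2]
      _ ≤ _ := p1
  · calc |be (tt y) v| * (b ^ 202 * |(det y : ℝ)|) * |(j : ℝ)|
        = |(j : ℝ)| * |be (tt y) v| * (b ^ 202 * |(det y : ℝ)|) := by ring
      _ = |be (tt y) u| * (b ^ 202 * |(det y : ℝ)|) := by rw [j3]
      _ ≤ _ := p2
  · rw [one_mul] at p3'
    calc |ga (tt y) v| * (y.a : ℝ) ^ 2 * |(j : ℝ)|
        = |(j : ℝ)| * |ga (tt y) v| * (y.a : ℝ) ^ 2 := by ring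
      _ = |ga (tt y) u| * (y.a : ℝ) ^ 2 := by rw [j4]
      _ ≤ _ := p3'
  · rw [j2, hvabs] at hbigu
    have : (v.a : ℝ) * |(j : ℝ)| = |(j : ℝ)| * v.a := mul_comm _ _
    rw [this]
    exact hbigu.le

end WHP
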