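import Pool.Agent.WHP.GeoE

/-!
# M4: the geometric step
-/

namespace WHP

set_option maxHeartbeats 4000000 in
/-- case (c2) -/
theorem geo_c2 (hC : Claim1) {i x y b} (h : St i x y b) {v w : V3}
    (hv : InK y b 1 v) (hw : InK y b 1 w) (hvw : cross v w ≠ 0)
    (hws : |(w.a : ℝ)| * (b ^ 402 * (det y : ℝ) ^ 2) ≤ 4 * (y.a : ℝ) ^ 2)
    (hvs : |(v.a : ℝ)| * (b ^ 402 * (det y : ℝ) ^ 2) ≤ (y.a : ℝ) ^ 2)
    (hd65 : b ^ 197 ≤ 65 * |(det y : ℝ)|) :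
    ∃ z : V3, Cand y z b ∧ i ≤ 1 ∧ |(det z : ℝ)| ≤ 200 * b ^ 239 := by
  have hb := StF.b0 h
  have hb1 := StF.b1 h
  have hbig := StF.big h
  have hY := StF.Ypos h
  have hd := StF.d0 h
  have hd1 := StF.d1 h
  have e2 : (det y : ℝ) ^ 2 = |(det y : ℝ)| ^ 2 := (sq_abs _).symm
  have hD : 0 < (det y : ℝ) ^ 2 := by rw [e2]; positivity
  have hb80 : (1 : ℝ) ≤ b ^ 80 := one_le_pow₀ hb1
  have hb80' : b ≤ b ^ 80 := by
    have : b ^ 1 ≤ b ^ 80 := StF.pw h (by norm_num)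
    rwa [pow_one] at this
  have hI0 : 0 < ⌈b ^ 80⌉₊ := Nat.ceil_pos.mpr (by linarith)
  have hI1 := Nat.le_ceil (b ^ 80)
  have hI2 := (Nat.ceil_lt_add_one (by linarith : (0 : ℝ) ≤ b ^ 80)).le
  obtain ⟨p, q, hpq, hp, hq, hbe⟩ := geo_dir (p := be (tt y) v) (q := be (tt y) w)
    (B := 1 / (b ^ 202 * |(det y : ℝ)|))
    (by rw [le_div_iff₀ (by positivity)]; exact hv.h2)
    (by rw [le_div_iff₀ (by positivity)]; exact hw.h2) hI0
  set I : ℝ := (⌈b ^ 80⌉₊ : ℝ) with hI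
  have hIpos : 0 < I := by linarith
  have hI3 : I ≤ 2 * b ^ 80 := by linarith
  set u := lin p v q w with hu
  have hu0 : u ≠ 0 := lin_ne_zero hvw hpq
  rw [← be_lin, ← hu] at hbe
  have hbe2 : |be (tt y) u| * (b ^ 202 * |(det y : ℝ)|) ≤ 1 / I := by
    rw [le_div_iff₀ (by positivity)] at hbe
    rw [le_div_iff₀ hIpos]
    linarith
  have hga : |ga (tt y) u| * (y.a : ℝ) ^ 2 ≤ (2 * I) * (b ^ 481 * (det y : ℝ) ^ 2) := by
    have k1 : |ga (tt y) u| ≤ I * |ga (tt y) v| + I * |ga (tt y) w| := by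
      rw [hu, ga_lin]
      refine (abs_add_le _ _).trans ?_
      rw [abs_mul, abs_mul]
      gcongr
    calc |ga (tt y) u| * (y.a : ℝ) ^ 2
        ≤ (I * |ga (tt y) v| + I * |ga (tt y) w|) * (y.a : ℝ) ^ 2 := by gcongr
      _ = I * (|ga (tt y) v| * (y.a : ℝ) ^ 2) + I * (|ga (tt y) w| * (y.a : ℝ) ^ 2) := by ring
      _ ≤ I * (1 * (b ^ 481 * (det y : ℝ) ^ 2)) + I * (1 * (b ^ 481 * (det y : ℝ) ^ 2)) := by
          have m1 := hv.h3
          have m2 := hw.h3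
          gcongr
      _ = _ := by ring
  have hua : |(u.a : ℝ)| * (b ^ 402 * (det y : ℝ) ^ 2) ≤ 5 * I * (y.a : ℝ) ^ 2 := by
    have k1 : |(u.a : ℝ)| ≤ I * |(v.a : ℝ)| + I * |(w.a : ℝ)| := by
      rw [hu, a_lin]
      push_cast
      refine (abs_add_le _ _).trans ?_
      rw [abs_mul, abs_mul]
      gcongr
    calc |(u.a : ℝ)| * (b ^ 402 * (det y : ℝ) ^ 2)
        ≤ (I * |(v.a : ℝ)| + I * |(w.a : ℝ)|) * (b ^ 402 * (det y : ℝ) ^ 2) := by gcongr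
      _ = I * (|(v.a : ℝ)| * (b ^ 402 * (det y : ℝ) ^ 2)) +
          I * (|(w.a : ℝ)| * (b ^ 402 * (det y : ℝ) ^ 2)) := by ring
      _ ≤ I * (y.a : ℝ) ^ 2 + I * (4 * (y.a : ℝ) ^ 2) := by gcongr
      _ = _ := by ring
  have hu1 : |(u.a : ℝ)| * (b ^ 3 * (det y : ℝ) ^ 2) ≤ (y.a : ℝ) ^ 2 := by
    have hX : 0 < b ^ 399 := by positivity
    refine le_of_mul_le_mul_right ?_ hX
    have e5 : b ^ 3 * b ^ 399 = b ^ 402 := by rw [← pow_add]
    have e6 : b ^ 399 = b ^ 319 * b ^ 80 := by rw [← pow_add]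
    have k0 : b ^ 1 ≤ b ^ 319 := StF.pw h (by norm_num)
    rw [pow_one] at k0
    calc |(u.a : ℝ)| * (b ^ 3 * (det y : ℝ) ^ 2) * b ^ 399
        = |(u.a : ℝ)| * ((b ^ 3 * b ^ 399) * (det y : ℝ) ^ 2) := by ring
      _ = |(u.a : ℝ)| * (b ^ 402 * (det y : ℝ) ^ 2) := by rw [e5]
      _ ≤ 5 * I * (y.a : ℝ) ^ 2 := hua
      _ ≤ 5 * (2 * b ^ 80) * (y.a : ℝ) ^ 2 := by gcongr
      _ = (10 * b ^ 80) * (y.a : ℝ) ^ 2 := by ring
      _ ≤ (b ^ 319 * b ^ 80) * (y.a : ℝ) ^ 2 := by gcongr; linarith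
      _ = (y.a : ℝ) ^ 2 * b ^ 399 := by rw [e6]; ring
  have hIinv : 1 / I ≤ 1 := by
    rw [div_le_one hIpos]; linarith
  have hval : (2 * I) * (1 / I) ^ 2 * b ^ 79 < 3 / 4 := by
    have k1 : (2 * I) * (1 / I) ^ 2 * b ^ 79 = 2 * b ^ 79 / I := by
      field_simp
    rw [k1, div_lt_iff₀ hIpos]
    have k2 : b ^ 80 = b * b ^ 79 := by ring
    have k3 : 0 < b ^ 79 := by positivity
    have k4 : 8 * b ^ 79 < b * b ^ 79 := by
      apply mul_lt_mul_of_pos_right _ k3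
      linarith
    linarith
  obtain ⟨z, hz, hdz⟩ := geo_one hC h hu0 hu1 hbe2 (by linarith) hga (by linarith) hval
  refine ⟨z, hz, ?_, ?_⟩
  · by_contra hi
    have hi2 : 2 ≤ i := by omega
    have k1 : |(det y : ℝ)| ≤ b ^ 168 := h.hd.trans (StF.pw h (by omega))
    have k2 : b ^ 197 ≤ 65 * b ^ 168 := by linarith
    have k3 : b ^ 197 = b ^ 29 * b ^ 168 := by rw [← pow_add]
    rw [k3] at k2
    have k4 : b ^ 29 ≤ 65 := le_of_mul_le_mul_right k2 (by positivity)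
    have k5 : b ^ 1 ≤ b ^ 29 := StF.pw h (by norm_num)
    rw [pow_one] at k5
    linarith
  · rw [hdz]
    have k1 := geo_det (tt y) u
    have k2 : |(u.a : ℝ)| * |ga (tt y) u| ≤ 40 * b ^ 239 := by
      have hX : 0 < (b ^ 402 * (det y : ℝ) ^ 2) * (y.a : ℝ) ^ 2 := by positivity
      refine le_of_mul_le_mul_right ?_ hX
      have e5 : b ^ 80 * b ^ 80 * b ^ 481 = b ^ 239 * b ^ 402 := by
        rw [← pow_add, ← pow_add, ← pow_add]
      calc |(u.a : ℝ)| * |ga (tt y) u| * ((b ^ 402 * (det y : ℝ) ^ 2) * (y.a : ℝ) ^ 2)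
          = (|(u.a : ℝ)| * (b ^ 402 * (det y : ℝ) ^ 2)) *
            (|ga (tt y) u| * (y.a : ℝ) ^ 2) := by ring
        _ ≤ (5 * I * (y.a : ℝ) ^ 2) * ((2 * I) * (b ^ 481 * (det y : ℝ) ^ 2)) := by gcongr
        _ ≤ (5 * (2 * b ^ 80) * (y.a : ℝ) ^ 2) *
            ((2 * (2 * b ^ 80)) * (b ^ 481 * (det y : ℝ) ^ 2)) := by gcongr
        _ = 40 * (y.a : ℝ) ^ 2 * (det y : ℝ) ^ 2 * (b ^ 80 * b ^ 80 * b ^ 481) := by ring
        _ = _ := by rw [e5]; ring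
    have k3 : be (tt y) u ^ 2 ≤ 1 / 4 := by
      have m1 := hz.hbe
      have m2 : |be (tt y) u| ≤ 1 / 2 := geo_be h (hbe2.trans (by linarith))
      rw [← sq_abs]
      have m3 := abs_nonneg (be (tt y) u)
      nlinarith
    have k4 : (1 : ℝ) ≤ b ^ 239 := one_le_pow₀ hb1
    linarith

set_option maxRecDepth 4000 in
theorem geoStep (hC : Claim1) (hB : Box) : GeoStep := by
  intro i x y b h
  have hb := StF.b0 h
  have hb1 := StF.b1 h
  have hbig := StF.big h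
  have hY := StF.Ypos h
  have hL11 : b ^ 1 ≤ b ^ 11 := StF.pw h (by norm_num)
  rw [pow_one] at hL11
  have hY2 : 0 < (y.a : ℝ) ^ 2 := by positivity
  obtain ⟨v, hva, hbez, v1, v2, v3⟩ := geo_v hB h
  have hvar : (0 : ℝ) ≤ v.a := by exact_mod_cast hva
  have hvabs : |(v.a : ℝ)| = v.a := abs_of_nonneg hvar
  by_cases hall : ∀ u, InK y b 1 u → cross v u = 0
  · obtain ⟨z, hz, hi, hdz⟩ := geo_caseA hC hB h hbez hall
    exact Or.inl ⟨z, hz, hi, Or.inl hdz⟩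
  push Not at hall
  -- InK for v
  have hvK : InK y b 1 v := by
    refine ⟨?_, ?_, ?_⟩
    · rw [one_mul]
      have k : 0 ≤ |(v.a : ℝ)| * (b ^ 3 * (det y : ℝ) ^ 2) := by positivity
      have k2 : |(v.a : ℝ)| * (b ^ 3 * (det y : ℝ) ^ 2) * 1 ≤
        |(v.a : ℝ)| * (b ^ 3 * (det y : ℝ) ^ 2) * b ^ 11 :=
          mul_le_mul_of_nonneg_left (by linarith) k
      linarith
    · have k : 0 ≤ |be (tt y) v| * (b ^ 202 * |(det y : ℝ)|) := by positivity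
      have k2 : |be (tt y) v| * (b ^ 202 * |(det y : ℝ)|) * 1 ≤
        |be (tt y) v| * (b ^ 202 * |(det y : ℝ)|) * b ^ 11 :=
          mul_le_mul_of_nonneg_left (by linarith) k
      linarith
    · rw [one_mul]
      have k : 0 ≤ |ga (tt y) v| * (y.a : ℝ) ^ 2 := by positivity
      have k2 : |ga (tt y) v| * (y.a : ℝ) ^ 2 * 1 ≤
        |ga (tt y) v| * (y.a : ℝ) ^ 2 * b ^ 11 := mul_le_mul_of_nonneg_left (by linarith) k
      linarith
  by_cases ha : ∃ w, InK y b 1 w ∧ cross v w ≠ 0 ∧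
      4 * (y.a : ℝ) ^ 2 ≤ |(w.a : ℝ)| * (b ^ 402 * (det y : ℝ) ^ 2)
  · -- case (a)
    obtain ⟨w, hw, hvw, hwU⟩ := ha
    have key : ∀ w : V3, 0 ≤ w.a → InK y b 1 w → cross v w ≠ 0 →
        4 * (y.a : ℝ) ^ 2 ≤ |(w.a : ℝ)| * (b ^ 402 * (det y : ℝ) ^ 2) → Fam y b := by
      intro w hwa hw hvw hwU
      have hwar : (0 : ℝ) ≤ w.a := by exact_mod_cast hwa
      refine geo_fam hC h (v := v) (w := w) (Lv := b ^ 11) (l0 := 0) hva hwa hvK v1 v2 v3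
        hw hvw le_rfl ?_ ?_
      · push_cast
        have : 0 ≤ b ^ 11 := by positivity
        linarith
      · rw [abs_of_nonneg hwar] at hwU
        push_cast
        rw [zero_mul, add_zero]
        exact hwU
    right
    change Fam y b
    rcases le_or_gt 0 w.a with h0 | h0
    · exact key w h0 hw hvw hwU
    · refine key (neg w) ?_ hw.neg (cross_neg hvw) ?_
      · simp only [neg]; omega
      · have : |(((neg w).a : ℤ) : ℝ)| = |(w.a : ℝ)| := by simp [neg]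
        rw [this]; exact hwU
  push Not at ha
  -- a vector `w` with `w₀ ≥ 0`
  obtain ⟨w, hwa, hw, hvw⟩ : ∃ w : V3, 0 ≤ w.a ∧ InK y b 1 w ∧ cross v w ≠ 0 := by
    obtain ⟨w, hw, hvw⟩ := hall
    rcases le_or_gt 0 w.a with h0 | h0
    · exact ⟨w, h0, hw, hvw⟩
    · refine ⟨neg w, ?_, hw.neg, cross_neg hvw⟩
      simp only [neg]; omega
  rcases le_or_gt (16 * (y.a : ℝ) ^ 2) (v.a * b ^ 11 * (b ^ 402 * (det y : ℝ) ^ 2)) with hvb | hvs
  · right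
    change Fam y b
    exact geo_half hC h hva hwa le_rfl v1 v2 v3 hw hvw hvb
  rcases lt_or_ge (65 * |(det y : ℝ)|) (b ^ 197) with hd | hd
  · right
    change Fam y b
    exact geo_c1 hC hB h hva hwa hbez hw hvw ha hvs hd
  · left
    obtain ⟨z, hz, hi, hdz⟩ := geo_c2 hC h hvK hw hvw (ha w hw hvw).le
      (by
        rw [hvabs]
        have k0 : 0 ≤ (v.a : ℝ) * (b ^ 402 * (det y : ℝ) ^ 2) :=
          mul_nonneg hvar (mul_nonneg (pow_nonneg hb.le _) (sq_nonneg _))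
        have k1 : (v.a : ℝ) * (b ^ 402 * (det y : ℝ) ^ 2) * 16 ≤
            (v.a : ℝ) * (b ^ 402 * (det y : ℝ) ^ 2) * b ^ 11 :=
          mul_le_mul_of_nonneg_left (by linarith) k0
        have k2 : (v.a : ℝ) * (b ^ 402 * (det y : ℝ) ^ 2) * b ^ 11 =
            v.a * b ^ 11 * (b ^ 402 * (det y : ℝ) ^ 2) := by ring
        rw [k2] at k1
        linarith) hd
    exact ⟨z, hz, by omega, Or.inr ⟨hi, hdz⟩⟩

end WHP
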