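import Pool.Agent.WHP.Stmts

/-!
# Lemma 2 of note 1592 (helper87)
-/

namespace WHP

theorem l2_qr4 {m : ℤ} (hm : 1 ≤ m) : qr m ^ 4 = (m : ℝ) := by
  have h0 : (0 : ℝ) ≤ m := by exact_mod_cast (le_trans zero_le_one hm)
  unfold qr
  rw [← Real.rpow_natCast, ← Real.rpow_mul h0]
  norm_num

theorem l2_qr1 {m : ℤ} (hm : 1 ≤ m) : 1 ≤ qr m := by
  have h1 : (1 : ℝ) ≤ m := by exact_mod_cast hm
  unfold qr
  exact Real.one_le_rpow h1 (by norm_num)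

/-- range II, `M ≠ 0` and `M = 0`. -/
theorem l2_II {Z D z1 z2 : ℤ} (hZ : 0 < Z) (hD : Z * z2 - z1 ^ 2 = D) (hD0 : D ≠ 0)
    {m n : ℤ} {μ : ℝ} (hμ1 : 1 ≤ μ) (hμ : μ ^ 4 = (m : ℝ)) (hbig : (Z : ℝ) < μ ^ 9)
    (hZb : (10 : ℝ) ^ 100 ≤ Z)
    (hII : 2 * |(D : ℝ)| * μ ^ 8 < Z) :
    1 ≤ μ ^ 5 * |(m : ℝ) * ((z1 : ℝ) / Z) - n| := by
  have hZr : (0 : ℝ) < Z := by exact_mod_cast hZ
  have hμ0 : 0 < μ := by linarith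
  set δ : ℝ := (m : ℝ) * ((z1 : ℝ) / Z) - n with hδ
  have hZδ : (Z : ℝ) * δ = z1 * m - Z * n := by
    rw [hδ]; field_simp
  have hDr : (Z : ℝ) * z2 - z1 ^ 2 = D := by exact_mod_cast hD
  set M : ℤ := Z * n ^ 2 - 2 * z1 * m * n + z2 * m ^ 2 with hM
  have hMr : (Z : ℝ) * M = (Z * δ) ^ 2 + D * (m : ℝ) ^ 2 := by
    rw [hZδ, ← hDr, hM]; push_cast; ring
  have hd1 : (1 : ℝ) ≤ |(D : ℝ)| := by
    have : (1 : ℤ) ≤ |D| := Int.one_le_abs hD0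
    exact_mod_cast this
  have hm8 : (m : ℝ) ^ 2 = μ ^ 8 := by rw [← hμ]; ring
  suffices h : 1 ≤ μ ^ 10 * δ ^ 2 by
    have h2 : 1 ≤ (μ ^ 5 * |δ|) ^ 2 := by
      rw [mul_pow, sq_abs]; linarith [show (μ ^ 5) ^ 2 * δ ^ 2 = μ ^ 10 * δ ^ 2 by ring]
    have h3 : 0 ≤ μ ^ 5 * |δ| := by positivity
    by_contra hlt
    push Not at hlt
    have : (μ ^ 5 * |δ|) ^ 2 < 1 := by nlinarith
    linarith
  by_cases hM0 : M = 0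
  · have h1 : (Z : ℝ) ^ 2 * δ ^ 2 = - D * (m : ℝ) ^ 2 := by
      rw [hM0] at hMr; push_cast at hMr; nlinarith [hMr]
    have h2 : (m : ℝ) ^ 2 ≤ (Z : ℝ) ^ 2 * δ ^ 2 := by
      have hmp : 0 < (m : ℝ) ^ 2 := by rw [hm8]; positivity
      have h3 : 0 ≤ - (D : ℝ) * (m : ℝ) ^ 2 := by rw [← h1]; positivity
      have h4 : 0 ≤ - (D : ℝ) := nonneg_of_mul_nonneg_left h3 hmp
      rw [abs_of_nonpos (by linarith)] at hd1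
      rw [h1]; nlinarith
    have h5 : (Z : ℝ) ^ 2 ≤ μ ^ 18 := by
      have : (Z : ℝ) ^ 2 ≤ (μ ^ 9) ^ 2 := pow_le_pow_left₀ hZr.le hbig.le 2
      calc (Z : ℝ) ^ 2 ≤ (μ ^ 9) ^ 2 := this
        _ = μ ^ 18 := by ring
    have h6 : (Z : ℝ) ^ 2 * 1 ≤ (Z : ℝ) ^ 2 * (μ ^ 10 * δ ^ 2) := by
      calc (Z : ℝ) ^ 2 * 1 ≤ μ ^ 18 := by linarith
        _ = μ ^ 10 * (m : ℝ) ^ 2 := by rw [hm8]; ring
        _ ≤ μ ^ 10 * ((Z : ℝ) ^ 2 * δ ^ 2) := by gcongr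
        _ = (Z : ℝ) ^ 2 * (μ ^ 10 * δ ^ 2) := by ring
    exact le_of_mul_le_mul_left h6 (by positivity)
  · have hM1 : (1 : ℝ) ≤ |(M : ℝ)| := by
      have : (1 : ℤ) ≤ |M| := Int.one_le_abs hM0
      exact_mod_cast this
    have h1 : (Z : ℝ) ≤ (Z : ℝ) ^ 2 * δ ^ 2 + |(D : ℝ)| * (m : ℝ) ^ 2 := by
      calc (Z : ℝ) = Z * 1 := by ring
        _ ≤ Z * |(M : ℝ)| := by gcongr
        _ = |(Z : ℝ) * M| := by rw [abs_mul, abs_of_pos hZr]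
        _ = |(Z * δ) ^ 2 + D * (m : ℝ) ^ 2| := by rw [hMr]
        _ ≤ |(Z * δ) ^ 2| + |D * (m : ℝ) ^ 2| := abs_add_le _ _
        _ = (Z : ℝ) ^ 2 * δ ^ 2 + |(D : ℝ)| * (m : ℝ) ^ 2 := by
            rw [abs_mul (D : ℝ), abs_of_nonneg (sq_nonneg (Z * δ)), abs_of_nonneg (sq_nonneg (m : ℝ))]
            ring
    rw [hm8] at h1
    have h2 : (Z : ℝ) < 2 * ((Z : ℝ) ^ 2 * δ ^ 2) := by nlinarith
    have h3 : 1 < 2 * ((Z : ℝ) * δ ^ 2) := by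
      have : (Z : ℝ) * 1 < Z * (2 * ((Z : ℝ) * δ ^ 2)) := by nlinarith
      exact lt_of_mul_lt_mul_left this hZr.le
    have hμ2 : 2 ≤ μ := by
      by_contra hlt
      push Not at hlt
      have : μ ^ 9 < 2 ^ 9 := pow_lt_pow_left₀ hlt hμ0.le (by norm_num)
      have h10 : (2 : ℝ) ^ 9 ≤ 10 ^ 100 := by norm_num
      linarith
    have hδ2 : 0 < δ ^ 2 := by
      by_contra hn
      have : δ ^ 2 = 0 := le_antisymm (not_lt.1 hn) (sq_nonneg _)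
      rw [this] at h3; norm_num at h3
    calc (1 : ℝ) ≤ 2 * ((Z : ℝ) * δ ^ 2) := h3.le
      _ ≤ μ * ((μ ^ 9) * δ ^ 2) := by gcongr
      _ = μ ^ 10 * δ ^ 2 := by ring

/-- arithmetic of the range III: the transported vector is small. -/
theorem l2_sig {Z d μ σ : ℝ} (hZb : (10 : ℝ) ^ 100 ≤ Z) (hd1 : 1 ≤ d) (hdZ : d ^ 1000 ≤ Z)
    (hμ1 : 1 ≤ μ) (hσ1 : 1 ≤ σ) (hIII : Z ≤ 2 * d * μ ^ 8) (hr : σ ^ 4 * μ ^ 5 ≤ Z) :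
    σ ^ 9 ≤ Z := by
  have hZ0 : 0 < Z := by linarith [show (0 : ℝ) < 10 ^ 100 by positivity]
  have hd9 : (2 * d) ^ 9 ≤ Z := by
    have h1 : d ^ 18 ≤ Z := le_trans (pow_le_pow_right₀ hd1 (by norm_num)) hdZ
    have h2 : ((2 * d) ^ 9) ^ 2 ≤ Z ^ 2 := by
      calc ((2 * d) ^ 9) ^ 2 = 2 ^ 18 * d ^ 18 := by ring
        _ ≤ 10 ^ 100 * Z := by gcongr; norm_num
        _ ≤ Z * Z := by gcongr
        _ = Z ^ 2 := by ring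
    exact le_of_sq_le_sq h2 hZ0.le
  -- `σ^288 * μ^360 ≤ Z^72`, `Z^45 ≤ (2d)^45 μ^360`
  have h3 : (σ ^ 9) ^ 32 * μ ^ 360 ≤ Z ^ 72 := by
    calc (σ ^ 9) ^ 32 * μ ^ 360 = (σ ^ 4 * μ ^ 5) ^ 72 := by ring
      _ ≤ Z ^ 72 := pow_le_pow_left₀ (by positivity) hr 72
  have h4 : Z ^ 45 ≤ (2 * d) ^ 45 * μ ^ 360 := by
    calc Z ^ 45 ≤ (2 * d * μ ^ 8) ^ 45 := pow_le_pow_left₀ hZ0.le hIII 45
      _ = (2 * d) ^ 45 * μ ^ 360 := by ring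
  have h5 : (2 * d) ^ 45 ≤ Z ^ 5 := by
    calc (2 * d) ^ 45 = ((2 * d) ^ 9) ^ 5 := by ring
      _ ≤ Z ^ 5 := pow_le_pow_left₀ (by positivity) hd9 5
  have h6 : (σ ^ 9) ^ 32 * Z ^ 45 ≤ Z ^ 32 * Z ^ 45 := by
    calc (σ ^ 9) ^ 32 * Z ^ 45 ≤ (σ ^ 9) ^ 32 * ((2 * d) ^ 45 * μ ^ 360) := by gcongr
      _ = ((σ ^ 9) ^ 32 * μ ^ 360) * (2 * d) ^ 45 := by ring
      _ ≤ Z ^ 72 * Z ^ 5 := by gcongr
      _ = Z ^ 32 * Z ^ 45 := by ring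
  have h7 : (σ ^ 9) ^ 32 ≤ Z ^ 32 := le_of_mul_le_mul_right h6 (by positivity)
  exact le_of_pow_le_pow_left₀ (by norm_num) hZ0.le h7

/-- arithmetic of the range III: final contradiction. -/
theorem l2_fin {Z d μ σ c : ℝ} (hZb : (10 : ℝ) ^ 100 ≤ Z) (hd1 : 1 ≤ d) (hdZ : d ^ 1000 ≤ Z)
    (hμ1 : 1 ≤ μ) (hσ1 : 1 ≤ σ) (hIII : Z ≤ 2 * d * μ ^ 8) (hr : σ ^ 4 * μ ^ 5 ≤ Z)
    (hc : 1 / 12 ≤ c) (h : c * Z ≤ σ ^ 5 * (d * μ ^ 4)) : False := by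
  have hZ0 : 0 < Z := by linarith [show (0 : ℝ) < 10 ^ 100 by positivity]
  have h1 : (c * Z) ^ 4 * μ ^ 9 ≤ Z ^ 5 * d ^ 4 := by
    calc (c * Z) ^ 4 * μ ^ 9 ≤ (σ ^ 5 * (d * μ ^ 4)) ^ 4 * μ ^ 9 := by gcongr
      _ = (σ ^ 4 * μ ^ 5) ^ 5 * d ^ 4 := by ring
      _ ≤ Z ^ 5 * d ^ 4 := by gcongr
  have h2 : c ^ 4 * μ ^ 9 ≤ Z * d ^ 4 := by
    have : Z ^ 4 * (c ^ 4 * μ ^ 9) ≤ Z ^ 4 * (Z * d ^ 4) := by
      calc Z ^ 4 * (c ^ 4 * μ ^ 9) = (c * Z) ^ 4 * μ ^ 9 := by ring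
        _ ≤ Z ^ 5 * d ^ 4 := h1
        _ = Z ^ 4 * (Z * d ^ 4) := by ring
    exact le_of_mul_le_mul_left this (by positivity)
  have h3 : μ ^ 9 ≤ 12 ^ 4 * (Z * d ^ 4) := by
    have hc4 : (1 / 12 : ℝ) ^ 4 ≤ c ^ 4 := by gcongr
    have : (1 / 12 : ℝ) ^ 4 * μ ^ 9 ≤ Z * d ^ 4 := le_trans (by gcongr) h2
    calc μ ^ 9 = 12 ^ 4 * ((1 / 12 : ℝ) ^ 4 * μ ^ 9) := by ring
      _ ≤ 12 ^ 4 * (Z * d ^ 4) := by gcongr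
  have h4 : Z ^ 9 ≤ Z ^ 8 * (2 ^ 9 * 12 ^ 32 * d ^ 41) := by
    calc Z ^ 9 ≤ (2 * d * μ ^ 8) ^ 9 := by gcongr
      _ = (2 * d) ^ 9 * (μ ^ 9) ^ 8 := by ring
      _ ≤ (2 * d) ^ 9 * (12 ^ 4 * (Z * d ^ 4)) ^ 8 := by gcongr
      _ = Z ^ 8 * (2 ^ 9 * 12 ^ 32 * d ^ 41) := by ring
  have h5 : Z ≤ 2 ^ 9 * 12 ^ 32 * d ^ 41 := by
    have : Z ^ 8 * Z ≤ Z ^ 8 * (2 ^ 9 * 12 ^ 32 * d ^ 41) := by
      calc Z ^ 8 * Z = Z ^ 9 := by ring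
        _ ≤ _ := h4
    exact le_of_mul_le_mul_left this (by positivity)
  have h6 : Z ^ 24 ≤ (10 ^ 40) ^ 24 * Z := by
    calc Z ^ 24 ≤ (2 ^ 9 * 12 ^ 32 * d ^ 41) ^ 24 := by gcongr
      _ = (2 ^ 9 * 12 ^ 32) ^ 24 * d ^ 984 := by ring
      _ ≤ (10 ^ 40) ^ 24 * d ^ 1000 := by
          have ha : (2 : ℝ) ^ 9 * 12 ^ 32 ≤ 10 ^ 40 := by norm_num
          have hb : d ^ 984 ≤ d ^ 1000 := pow_le_pow_right₀ hd1 (by norm_num)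
          gcongr
      _ ≤ (10 ^ 40) ^ 24 * Z := by gcongr
  have h7 : Z ^ 23 ≤ (10 ^ 40) ^ 24 := by
    have : Z ^ 23 * Z ≤ (10 ^ 40) ^ 24 * Z := by
      calc Z ^ 23 * Z = Z ^ 24 := by ring
        _ ≤ _ := h6
    exact le_of_mul_le_mul_right this hZ0
  have h8 : ((10 : ℝ) ^ 100) ^ 23 ≤ Z ^ 23 := by gcongr
  have h9 : ((10 : ℝ) ^ 40) ^ 24 < ((10 : ℝ) ^ 100) ^ 23 := by
    rw [← pow_mul, ← pow_mul]
    exact pow_lt_pow_right₀ (by norm_num) (by norm_num)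
  linarith

theorem lem2 : Lem2 := by
  intro z c hz hD ht0 ht1 hc1 hc2 hdZ hZb hBA m n hm hm9
  by_cases hle : qr m ^ 9 ≤ (z.a : ℝ)
  · exact hBA m n hm hle
  push Not at hle
  have hμ1 : 1 ≤ qr m := l2_qr1 hm
  have hμ4 : qr m ^ 4 = (m : ℝ) := l2_qr4 hm
  set μ : ℝ := qr m with hμ
  have hZr : (0 : ℝ) < z.a := by exact_mod_cast hz
  have hμ0 : 0 < μ := by linarith
  have hd1 : (1 : ℝ) ≤ |(det z : ℝ)| := by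
    have : (1 : ℤ) ≤ |det z| := Int.one_le_abs hD
    exact_mod_cast this
  set d : ℝ := |(det z : ℝ)| with hd
  by_cases hII : 2 * d * μ ^ 8 < z.a
  · have := l2_II (Z := z.a) (D := det z) (z1 := z.b) (z2 := z.c) hz rfl hD (m := m) (n := n)
      hμ1 hμ4 hle hZb hII
    exact le_trans hc2 this
  push Not at hII
  by_contra hcon
  push Not at hcon
  have htt : tt z = (z.b : ℝ) / z.a := rfl
  rw [htt] at hcon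
  set δ : ℝ := (m : ℝ) * ((z.b : ℝ) / z.a) - n with hδ
  have hZδ : (z.a : ℝ) * δ = z.b * m - z.a * n := by
    rw [hδ]; field_simp
  set ρ : ℤ := z.b * m - z.a * n with hρ
  set ρ' : ℤ := z.c * m - z.b * n with hρ'
  have hρr : (ρ : ℝ) = z.a * δ := by rw [hZδ, hρ]; push_cast; ring
  have hkey : (z.b : ℤ) * ρ - z.a * ρ' = - (det z) * m := by
    rw [hρ, hρ', det]; ring
  have hρ0 : ρ ≠ 0 := by
    intro h0
    rw [h0] at hkey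
    have h1 : z.a * ρ' = det z * m := by linarith
    have hm0 : m ≠ 0 := by omega
    have h2 : ρ' ≠ 0 := by
      intro h
      rw [h] at h1
      have : det z * m = 0 := by rw [← h1]; ring
      rcases mul_eq_zero.1 this with h | h
      · exact hD h
      · exact hm0 h
    have h3 : (z.a : ℝ) ≤ d * m := by
      have h4 : (z.a : ℤ) ≤ |det z| * m := by
        calc z.a = z.a * 1 := by ring
          _ ≤ z.a * |ρ'| := by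
              apply mul_le_mul_of_nonneg_left (Int.one_le_abs h2) hz.le
          _ = |z.a * ρ'| := by rw [abs_mul, abs_of_pos hz]
          _ = |det z| * m := by rw [h1, abs_mul, abs_of_pos (by omega : 0 < m)]
      have : ((z.a : ℤ) : ℝ) ≤ ((|det z| * m : ℤ) : ℝ) := by exact_mod_cast h4
      rw [hd]; push_cast at this; exact this
    rw [← hμ4] at h3
    -- `Z^9 ≤ d^9 (μ^9)^4 ≤ d^9 Z^8`
    have h5 : (z.a : ℝ) ^ 8 * z.a ≤ (z.a : ℝ) ^ 8 * d ^ 9 := by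
      calc (z.a : ℝ) ^ 8 * z.a = (z.a : ℝ) ^ 9 := by ring
        _ ≤ (d * μ ^ 4) ^ 9 := by gcongr
        _ = d ^ 9 * (μ ^ 9) ^ 4 := by ring
        _ ≤ d ^ 9 * ((z.a : ℝ) ^ 2) ^ 4 := by gcongr
        _ = (z.a : ℝ) ^ 8 * d ^ 9 := by ring
    have h6 : (z.a : ℝ) ≤ d ^ 9 := le_of_mul_le_mul_left h5 (by positivity)
    have h7 : (z.a : ℝ) ^ 2 ≤ z.a := by
      calc (z.a : ℝ) ^ 2 ≤ (d ^ 9) ^ 2 := by gcongr
        _ = d ^ 18 := by ring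
        _ ≤ d ^ 1000 := pow_le_pow_right₀ hd1 (by norm_num)
        _ ≤ z.a := hdZ
    have h8 : (z.a : ℝ) ≤ 1 := by nlinarith
    have : (1 : ℝ) < 10 ^ 100 := by norm_num
    linarith
  have hr1 : (1 : ℤ) ≤ |ρ| := Int.one_le_abs hρ0
  have hσ1 : 1 ≤ qr |ρ| := l2_qr1 hr1
  have hσ4 : qr |ρ| ^ 4 = ((|ρ| : ℤ) : ℝ) := l2_qr4 hr1
  have hρabs : ((|ρ| : ℤ) : ℝ) = z.a * |δ| := by
    push_cast
    rw [hρr, abs_mul, abs_of_pos hZr]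
  have hr : qr |ρ| ^ 4 * μ ^ 5 ≤ z.a := by
    rw [hσ4, hρabs]
    calc (z.a : ℝ) * |δ| * μ ^ 5 = (z.a : ℝ) * (μ ^ 5 * |δ|) := by ring
      _ ≤ (z.a : ℝ) * 1 := by
          apply mul_le_mul_of_nonneg_left _ hZr.le
          linarith
      _ = (z.a : ℝ) := by ring
  have hσ9 := l2_sig hZb hd1 hdZ hμ1 hσ1 hII hr
  obtain ⟨s, hs, hsρ⟩ : ∃ s : ℤ, |s| = 1 ∧ |ρ| = s * ρ := by
    rcases lt_or_gt_of_ne hρ0 with h | h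
    · exact ⟨-1, by norm_num, by rw [abs_of_neg h]; ring⟩
    · exact ⟨1, by norm_num, by rw [abs_of_pos h]; ring⟩
  have hfin := hBA |ρ| (s * ρ') hr1 hσ9
  have heq : ((|ρ| : ℤ) : ℝ) * tt z - ((s * ρ' : ℤ) : ℝ) = s * (- (det z : ℝ) * m / z.a) := by
    have hk : (z.b : ℝ) * ρ - z.a * ρ' = - (det z) * m := by exact_mod_cast hkey
    rw [hsρ, htt, ← hk]
    push_cast
    field_simp
  have heq2 : |((|ρ| : ℤ) : ℝ) * tt z - ((s * ρ' : ℤ) : ℝ)| = d * μ ^ 4 / z.a := by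
    rw [heq, abs_mul]
    have : |(s : ℝ)| = 1 := by exact_mod_cast hs
    have hmr : |(m : ℝ)| = m := abs_of_pos (by exact_mod_cast (by omega : 0 < m))
    rw [this, abs_div, abs_mul, abs_neg, abs_of_pos hZr, hmr, hμ4]
    ring
  rw [heq2] at hfin
  refine l2_fin hZb hd1 hdZ hμ1 hσ1 hII hr hc1 ?_
  calc c * z.a ≤ (qr |ρ| ^ 5 * (d * μ ^ 4 / z.a)) * z.a := by gcongr
    _ = qr |ρ| ^ 5 * (d * μ ^ 4) := by field_simp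

end WHP
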