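import Pool.Agent.WHP.Stmts

/-!
# Module M6: the polynomials (note 1592, section 5)
-/

namespace WHP

private lemma poly_aux_range (p M f : ℝ) (h0 : 0 ≤ p) (h1 : p ≤ M) :
    0 ≤ p * f + M * ((|f| - f) / 2) ∧ p * f + M * ((|f| - f) / 2) ≤ M * |f| := by
  have hM : 0 ≤ M := h0.trans h1
  rcases le_total 0 f with hf | hf
  · rw [abs_of_nonneg hf]
    have h2 := mul_nonneg h0 hf
    have h3 := mul_nonneg (sub_nonneg.2 h1) hf
    constructor <;> nlinarith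
  · rw [abs_of_nonpos hf]
    have h2 := mul_nonneg h0 (neg_nonneg.2 hf)
    have h3 := mul_nonneg (sub_nonneg.2 h1) (neg_nonneg.2 hf)
    constructor <;> nlinarith

/-- the pigeonhole step -/
private lemma poly_aux_pigeon (Y M : ℕ) (hY : 0 < Y) (hYM : Y ≤ M * M) (b c : ℤ)
    (f1 f2 u : ℝ) (hu : 0 < u) (hS : |f1| + |f2| < u) :
    ∃ p1 p2 : ℤ, (p1 ≠ 0 ∨ p2 ≠ 0) ∧ |p1| ≤ M ∧ |p2| ≤ M ∧ (Y : ℤ) ∣ p1 * b + p2 * c ∧
      |(p1 : ℝ) * f1 + p2 * f2| * M ≤ 2 * u * Y := by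
  classical
  have hM0 : 0 < M := by
    rcases Nat.eq_zero_or_pos M with h | h
    · subst h; omega
    · exact h
  have hMr : (0 : ℝ) < M := by exact_mod_cast hM0
  set K : ℕ := M * M / Y with hK
  have hK1 : 1 ≤ K := Nat.div_pos hYM hY
  have hK2 : K * Y ≤ M * M := Nat.div_mul_le_self _ _
  have hK3 : M * M < Y * (K + 1) := Nat.lt_mul_div_succ _ hY
  set m1 : ℝ := (M : ℝ) * ((|f1| - f1) / 2) with hm1
  set m2 : ℝ := (M : ℝ) * ((|f2| - f2) / 2) with hm2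
  let X : ℕ × ℕ → ℝ := fun q => (q.1 : ℝ) * f1 + m1 + ((q.2 : ℝ) * f2 + m2)
  let F : ℕ × ℕ → ℤ × ℤ := fun q =>
    (⌊(K : ℝ) * X q / (u * M)⌋, ((q.1 : ℤ) * b + (q.2 : ℤ) * c) % (Y : ℤ))
  let s : Finset (ℕ × ℕ) := Finset.range (M + 1) ×ˢ Finset.range (M + 1)
  let t : Finset (ℤ × ℤ) := Finset.Ico (0 : ℤ) K ×ˢ Finset.Ico (0 : ℤ) Y
  have hcard : t.card < s.card := by
    have h1 : t.card = K * Y := by
      simp [t, Finset.card_product]
    have h2 : s.card = (M + 1) * (M + 1) := by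
      simp [s, Finset.card_product]
    rw [h1, h2]
    nlinarith
  have hKr : (0 : ℝ) < K := by exact_mod_cast hK1
  have huM : 0 < u * M := mul_pos hu hMr
  have hX : ∀ q ∈ s, 0 ≤ X q ∧ X q < u * M := by
    intro q hq
    have hq' : q.1 < M + 1 ∧ q.2 < M + 1 := by simpa [s] using hq
    have h1 : (q.1 : ℝ) ≤ M := by exact_mod_cast Nat.lt_succ_iff.1 hq'.1
    have h2 : (q.2 : ℝ) ≤ M := by exact_mod_cast Nat.lt_succ_iff.1 hq'.2
    have r1 := poly_aux_range (q.1 : ℝ) M f1 (by positivity) h1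
    have r2 := poly_aux_range (q.2 : ℝ) M f2 (by positivity) h2
    have h3 : (M : ℝ) * |f1| + M * |f2| < u * M := by
      have := mul_lt_mul_of_pos_left hS hMr
      nlinarith
    constructor
    · show 0 ≤ (q.1 : ℝ) * f1 + m1 + ((q.2 : ℝ) * f2 + m2)
      exact add_nonneg r1.1 r2.1
    · show (q.1 : ℝ) * f1 + m1 + ((q.2 : ℝ) * f2 + m2) < u * M
      exact lt_of_le_of_lt (add_le_add r1.2 r2.2) h3
  have hmaps : ∀ q ∈ s, F q ∈ t := by
    intro q hq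
    obtain ⟨h1, h2⟩ := hX q hq
    have hYz : (0 : ℤ) < Y := by exact_mod_cast hY
    refine Finset.mem_product.2 ⟨Finset.mem_Ico.2 ⟨?_, ?_⟩, Finset.mem_Ico.2 ⟨?_, ?_⟩⟩
    · exact Int.floor_nonneg.2 (by positivity)
    · refine Int.floor_lt.2 ?_
      rw [div_lt_iff₀ huM]
      have := mul_lt_mul_of_pos_left h2 hKr
      simpa using this
    · exact Int.emod_nonneg _ hYz.ne'
    · exact Int.emod_lt_of_pos _ hYz
  obtain ⟨q, hq, q', hq', hne, heq⟩ :=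
    Finset.exists_ne_map_eq_of_card_lt_of_maps_to hcard hmaps
  have hq1 : q.1 < M + 1 ∧ q.2 < M + 1 := by simpa [s] using hq
  have hq2 : q'.1 < M + 1 ∧ q'.2 < M + 1 := by simpa [s] using hq'
  have e1 : ⌊(K : ℝ) * X q / (u * M)⌋ = ⌊(K : ℝ) * X q' / (u * M)⌋ := congrArg Prod.fst heq
  have e2 : ((q.1 : ℤ) * b + (q.2 : ℤ) * c) % (Y : ℤ) =
      ((q'.1 : ℤ) * b + (q'.2 : ℤ) * c) % (Y : ℤ) := congrArg Prod.snd heq
  refine ⟨(q.1 : ℤ) - q'.1, (q.2 : ℤ) - q'.2, ?_, ?_, ?_, ?_, ?_⟩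
  · by_contra hcon
    push Not at hcon
    apply hne
    refine Prod.ext ?_ ?_
    · have := hcon.1; omega
    · have := hcon.2; omega
  · rw [abs_le]; omega
  · rw [abs_le]; omega
  · have h := Int.emod_emod_of_dvd
    have h5 : (Y : ℤ) ∣ ((q.1 : ℤ) * b + (q.2 : ℤ) * c) - ((q'.1 : ℤ) * b + (q'.2 : ℤ) * c) :=
      Int.dvd_of_emod_eq_zero (Int.emod_eq_emod_iff_emod_sub_eq_zero.1 e2)
    have h6 : ((q.1 : ℤ) - q'.1) * b + ((q.2 : ℤ) - q'.2) * c =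
        ((q.1 : ℤ) * b + (q.2 : ℤ) * c) - ((q'.1 : ℤ) * b + (q'.2 : ℤ) * c) := by ring
    rw [h6]; exact h5
  · have h7 := Int.abs_sub_lt_one_of_floor_eq_floor e1
    have h8 : (K : ℝ) * X q / (u * M) - (K : ℝ) * X q' / (u * M) =
        (K : ℝ) / (u * M) * (X q - X q') := by ring
    have h9 : X q - X q' = (((q.1 : ℤ) - q'.1 : ℤ) : ℝ) * f1 + (((q.2 : ℤ) - q'.2 : ℤ) : ℝ) * f2 := by
      show (q.1 : ℝ) * f1 + m1 + ((q.2 : ℝ) * f2 + m2) -
        ((q'.1 : ℝ) * f1 + m1 + ((q'.2 : ℝ) * f2 + m2)) = _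
      push_cast
      ring
    rw [h8, abs_mul, abs_of_pos (div_pos hKr huM), h9] at h7
    set Δ : ℝ := |(((q.1 : ℤ) - q'.1 : ℤ) : ℝ) * f1 + (((q.2 : ℤ) - q'.2 : ℤ) : ℝ) * f2| with hΔ
    have hΔ0 : 0 ≤ Δ := abs_nonneg _
    have h10 : K * Δ < u * M := by
      have := mul_lt_mul_of_pos_left h7 huM
      have e : u * M * ((K : ℝ) / (u * M) * Δ) = K * Δ := by
        field_simp
      rw [e] at this
      simpa using this
    -- `M² ≤ 2 K Y`
    have h11 : (M : ℝ) * M ≤ 2 * K * Y := by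
      have h12 : M * M ≤ 2 * K * Y := by nlinarith
      exact_mod_cast h12
    have hYr : (0 : ℝ) < Y := by exact_mod_cast hY
    have h13 : Δ * M * M ≤ 2 * u * Y * M := by
      have a1 : Δ * (M * M) ≤ Δ * (2 * K * Y) := mul_le_mul_of_nonneg_left h11 hΔ0
      have a2 : 2 * Y * (K * Δ) ≤ 2 * Y * (u * M) :=
        mul_le_mul_of_nonneg_left h10.le (by positivity)
      nlinarith
    exact le_of_mul_le_mul_right h13 hMr

theorem poly : Poly := by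
  intro i j x y z b bz hy hz hc ξ hξ M hM
  have hb : (1000000 : ℝ) ≤ b := hy.hb0
  have hbz : (1000000 : ℝ) ≤ bz := hz.hb0
  have hbp : 0 < b := by linarith
  have hbzp : 0 < bz := by linarith
  have hYi : 0 < y.a := hc.h0
  have hYp : (0 : ℝ) < y.a := by exact_mod_cast hc.h0
  have hZ : bz ^ 1000000 = (z.a : ℝ) := hz.hby
  have hYb : b ^ 1000000 = (y.a : ℝ) := hy.hby
  set w : ℝ := √(z.a : ℝ) with hw
  have hw2 : w = bz ^ 500000 := by
    have h : bz ^ 1000000 = (bz ^ 500000) ^ 2 := by rw [← pow_mul]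
    rw [hw, ← hZ, h, Real.sqrt_sq (pow_nonneg hbzp.le _)]
  have hwp : 0 < w := by rw [hw2]; exact pow_pos hbzp _
  have hww : w * w = z.a := Real.mul_self_sqrt (by rw [← hZ]; exact pow_nonneg hbzp.le _)
  have hb1 : (1 : ℝ) < b := by linarith
  have hbz1 : (1 : ℝ) ≤ bz := by linarith
  -- `b ≤ bz`
  have hbbz : b ≤ bz := by
    by_contra hlt
    push Not at hlt
    have h1 := hc.h1
    rw [← hYb, ← hZ, ← pow_mul] at h1
    have h2 : bz ^ 1000000 * b ^ 1042 ≤ b ^ 1001042 := by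
      have h3 : bz ^ 1000000 ≤ b ^ 1000000 := pow_le_pow_left₀ hbzp.le hlt.le _
      calc bz ^ 1000000 * b ^ 1042 ≤ b ^ 1000000 * b ^ 1042 :=
            mul_le_mul_of_nonneg_right h3 (pow_nonneg hbp.le _)
        _ = b ^ 1001042 := by rw [← pow_add]
    have h4 : b ^ 1001042 < b ^ (1000000 * 2) := pow_lt_pow_right₀ hb1 (by norm_num)
    exact absurd (h1.trans h2) (not_le.2 h4)
  -- `Y ≤ w b^521`
  have hYw : (y.a : ℝ) ≤ w * b ^ 521 := by
    have h1 : (y.a : ℝ) ^ 2 ≤ (w * b ^ 521) ^ 2 := by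
      have h2 : (w * b ^ 521) ^ 2 = (z.a : ℝ) * b ^ 1042 := by
        rw [mul_pow, ← pow_mul, pow_two w, hww]
      rw [h2]; exact hc.h1
    exact le_of_sq_le_sq h1 (mul_nonneg hwp.le (pow_nonneg hbp.le _))
  -- `b Y w ≤ bz ^ 1900000`
  have hbig : b * y.a * w ≤ bz ^ 1900000 := by
    have h1 : b * y.a * w ≤ b * (w * b ^ 521) * w :=
      mul_le_mul_of_nonneg_right (mul_le_mul_of_nonneg_left hYw hbp.le) hwp.le
    have h2 : b * (w * b ^ 521) * w = w * w * b ^ 522 := by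
      rw [pow_succ b 521]; ring
    have h3 : b ^ 522 ≤ bz ^ 900000 :=
      (pow_le_pow_left₀ hbp.le hbbz 522).trans (pow_le_pow_right₀ hbz1 (by norm_num))
    have h4 : bz ^ 1900000 = w * w * bz ^ 900000 := by
      rw [hw2, ← pow_add, ← pow_add]
    rw [h4]
    calc b * y.a * w ≤ w * w * b ^ 522 := by rw [← h2]; exact h1
      _ ≤ w * w * bz ^ 900000 := mul_le_mul_of_nonneg_left h3 (by positivity)
  have hT : 0 < b * y.a * w := by positivity
  set u : ℝ := 1 / (b * y.a * w) with hu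
  have hup : 0 < u := by positivity
  have huT : u * (b * y.a * w) = 1 := by rw [hu]; field_simp
  -- the distances
  have hd1 : |ξ - tt z| ≤ u := by
    rw [hu, le_div_iff₀ hT]
    exact (mul_le_mul_of_nonneg_left hbig (abs_nonneg _)).trans hξ
  have hd2 : |tt z - tt y| ≤ u := by
    rw [hu, le_div_iff₀ hT]
    exact hc.h4
  -- `d/Y² ≤ u`
  set D : ℝ := (det y : ℝ) with hD
  have hd3 : |D| ≤ u * (y.a : ℝ) ^ 2 := by
    have h1 : (b * |D| * w) ^ 2 ≤ (y.a : ℝ) ^ 2 := by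
      have h2 : (b * |D| * w) ^ 2 = b ^ 2 * D ^ 2 * z.a := by
        rw [mul_pow, mul_pow, sq_abs, pow_two w, hww]
      rw [h2]; exact hc.h3
    have h3 : b * |D| * w ≤ y.a := le_of_sq_le_sq h1 hYp.le
    have h4 : u * (y.a : ℝ) ^ 2 * (b * w) = y.a := by
      have : u * (y.a : ℝ) ^ 2 * (b * w) = u * (b * y.a * w) * y.a := by ring
      rw [this, huT, one_mul]
    have h5 : |D| * (b * w) ≤ u * (y.a : ℝ) ^ 2 * (b * w) := by
      rw [h4]; linarith [h3, (by ring : |D| * (b * w) = b * |D| * w)]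
    exact le_of_mul_le_mul_right h5 (mul_pos hbp hwp)
  -- `u ≤ 1/1000000`
  have hY1 : (1 : ℝ) ≤ y.a := by exact_mod_cast hYi
  have hw1 : (1 : ℝ) ≤ w := by rw [hw2]; exact one_le_pow₀ hbz1
  have hu1 : u ≤ 1 / 1000000 := by
    rw [hu]
    apply one_div_le_one_div_of_le (by norm_num)
    have : (1000000 : ℝ) * 1 * 1 ≤ b * y.a * w :=
      mul_le_mul (mul_le_mul hb hY1 zero_le_one hbp.le) hw1 zero_le_one (by positivity)
    linarith
  have ht1 := hy.ht1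
  have ht2 := hy.ht2
  have hib : 0 < 1 / b := by positivity
  set t : ℝ := tt y with ht
  have htb : (y.b : ℝ) = t * y.a := by
    rw [ht, tt]; field_simp
  have hca : (y.c : ℝ) / y.a = t ^ 2 + D / (y.a : ℝ) ^ 2 := by
    have h1 : D = (y.a : ℝ) * y.c - (y.b : ℝ) ^ 2 := by
      rw [hD]; simp [det]
    rw [h1, htb]; field_simp; ring
  have hba : (y.b : ℝ) / y.a = t := rfl
  have hd4 : |D / (y.a : ℝ) ^ 2| ≤ u := by
    rw [abs_div, abs_of_pos (by positivity : (0 : ℝ) < (y.a : ℝ) ^ 2), div_le_iff₀ (by positivity)]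
    exact hd3
  have hd5 : |ξ - t| ≤ 2 * u := by
    have : ξ - t = (ξ - tt z) + (tt z - t) := by ring
    rw [this]
    exact (abs_add_le _ _).trans (by linarith)
  have hd6 := abs_le.1 hd5
  have hd7 : |ξ + t| ≤ 8 / 5 := by
    rw [abs_le]; constructor <;> linarith [hd6.1, hd6.2]
  have hS : |ξ - (y.b : ℝ) / y.a| + |ξ ^ 2 - (y.c : ℝ) / y.a| < 7 * u := by
    rw [hba, hca]
    have h1 : ξ ^ 2 - (t ^ 2 + D / (y.a : ℝ) ^ 2) = (ξ - t) * (ξ + t) - D / (y.a : ℝ) ^ 2 := by ring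
    have h2 : |ξ ^ 2 - (t ^ 2 + D / (y.a : ℝ) ^ 2)| ≤ 2 * u * (8 / 5) + u := by
      rw [h1]
      refine (abs_sub _ _).trans ?_
      rw [abs_mul]
      exact add_le_add (mul_le_mul hd5 hd7 (abs_nonneg _) (by positivity)) hd4
    linarith
  -- pigeonhole
  have hYn : ((y.a.toNat : ℕ) : ℤ) = y.a := Int.toNat_of_nonneg hYi.le
  have hYnr : ((y.a.toNat : ℕ) : ℝ) = (y.a : ℝ) := by exact_mod_cast hYn
  have hYM : y.a.toNat ≤ M * M := by
    have h1 : ((y.a.toNat : ℕ) : ℝ) ≤ ((M * M : ℕ) : ℝ) := by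
      rw [hYnr]; push_cast; nlinarith
    exact_mod_cast h1
  obtain ⟨p1, p2, hp, hp1, hp2, ⟨k, hk⟩, hval⟩ := poly_aux_pigeon y.a.toNat M
    (by omega) hYM y.b y.c (ξ - (y.b : ℝ) / y.a) (ξ ^ 2 - (y.c : ℝ) / y.a) (7 * u)
    (by positivity) hS
  rw [hYn] at hk
  rw [hYnr] at hval
  have hkr : (k : ℝ) = p1 * ((y.b : ℝ) / y.a) + p2 * ((y.c : ℝ) / y.a) := by
    have h1 : (p1 : ℝ) * y.b + p2 * y.c = y.a * k := by exact_mod_cast hk
    have h2 : (y.a : ℝ) * k = y.a * (p1 * ((y.b : ℝ) / y.a) + p2 * ((y.c : ℝ) / y.a)) := by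
      rw [← h1]; field_simp
    exact mul_left_cancel₀ hYp.ne' h2
  have hp1r : |(p1 : ℝ)| ≤ M := by exact_mod_cast hp1
  have hp2r : |(p2 : ℝ)| ≤ M := by exact_mod_cast hp2
  have hMn : (0 : ℝ) ≤ M := by positivity
  refine ⟨⟨-k, p1, p2⟩, ?_, ⟨?_, ?_, ?_⟩, ?_⟩
  · intro h0
    have e1 : p1 = 0 := congrArg V3.b h0
    have e2 : p2 = 0 := congrArg V3.c h0
    rcases hp with h | h
    · exact h e1
    · exact h e2
  · show |((-k : ℤ) : ℝ)| ≤ 2 * M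
    push_cast
    rw [abs_neg, hkr, hba, hca]
    refine (abs_add_le _ _).trans ?_
    rw [abs_mul, abs_mul]
    have h1 : |t| ≤ 3 / 4 := by rw [abs_le]; constructor <;> linarith
    have h2 : |t ^ 2 + D / (y.a : ℝ) ^ 2| ≤ 1 := by
      refine (abs_add_le _ _).trans ?_
      have h3 : |t ^ 2| ≤ 9 / 16 := by
        rw [abs_pow]
        nlinarith [abs_nonneg t]
      linarith
    have h3 : |(p1 : ℝ)| * |t| ≤ M * (3 / 4) := mul_le_mul hp1r h1 (abs_nonneg _) hMn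
    have h4 : |(p2 : ℝ)| * |t ^ 2 + D / (y.a : ℝ) ^ 2| ≤ M * 1 :=
      mul_le_mul hp2r h2 (abs_nonneg _) hMn
    linarith
  · show |(p1 : ℝ)| ≤ 2 * M
    linarith
  · show |(p2 : ℝ)| ≤ 2 * M
    linarith
  · show |((-k : ℤ) : ℝ) + (p1 : ℝ) * ξ + (p2 : ℝ) * ξ ^ 2| * (b * M * w) ≤ 14
    have h1 : ((-k : ℤ) : ℝ) + (p1 : ℝ) * ξ + (p2 : ℝ) * ξ ^ 2 =
        (p1 : ℝ) * (ξ - (y.b : ℝ) / y.a) + p2 * (ξ ^ 2 - (y.c : ℝ) / y.a) := by
      push_cast; rw [hkr]; ring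
    rw [h1]
    set E : ℝ := |(p1 : ℝ) * (ξ - (y.b : ℝ) / y.a) + p2 * (ξ ^ 2 - (y.c : ℝ) / y.a)| with hE
    have h2 : E * (b * M * w) = E * M * (b * w) := by ring
    have h3 : E * M * (b * w) ≤ 2 * (7 * u) * y.a * (b * w) :=
      mul_le_mul_of_nonneg_right hval (by positivity)
    have h4 : 2 * (7 * u) * y.a * (b * w) = 14 * (u * (b * y.a * w)) := by ring
    rw [h2]
    refine h3.trans ?_
    rw [h4, huT]
    norm_num

end WHP
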