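import Pool.Agent.WHP.Stmts2

/-!
# Nested intervals and good polynomials for one child step (module M9a)
-/

namespace WHP

/-- generic form of the last computation of `Served` -/
private lemma ss_pow (n : ℕ) (p b M Y s : ℝ) (hp : 0 ≤ p) (hb : 0 ≤ b) (hM : 0 ≤ M)
    (hY : b ^ n = Y) (hMY : M ≤ Y) (hMs : M ≤ s) (h : p * (b * M * s) ≤ 14) :
    (p * M ^ 2) ^ n * M ≤ 14 ^ n := by
  have h1 : p * M ^ 2 * b ≤ 14 := by
    refine le_trans ?_ h
    have : b * M * M ≤ b * M * s := mul_le_mul_of_nonneg_left hMs (mul_nonneg hb hM)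
    calc p * M ^ 2 * b = p * (b * M * M) := by ring
      _ ≤ p * (b * M * s) := mul_le_mul_of_nonneg_left this hp
  have h0 : 0 ≤ p * M ^ 2 := mul_nonneg hp (sq_nonneg _)
  calc (p * M ^ 2) ^ n * M ≤ (p * M ^ 2) ^ n * Y :=
        mul_le_mul_of_nonneg_left hMY (pow_nonneg h0 n)
    _ = (p * M ^ 2 * b) ^ n := by rw [mul_pow (p * M ^ 2) b n, hY]
    _ ≤ 14 ^ n := pow_le_pow_left₀ (mul_nonneg h0 hb) h1 n

/-- generic nesting of the intervals -/
private lemma ss_nest (b bz Y s δ : ℝ) (A B C D E : ℕ) (hb : 2 ≤ b) (hbz : b ≤ bz)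
    (hY : b ^ A = Y) (hs : b ^ B ≤ s) (hδ0 : 0 ≤ δ) (hδ : δ * (b * Y * s) ≤ 1)
    (hE : D + 1 ≤ 1 + A + B) (hbz2 : b ^ C ≤ bz ^ A) (hD : D = A + E) (hC : D + 1 ≤ C + E) :
    1 / bz ^ D + δ ≤ 1 / b ^ D := by
  have hb1 : (1 : ℝ) ≤ b := by linarith
  have hb0 : (0 : ℝ) < b := by linarith
  have hbz0 : (0 : ℝ) < bz := by linarith
  have hbD : 0 < b ^ D := pow_pos hb0 D
  have h1 : 2 * b ^ D ≤ bz ^ D := by
    calc 2 * b ^ D ≤ b * b ^ D := mul_le_mul_of_nonneg_right hb hbD.le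
      _ = b ^ (D + 1) := by ring
      _ ≤ b ^ (C + E) := pow_le_pow_right₀ hb1 hC
      _ = b ^ C * b ^ E := pow_add _ _ _
      _ ≤ bz ^ A * bz ^ E :=
          mul_le_mul hbz2 (pow_le_pow_left₀ hb0.le hbz E) (pow_nonneg hb0.le E)
            (pow_nonneg hbz0.le A)
      _ = bz ^ D := by rw [hD, pow_add]
  have h2 : 2 * b ^ D ≤ b * Y * s := by
    calc 2 * b ^ D ≤ b * b ^ D := mul_le_mul_of_nonneg_right hb hbD.le
      _ = b ^ (D + 1) := by ring
      _ ≤ b ^ (1 + A + B) := pow_le_pow_right₀ hb1 hE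
      _ = b * Y * b ^ B := by rw [← hY, pow_add, pow_add, pow_one]
      _ ≤ b * Y * s := mul_le_mul_of_nonneg_left hs
          (mul_nonneg hb0.le (by rw [← hY]; exact pow_nonneg hb0.le A))
  have h3 : 1 / bz ^ D ≤ 1 / (2 * b ^ D) := one_div_le_one_div_of_le (by positivity) h1
  have h4 : δ ≤ 1 / (2 * b ^ D) := by
    rw [le_div_iff₀ (by positivity)]
    exact le_trans (mul_le_mul_of_nonneg_left h2 hδ0) hδ
  calc 1 / bz ^ D + δ ≤ 1 / (2 * b ^ D) + 1 / (2 * b ^ D) := add_le_add h3 h4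
    _ = 1 / b ^ D := by
        field_simp
        norm_num

/-- generic lower bound for a child -/
private lemma ss_low (b Y Z : ℝ) (A C K : ℕ) (hb : 1 ≤ b) (hY : b ^ A = Y)
    (h : Y ^ 2 ≤ Z * b ^ K) (hC : C + K = 2 * A) : b ^ C ≤ Z := by
  have hb0 : (0 : ℝ) < b := by linarith
  have h1 : b ^ C * b ^ K ≤ Z * b ^ K := by
    rw [← pow_add, hC, mul_comm 2 A, pow_mul, hY]
    exact h
  exact le_of_mul_le_mul_right h1 (pow_pos hb0 K)

theorem servedStep (hP : Poly) : ServedStep := by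
  intro i j x y z b bz hx hz hc
  have hb0 : (1000000 : ℝ) ≤ b := hx.hb0
  have hb1 : (1 : ℝ) ≤ b := by linarith
  have hbp : (0 : ℝ) < b := by linarith
  have hbz0 : (1000000 : ℝ) ≤ bz := hz.hb0
  have hbzp : (0 : ℝ) < bz := by linarith
  have hY : b ^ 1000000 = (y.a : ℝ) := hx.hby
  have hZ : bz ^ 1000000 = (z.a : ℝ) := hz.hby
  have hlow : b ^ 1998958 ≤ (z.a : ℝ) :=
    ss_low b y.a z.a 1000000 1998958 1042 hb1 hY hc.h1 (by norm_num)
  have hle : b ≤ bz := by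
    by_contra hcon
    push Not at hcon
    have h1 : bz ^ 1000000 < b ^ 1000000 := pow_lt_pow_left₀ hcon hbzp.le (by norm_num)
    have h2 : b ^ 1000000 ≤ b ^ 1998958 := pow_le_pow_right₀ hb1 (by norm_num)
    rw [hZ] at h1
    linarith
  have hY1 : (1 : ℝ) ≤ y.a := by
    rw [← hY]
    exact one_le_pow₀ hb1
  have hbig : (y.a : ℝ) + 1 ≤ z.a := by
    have h2 : b ^ (1000000 + 1) ≤ b ^ 1998958 := pow_le_pow_right₀ hb1 (by norm_num)
    rw [pow_succ, hY] at h2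
    nlinarith
  have hroot : b ^ 999479 ≤ √(z.a : ℝ) := by
    apply Real.le_sqrt_of_sq_le
    rw [← pow_mul]
    exact hlow
  have hnest : 1 / bz ^ 1900000 + |tt z - tt y| ≤ 1 / b ^ 1900000 :=
    ss_nest b bz y.a (√(z.a : ℝ)) _ 1000000 999479 1998958 1900000 900000 (by linarith) hle hY
      hroot (abs_nonneg _) hc.h4 (by norm_num) (by rw [hZ]; exact hlow) (by norm_num) (by norm_num)
  refine ⟨?_, hle, hbig, ?_⟩
  · intro ξ hξ
    obtain ⟨h1, h2⟩ := hξ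
    have h3 := abs_le.mp (le_refl |tt z - tt y|)
    constructor
    · linarith [h3.1]
    · linarith [h3.2]
  · intro ξ hξ M hM1 hM2
    obtain ⟨h1, h2⟩ := hξ
    have hD : 0 < bz ^ 1900000 := pow_pos hbzp _
    have h3 : |ξ - tt z| ≤ 1 / bz ^ 1900000 := abs_le.mpr ⟨by linarith, by linarith⟩
    have h4 : |ξ - tt z| * bz ^ 1900000 ≤ 1 := by
      rw [le_div_iff₀ hD] at h3
      exact h3
    obtain ⟨P, hP0, hSm, hval⟩ := hP i j x y z b bz hx hz hc ξ h4 M hM1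
    refine ⟨P, hP0, hSm, ?_⟩
    have hMs : (M : ℝ) ≤ √(z.a : ℝ) := Real.le_sqrt_of_sq_le hM2
    have hMY : (M : ℝ) ≤ y.a := by
      have h5 : (M : ℝ) ^ 2 ≤ (y.a : ℝ) ^ 2 := hM2.trans hc.h2
      exact le_of_sq_le_sq h5 (by linarith)
    exact ss_pow NN _ b M y.a _ (abs_nonneg _) hbp.le (Nat.cast_nonneg M) hx.hby hMY hMs hval

end WHP
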