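import Pool.Agent.WHP.Defs

/-!
# Statements of the modules (note 1592)
-/

namespace WHP

/-- M1, Claim 1: nonzero determinants. `Y = y₀`, `d = |det y|`. -/
def Claim1 : Prop := ∀ (i : ℕ) (x y v : V3) (b : ℝ), St i x y b → v ≠ 0 →
  |(v.a : ℝ)| * (det y : ℝ) ^ 2 < (y.a : ℝ) ^ 2 →
  |be (tt y) v| * |(det y : ℝ)| ≤ 2 / b ^ 202 →
  |ga (tt y) v| * (y.a : ℝ) ^ 2 ≤ 4 * b ^ 561 * (det y : ℝ) ^ 2 → det v ≠ 0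

/-- M2, Lemma 2: the property `BA` up to `Z` implies it up to `Z²`. -/
def Lem2 : Prop := ∀ (z : V3) (c : ℝ), 0 < z.a → det z ≠ 0 → 0 ≤ tt z → tt z ≤ 1 →
  1 / 12 ≤ c → c ≤ 1 →
  |(det z : ℝ)| ^ 1000 ≤ (z.a : ℝ) → (10 : ℝ) ^ 100 ≤ z.a →
  BA c (z.a : ℝ) (tt z) → BA c ((z.a : ℝ) ^ 2) (tt z)

/-- M3, pigeonhole box. -/
def Box : Prop := ∀ t V β γ : ℝ, 0 < β → β ≤ 1 → 0 < γ → γ ≤ 1 → 4 ≤ V * β * γ →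
  ∃ v : V3, v ≠ 0 ∧ |(v.a : ℝ)| ≤ V ∧ |be t v| ≤ β ∧ |ga t v| ≤ γ

/-- M4, the geometric step: for a state, one of the three alternatives.
`d = |det y|`, `ga0 = b^481 d²/Y²`, the family is `w + l v`, `l ∈ [l0, l0+m]`.
The valid vectors satisfy `b² Y² β² ≤ z₀`. -/
structure Cand (y z : V3) (b : ℝ) : Prop where
  hpos : 0 < z.a
  hdet : det z ≠ 0
  hval : b ^ 2 * (y.a : ℝ) ^ 2 * be (tt y) z ^ 2 ≤ z.a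
  hrange : b ^ 2 * (det y : ℝ) ^ 2 * z.a ≤ (y.a : ℝ) ^ 2
  hga : |ga (tt y) z| * (y.a : ℝ) ^ 2 ≤ 4 * b ^ 561 * (det y : ℝ) ^ 2
  hbe : |be (tt y) z| ≤ 1 / 2

/-- the geometric step -/
def GeoStep : Prop := ∀ (i : ℕ) (x y : V3) (b : ℝ), St i x y b →
  (∃ z : V3, Cand y z b ∧ i < 6 ∧
      (|(det z : ℝ)| * b ^ 74 ≤ 17 * (det y : ℝ) ^ 2 ∨
        (i ≤ 1 ∧ |(det z : ℝ)| ≤ 200 * b ^ 239))) ∨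
  (∃ (v w : V3) (l0 : ℤ), cross v w ≠ 0 ∧
    |(be (tt y) v) * (ga (tt y) w) - (ga (tt y) v) * (be (tt y) w)| * (y.a : ℝ) ^ 2 ≤
      2 * b ^ 279 * |(det y : ℝ)| ∧
    |(v.a : ℝ) * ga (tt y) w - ga (tt y) v * w.a| ≤ 2 * b ^ 478 ∧
    ∀ l : ℤ, l0 ≤ l → (l : ℝ) ≤ l0 + b ^ 11 / 4 →
      Cand y (lin l v 1 w) b ∧ |(det (lin l v 1 w) : ℝ)| ≤ 5 * b ^ 478)

/-- M5, from candidates to states: the full one-step lemma. -/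
def OneStep : Prop := ∀ (i : ℕ) (x y : V3) (b : ℝ), St i x y b →
  (∃ z bz, St (i + 1) y z bz ∧ Ch y z b bz) ∨
  (∃ F : Finset V3, b ^ 10 ≤ F.card ∧
    (∀ z ∈ F, ∃ bz, St 0 y z bz ∧ Ch y z b bz) ∧
    ∀ z ∈ F, ∀ z' ∈ F, z ≠ z' → 1 ≤ |tt z - tt z'| * (y.a : ℝ) ^ 3 * b ^ 1000)

/-- M6, the polynomials. -/
def Poly : Prop := ∀ (i j : ℕ) (x y z : V3) (b bz : ℝ), St i x y b → St j y z bz →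
  Ch y z b bz → ∀ ξ : ℝ, |ξ - tt z| * bz ^ 1900000 ≤ 1 →
  ∀ M : ℕ, (y.a : ℝ) ≤ (M : ℝ) ^ 2 → ∃ P : V3, P ≠ 0 ∧ Sm P (2 * M) ∧
    |(P.a : ℝ) + P.b * ξ + P.c * ξ ^ 2| * (b * M * √(z.a : ℝ)) ≤ 14

/-- M7, the tree lemma: from branching to positive dimension. -/
def TreeDim : Prop := ∀ (S : Type) (I : S → Set ℝ) (Y : S → ℝ) (R : S → S → Prop) (s0 : S)
  (A D : ℕ), (∀ s, 2 ≤ Y s) → (∀ s, IsCompact (I s)) → (∀ s, (I s).Nonempty) →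
  (∀ s, ∃ (e : ℕ) (ch : ℕ → S), 1 ≤ e ∧ Y s ≤ 2 ^ (A * e) ∧
    (∀ j < 2 ^ e, R s (ch j) ∧ I (ch j) ⊆ I s ∧ Y (ch j) ≤ Y s ^ A) ∧
    ∀ j < 2 ^ e, ∀ j' < 2 ^ e, j ≠ j' → ∀ ξ ∈ I (ch j), ∀ ξ' ∈ I (ch j'),
      1 ≤ |ξ - ξ'| * Y s ^ D) →
  ∃ E : Set ℝ, 0 < dimH E ∧ ∀ ξ ∈ E, ∃ p : ℕ → S, p 0 = s0 ∧ (∀ k, R (p k) (p (k + 1))) ∧
    ∀ k, ξ ∈ I (p k)

/-- M8, an initial state. -/
def Start : Prop := ∃ x y b, St 0 x y b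

end WHP
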